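import Pool.Agent.Helper85.EB.Defs

/-! Row COMB of the EB sheet (helper20). -/

set_option autoImplicit false

namespace EB

open Finset Filter
open scoped Classical

theorem comb_step {n₁ n₂ k₁ k₂ i i' j j' p p' : ℕ} (hk : k₂ ≤ k₁) (h12 : n₁ + k₁ ≤ n₂)
    (hi : 1 ≤ i) (hii : i < i') (hi' : i' ≤ k₁) (hj : 1 ≤ j) (hj2 : j ≤ k₂) (hj' : 1 ≤ j')
    (hj2' : j' ≤ k₂) (hp : p.Prime) (hp' : p'.Prime) (h1 : p ∣ n₁ + i) (h2 : p ∣ n₂ + j)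
    (h1' : p' ∣ n₁ + i') (h2' : p' ∣ n₂ + j') (hT : 3 * n₂ * k₁ ≤ p ^ 2)
    (hT' : 3 * n₂ * k₁ ≤ p' ^ 2) : j + 2 ≤ j' := by
  have hne : p ≠ p' := by
    intro h
    rw [← h] at h1'
    have h3 : p ∣ i' - i := by
      have h4 := Nat.dvd_sub h1' h1
      have h5 : n₁ + i' - (n₁ + i) = i' - i := by omega
      rwa [h5] at h4
    have h4 : p ≤ i' - i := Nat.le_of_dvd (by omega) h3
    have h5 : p < k₁ := by omega
    have h6 : p ^ 2 < k₁ ^ 2 := Nat.pow_lt_pow_left h5 (by norm_num)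
    have h7 : k₁ ^ 2 ≤ 3 * n₂ * k₁ := by
      have h8 : k₁ ≤ n₂ := by omega
      calc k₁ ^ 2 = k₁ * k₁ := sq k₁
        _ ≤ (3 * n₂) * k₁ := Nat.mul_le_mul_right _ (by omega)
    omega
  have hcop : IsCoprime (p : ℤ) (p' : ℤ) := by
    rw [Nat.isCoprime_iff_coprime]
    exact (Nat.coprime_primes hp hp').2 hne
  have hd1 : (p : ℤ) ∣ ((n₂ : ℤ) + j) * (n₁ + i') - ((n₂ : ℤ) + j') * (n₁ + i) := by
    apply dvd_sub
    · exact Dvd.dvd.mul_right (by exact_mod_cast h2) _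
    · exact Dvd.dvd.mul_left (by exact_mod_cast h1) _
  have hd2 : (p' : ℤ) ∣ ((n₂ : ℤ) + j) * (n₁ + i') - ((n₂ : ℤ) + j') * (n₁ + i) := by
    apply dvd_sub
    · exact Dvd.dvd.mul_left (by exact_mod_cast h1') _
    · exact Dvd.dvd.mul_right (by exact_mod_cast h2') _
  have hd : (p : ℤ) * p' ∣ ((n₂ : ℤ) + j) * (n₁ + i') - ((n₂ : ℤ) + j') * (n₁ + i) :=
    hcop.mul_dvd hd1 hd2
  have hpp : 3 * n₂ * k₁ ≤ p * p' := by
    by_contra hlt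
    push Not at hlt
    have h3 : (p * p') ^ 2 < (3 * n₂ * k₁) ^ 2 := Nat.pow_lt_pow_left hlt (by norm_num)
    have h4 : (3 * n₂ * k₁) ^ 2 ≤ (p * p') ^ 2 := by
      calc (3 * n₂ * k₁) ^ 2 = (3 * n₂ * k₁) * (3 * n₂ * k₁) := sq _
        _ ≤ p ^ 2 * p' ^ 2 := Nat.mul_le_mul hT hT'
        _ = (p * p') ^ 2 := by ring
    omega
  have hppZ : (3 : ℤ) * n₂ * k₁ ≤ (p : ℤ) * p' := by exact_mod_cast hpp
  -- sizes
  have z1 : (1 : ℤ) ≤ i := by exact_mod_cast hi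
  have z2 : (i : ℤ) + 1 ≤ i' := by exact_mod_cast hii
  have z3 : (i' : ℤ) ≤ k₁ := by exact_mod_cast hi'
  have z4 : (1 : ℤ) ≤ j := by exact_mod_cast hj
  have z5 : (j : ℤ) ≤ k₂ := by exact_mod_cast hj2
  have z6 : (1 : ℤ) ≤ j' := by exact_mod_cast hj'
  have z7 : (j' : ℤ) ≤ k₂ := by exact_mod_cast hj2'
  have z8 : (k₂ : ℤ) ≤ k₁ := by exact_mod_cast hk
  have z9 : (n₁ : ℤ) + k₁ ≤ n₂ := by exact_mod_cast h12
  have z0 : (0 : ℤ) ≤ n₁ := by positivity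
  have a1 : (n₂ : ℤ) * (i' - i) ≤ n₂ * (k₁ - 1) :=
    mul_le_mul_of_nonneg_left (by linarith) (by linarith)
  have a2 : 0 ≤ (n₂ : ℤ) * (i' - i) := mul_nonneg (by linarith) (by linarith)
  have a3 : (n₁ : ℤ) * (j - j') ≤ n₁ * k₁ := mul_le_mul_of_nonneg_left (by linarith) z0
  have a4 : -((n₁ : ℤ) * k₁) ≤ n₁ * (j - j') := by
    have := mul_le_mul_of_nonneg_left (show (j' : ℤ) - j ≤ k₁ by linarith) z0
    linarith
  have a5 : (j : ℤ) * i' ≤ k₁ * k₁ := mul_le_mul (by linarith) z3 (by linarith) (by linarith)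
  have a6 : (j' : ℤ) * i ≤ k₁ * k₁ :=
    mul_le_mul (by linarith) (by linarith) (by linarith) (by linarith)
  have a7 : (0 : ℤ) < (j : ℤ) * i' := mul_pos (by linarith) (by linarith)
  have a8 : (0 : ℤ) < (j' : ℤ) * i := mul_pos (by linarith) (by linarith)
  have a9 : (n₁ : ℤ) * k₁ + k₁ * k₁ ≤ n₂ * k₁ := by
    have := mul_le_mul_of_nonneg_right z9 (show (0 : ℤ) ≤ k₁ by linarith)
    linarith
  have b1 : (0 : ℤ) < n₂ := by linarith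
  have b2 : (0 : ℤ) ≤ n₂ * k₁ := mul_nonneg b1.le (by linarith)
  have hid : ((n₂ : ℤ) + j) * (n₁ + i') - ((n₂ : ℤ) + j') * (n₁ + i) =
      n₂ * (i' - i) + n₁ * (j - j') + j * i' - j' * i := by ring
  have hlt : |((n₂ : ℤ) + j) * (n₁ + i') - ((n₂ : ℤ) + j') * (n₁ + i)| < (p : ℤ) * p' := by
    rw [hid, abs_lt]
    constructor
    · nlinarith
    · nlinarith
  have hΔ : ((n₂ : ℤ) + j) * (n₁ + i') - ((n₂ : ℤ) + j') * (n₁ + i) = 0 :=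
    Int.eq_zero_of_abs_lt_dvd hd hlt
  have hΔ2 : ((j' : ℤ) - j) * (n₁ + i) = (n₂ + j) * (i' - i) := by linear_combination -hΔ
  by_contra hcon
  have hcon' : (j' : ℤ) - j ≤ 1 := by
    have : j' < j + 2 := by omega
    have h3 : (j' : ℤ) < j + 2 := by exact_mod_cast this
    linarith
  have h5 : ((j' : ℤ) - j) * (n₁ + i) ≤ 1 * (n₁ + i) :=
    mul_le_mul_of_nonneg_right hcon' (by linarith)
  have h6 : ((n₂ : ℤ) + j) * 1 ≤ (n₂ + j) * (i' - i) :=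
    mul_le_mul_of_nonneg_left (by linarith) (by linarith)
  linarith

theorem comb {n₁ n₂ k₁ k₂ : ℕ} (hk : k₂ ≤ k₁) (h12 : n₁ + k₁ ≤ n₂)
    (hP : (bl n₁ k₁).primeFactors ⊆ (bl n₂ k₂).primeFactors) :
    2 * ((Icc 1 k₁).filter (fun i => ∃ p : ℕ, p.Prime ∧ p ∣ n₁ + i ∧ 3 * n₂ * k₁ ≤ p ^ 2)).card
      ≤ k₁ + 1 := by
  have hex : ∀ i : ℕ, ∃ p j : ℕ, i ∈ (Icc 1 k₁).filter
      (fun i => ∃ p : ℕ, p.Prime ∧ p ∣ n₁ + i ∧ 3 * n₂ * k₁ ≤ p ^ 2) →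
      p.Prime ∧ p ∣ n₁ + i ∧ 3 * n₂ * k₁ ≤ p ^ 2 ∧ 1 ≤ j ∧ j ≤ k₂ ∧ p ∣ n₂ + j := by
    intro i
    by_cases h : i ∈ (Icc 1 k₁).filter
      (fun i => ∃ p : ℕ, p.Prime ∧ p ∣ n₁ + i ∧ 3 * n₂ * k₁ ≤ p ^ 2)
    · obtain ⟨hi, p, hp, hd, hT⟩ := Finset.mem_filter.1 h
      have hb : bl n₁ k₁ ≠ 0 := by
        unfold bl
        rw [Finset.prod_ne_zero_iff]
        intro a ha
        have := (Finset.mem_Icc.1 ha).1
        omega
      have hm : p ∈ (bl n₁ k₁).primeFactors := by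
        rw [Nat.mem_primeFactors]
        exact ⟨hp, hd.trans (Finset.dvd_prod_of_mem _ hi), hb⟩
      have hm2 := (Nat.mem_primeFactors.1 (hP hm)).2.1
      unfold bl at hm2
      obtain ⟨j, hj, hjd⟩ := (hp.prime.exists_mem_finset_dvd hm2)
      exact ⟨p, j, fun _ => ⟨hp, hd, hT, (Finset.mem_Icc.1 hj).1, (Finset.mem_Icc.1 hj).2, hjd⟩⟩
    · exact ⟨0, 0, fun h' => absurd h' h⟩
  choose p j hpj using hex
  set I := (Icc 1 k₁).filter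
      (fun i => ∃ p : ℕ, p.Prime ∧ p ∣ n₁ + i ∧ 3 * n₂ * k₁ ≤ p ^ 2) with hI
  have hstep : ∀ i ∈ I, ∀ i' ∈ I, i < i' → j i + 2 ≤ j i' := by
    intro i hi i' hi' hii
    obtain ⟨a1, a2, a3, a4, a5, a6⟩ := hpj i hi
    obtain ⟨b1, b2, b3, b4, b5, b6⟩ := hpj i' hi'
    have c1 := Finset.mem_Icc.1 (Finset.mem_filter.1 hi).1
    have c2 := Finset.mem_Icc.1 (Finset.mem_filter.1 hi').1
    exact comb_step hk h12 c1.1 hii c2.2 a4 a5 b4 b5 a1 b1 a2 a6 b2 b6 a3 b3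
  have hcard : I.card ≤ (Icc 1 ((k₂ + 1) / 2)).card := by
    refine Finset.card_le_card_of_injOn (fun i => (j i + 1) / 2) ?_ ?_
    · intro i hi
      obtain ⟨a1, a2, a3, a4, a5, a6⟩ := hpj i hi
      simp only [Finset.coe_Icc, Set.mem_Icc]
      omega
    · intro i hi i' hi' hij
      simp only at hij
      rcases lt_trichotomy i i' with h | h | h
      · have := hstep i hi i' hi' h
        omega
      · exact h
      · have := hstep i' hi' i hi h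
        omega
  rw [Nat.card_Icc] at hcard
  omega

end EB
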