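import Mathlib

/-! Two blocks of consecutive integers with equal prime support, for almost all first blocks
(MP_b6eca7_nt): common definitions. -/

set_option autoImplicit false

namespace EB

open Finset

/-- The product `(n+1)(n+2)...(n+k)`. -/
def bl (n k : ℕ) : ℕ := ∏ i ∈ Icc 1 k, (n + i)

/-- The radical (product of the prime factors). -/
def rd (n : ℕ) : ℕ := ∏ p ∈ n.primeFactors, p

/-- The mass of the primes up to `y` in `m`: the logarithm of the `y`-smooth part of `m`. -/
noncomputable def gg (y m : ℕ) : ℝ :=
  ∑ p ∈ (Icc 1 y).filter Nat.Prime, (m.factorization p : ℝ) * Real.log p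

/-- The mass of the primes in `(k, y]` dividing `n+1, ..., n+k` (without multiplicity). -/
noncomputable def SS (y k n : ℕ) : ℝ :=
  ∑ i ∈ Icc 1 k, ∑ p ∈ (Ioc k y).filter Nat.Prime, if p ∣ n + i then Real.log p else 0

/-- The mass of the primes up to `y` dividing `m`, without multiplicity. -/
noncomputable def g1 (y m : ℕ) : ℝ :=
  ∑ p ∈ (Icc 1 y).filter Nat.Prime, if p ∣ m then Real.log p else 0

end EB
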