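import Pool.Agent.Helper85.EB.Defs

/-! Row DENS of the EB sheet (helper20). -/

set_option autoImplicit false

namespace EB

open Finset Filter
open scoped Classical

theorem dens_bound (S : Set ℕ) (η : ℝ) (hη : 0 < η) (X₀ : ℕ)
    (h : ∀ X : ℕ, X₀ ≤ X → ((S ∩ Set.Ico X (2 * X)).ncard : ℝ) ≤ η * X) (N : ℕ) :
    ((S ∩ Set.Iio N).ncard : ℝ) ≤ 2 * X₀ + 3 + 2 * η * N := by
  induction N using Nat.strong_induction_on with
  | _ N ih =>
    by_cases hN : N ≤ 2 * X₀ + 3
    · have h1 : (S ∩ Set.Iio N).ncard ≤ (Set.Iio N).ncard :=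
        Set.ncard_le_ncard Set.inter_subset_right (Set.finite_Iio N)
      have h2 : (Set.Iio N).ncard = N := by
        rw [← Finset.coe_Iio, Set.ncard_coe_finset, Nat.card_Iio]
      have h3 : ((S ∩ Set.Iio N).ncard : ℝ) ≤ N := by
        rw [h2] at h1
        exact_mod_cast h1
      have h4 : (N : ℝ) ≤ 2 * X₀ + 3 := by exact_mod_cast hN
      have h5 : 0 ≤ 2 * η * (N : ℝ) := by positivity
      linarith
    · push Not at hN
      set X : ℕ := (N + 1) / 2 with hX
      have hX0 : X₀ ≤ X := by omega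
      have hXN : X < N := by omega
      have hNX : N ≤ 2 * X := by omega
      have h1 : S ∩ Set.Iio N ⊆ (S ∩ Set.Iio X) ∪ (S ∩ Set.Ico X (2 * X)) := by
        rintro m ⟨hm, hmN⟩
        have hmN' : m < N := hmN
        by_cases hmX : m < X
        · exact Or.inl ⟨hm, hmX⟩
        · exact Or.inr ⟨hm, by simp only [Set.mem_Ico]; omega⟩
      have h2 : (S ∩ Set.Iio N).ncard ≤
          (S ∩ Set.Iio X).ncard + (S ∩ Set.Ico X (2 * X)).ncard := by
        refine (Set.ncard_le_ncard h1 ?_).trans (Set.ncard_union_le _ _)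
        exact ((Set.finite_Iio X).inter_of_right S).union ((Set.finite_Ico X (2 * X)).inter_of_right S)
      have h3 : ((S ∩ Set.Iio N).ncard : ℝ) ≤
          (S ∩ Set.Iio X).ncard + (S ∩ Set.Ico X (2 * X)).ncard := by exact_mod_cast h2
      have h4 := ih X hXN
      have h5 := h X hX0
      have h6 : 3 * (X : ℝ) ≤ 2 * N := by
        have : 3 * X ≤ 2 * N := by omega
        exact_mod_cast this
      have h7 : η * (3 * (X : ℝ)) ≤ η * (2 * N) := mul_le_mul_of_nonneg_left h6 hη.le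
      linarith

theorem dens (S : Set ℕ) (h : ∀ η : ℝ, 0 < η → ∃ X₀ : ℕ, ∀ X : ℕ, X₀ ≤ X →
    ((S ∩ Set.Ico X (2 * X)).ncard : ℝ) ≤ η * X) :
    Tendsto (fun N : ℕ => ((S ∩ Set.Iio N).ncard : ℝ) / N) atTop (nhds 0) := by
  rw [Metric.tendsto_atTop]
  intro ε hε
  obtain ⟨X₀, hX⟩ := h (ε / 4) (by linarith)
  have hb := dens_bound S (ε / 4) (by linarith) X₀ hX
  obtain ⟨M, hM⟩ := exists_nat_gt ((2 * (X₀ : ℝ) + 3) / (ε / 2))
  refine ⟨M + 1, fun N hN => ?_⟩
  have hN1 : M < N := hN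
  have hN0 : (0 : ℝ) < N := by
    have : 0 < N := by omega
    exact_mod_cast this
  rw [Real.dist_eq, sub_zero, abs_of_nonneg (by positivity), div_lt_iff₀ hN0]
  have h1 := hb N
  have h2 : (2 * (X₀ : ℝ) + 3) / (ε / 2) < N := by
    have : (M : ℝ) < N := by exact_mod_cast hN1
    linarith
  rw [div_lt_iff₀ (by linarith)] at h2
  nlinarith

end EB
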