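import Pool.Agent.Helper85.EB.Defs

set_option autoImplicit false

namespace EB

open Finset

/-- the centred shifts -/
noncomputable def spcC (k i : ℕ) : ℝ := 2 * (i : ℝ) - k - 1

/-- the normalised product -/
noncomputable def spcG (k : ℕ) (z : ℝ) : ℝ := ∏ i ∈ Icc 1 k, (1 + spcC k i / z)

theorem spc_abs (k i : ℕ) (hi : i ∈ Icc 1 k) : |spcC k i| ≤ k := by
  rw [mem_Icc] at hi
  have h1 : (1 : ℝ) ≤ i := by exact_mod_cast hi.1
  have h2 : (i : ℝ) ≤ k := by exact_mod_cast hi.2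
  unfold spcC
  rw [abs_le]
  constructor <;> linarith

theorem spc_bl (x k : ℕ) (s : ℝ) (hs : s = 2 * (x : ℝ) + k + 1) :
    (2 : ℝ) ^ k * (bl x k : ℝ) = s ^ k * spcG k s := by
  have hs0 : 0 < s := by rw [hs]; positivity
  unfold bl spcG
  push_cast
  have e1 : (2 : ℝ) ^ k = ∏ _i ∈ Icc 1 k, (2 : ℝ) := by
    rw [prod_const, Nat.card_Icc]; simp
  have e2 : s ^ k = ∏ _i ∈ Icc 1 k, s := by
    rw [prod_const, Nat.card_Icc]; simp
  rw [e1, e2, ← prod_mul_distrib, ← prod_mul_distrib]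
  apply prod_congr rfl
  intro i _
  have : s * (1 + spcC k i / s) = s + spcC k i := by field_simp
  rw [this, hs]
  unfold spcC
  ring

theorem spc_refl (k : ℕ) (z : ℝ) : spcG k z = ∏ i ∈ Icc 1 k, (1 - spcC k i / z) := by
  unfold spcG
  apply prod_nbij' (fun i => k + 1 - i) (fun i => k + 1 - i)
  · intro i hi; rw [mem_Icc] at hi ⊢; omega
  · intro i hi; rw [mem_Icc] at hi ⊢; omega
  · intro i hi; rw [mem_Icc] at hi; omega
  · intro i hi; rw [mem_Icc] at hi; omega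
  · intro i hi
    rw [mem_Icc] at hi
    have h : ((k + 1 - i : ℕ) : ℝ) = (k : ℝ) + 1 - i := by
      rw [Nat.cast_sub (by omega)]; push_cast; ring
    unfold spcC
    rw [h]
    ring

theorem spc_sq (k : ℕ) (z : ℝ) :
    spcG k z ^ 2 = ∏ i ∈ Icc 1 k, (1 - spcC k i ^ 2 / z ^ 2) := by
  rw [sq]
  nth_rewrite 2 [spc_refl]
  unfold spcG
  rw [← prod_mul_distrib]
  apply prod_congr rfl
  intro i _
  ring

theorem spc_small (k i : ℕ) (z : ℝ) (hz : 2 * (k : ℝ) ≤ z) (hk : 1 ≤ k) (hi : i ∈ Icc 1 k) :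
    |spcC k i / z| ≤ 1 / 2 := by
  have hk' : (1 : ℝ) ≤ k := by exact_mod_cast hk
  have hz0 : 0 < z := by linarith
  rw [abs_div, abs_of_pos hz0, div_le_iff₀ hz0]
  have := spc_abs k i hi
  linarith

theorem spc_pos (k : ℕ) (z : ℝ) (hz : 2 * (k : ℝ) ≤ z) (hk : 1 ≤ k) : 0 < spcG k z := by
  unfold spcG
  apply prod_pos
  intro i hi
  have := (abs_le.1 (spc_small k i z hz hk hi)).1
  linarith

theorem spc_fac (k i : ℕ) (z : ℝ) (hz : 2 * (k : ℝ) ≤ z) (hk : 1 ≤ k) (hi : i ∈ Icc 1 k) :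
    0 < 1 - spcC k i ^ 2 / z ^ 2 ∧ 1 - spcC k i ^ 2 / z ^ 2 ≤ 1 := by
  have h := spc_small k i z hz hk hi
  have h2 : spcC k i ^ 2 / z ^ 2 = (spcC k i / z) ^ 2 := by rw [div_pow]
  rw [h2]
  have h3 : (spcC k i / z) ^ 2 ≤ (1 / 2) ^ 2 := by
    rw [← sq_abs]
    exact pow_le_pow_left₀ (abs_nonneg _) h 2
  have h4 := sq_nonneg (spcC k i / z)
  constructor <;> nlinarith

theorem spc_le_one (k : ℕ) (z : ℝ) (hz : 2 * (k : ℝ) ≤ z) (hk : 1 ≤ k) : spcG k z ≤ 1 := by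
  have h0 := spc_pos k z hz hk
  have h1 : spcG k z ^ 2 ≤ 1 := by
    rw [spc_sq]
    exact prod_le_one (fun i hi => (spc_fac k i z hz hk hi).1.le)
      (fun i hi => (spc_fac k i z hz hk hi).2)
  nlinarith

theorem spc_prod {α : Type*} [DecidableEq α] (S : Finset α) (f : α → ℝ)
    (hf : ∀ i ∈ S, 0 ≤ f i ∧ f i ≤ 1) : 1 - ∑ i ∈ S, f i ≤ ∏ i ∈ S, (1 - f i) ∧
      ∏ i ∈ S, (1 - f i) ≤ 1 ∧ 0 ≤ ∏ i ∈ S, (1 - f i) := by
  induction S using Finset.induction_on with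
  | empty => simp
  | insert a S ha ih =>
    have h1 := ih (fun i hi => hf i (mem_insert_of_mem hi))
    have h2 := hf a (mem_insert_self a S)
    have h3 : 0 ≤ ∑ i ∈ S, f i := sum_nonneg (fun i hi => (hf i (mem_insert_of_mem hi)).1)
    rw [sum_insert ha, prod_insert ha]
    obtain ⟨p1, p2, p3⟩ := h1
    refine ⟨?_, ?_, ?_⟩
    · nlinarith
    · nlinarith
    · exact mul_nonneg (by linarith) p3

theorem spc_lower (k : ℕ) (z : ℝ) (hz : 2 * (k : ℝ) ≤ z) (hk : 1 ≤ k) :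
    1 - (k : ℝ) ^ 3 / z ^ 2 ≤ spcG k z := by
  have hk' : (1 : ℝ) ≤ k := by exact_mod_cast hk
  have hz0 : 0 < z := by linarith
  have h0 := spc_pos k z hz hk
  have h1 := spc_le_one k z hz hk
  have h2 : spcG k z ^ 2 ≤ spcG k z := by nlinarith
  have h3 : 1 - ∑ i ∈ Icc 1 k, spcC k i ^ 2 / z ^ 2 ≤ spcG k z ^ 2 := by
    rw [spc_sq]
    apply (spc_prod (Icc 1 k) (fun i => spcC k i ^ 2 / z ^ 2) _).1
    intro i hi
    have := spc_fac k i z hz hk hi
    constructor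
    · positivity
    · linarith [this.1]
  have h4 : ∑ i ∈ Icc 1 k, spcC k i ^ 2 / z ^ 2 ≤ (k : ℝ) ^ 3 / z ^ 2 := by
    calc ∑ i ∈ Icc 1 k, spcC k i ^ 2 / z ^ 2 ≤ ∑ _i ∈ Icc 1 k, (k : ℝ) ^ 2 / z ^ 2 := by
          apply sum_le_sum
          intro i hi
          have := spc_abs k i hi
          have h5 : spcC k i ^ 2 ≤ (k : ℝ) ^ 2 := by
            rw [← sq_abs]
            exact pow_le_pow_left₀ (abs_nonneg _) this 2
          exact div_le_div_of_nonneg_right h5 (by positivity)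
      _ = (k : ℝ) ^ 3 / z ^ 2 := by
          rw [sum_const, Nat.card_Icc, nsmul_eq_mul]
          have : ((k + 1 - 1 : ℕ) : ℝ) = k := by simp
          rw [this]; ring
  linarith

theorem spc_mono (k : ℕ) (s t : ℝ) (hs : 2 * (k : ℝ) ≤ s) (hst : s < t) (hk : 2 ≤ k) :
    spcG k s < spcG k t := by
  have hk1 : 1 ≤ k := by omega
  have hk' : (2 : ℝ) ≤ k := by exact_mod_cast hk
  have hs0 : 0 < s := by linarith
  have ht0 : 0 < t := by linarith
  have ht : 2 * (k : ℝ) ≤ t := by linarith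
  have h0 := spc_pos k s hs hk1
  have h1 := spc_pos k t ht hk1
  have h2 : spcG k s ^ 2 < spcG k t ^ 2 := by
    rw [spc_sq, spc_sq]
    apply prod_lt_prod
    · intro i hi; exact (spc_fac k i s hs hk1 hi).1
    · intro i hi
      have h3 : spcC k i ^ 2 / t ^ 2 ≤ spcC k i ^ 2 / s ^ 2 := by
        apply div_le_div_of_nonneg_left (sq_nonneg _) (by positivity)
        exact pow_le_pow_left₀ hs0.le hst.le 2
      linarith
    · refine ⟨1, by rw [mem_Icc]; omega, ?_⟩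
      have h3 : 0 < spcC k 1 ^ 2 := by
        have : spcC k 1 < 0 := by unfold spcC; push_cast; linarith
        nlinarith [this]
      have h4 : spcC k 1 ^ 2 / t ^ 2 < spcC k 1 ^ 2 / s ^ 2 := by
        apply div_lt_div_of_pos_left h3 (by positivity)
        exact pow_lt_pow_left₀ hst hs0.le (by norm_num)
      linarith
  exact lt_of_pow_lt_pow_left₀ 2 h1.le h2

theorem spc_diff (q r : ℝ) (hq : 1 ≤ q) (hqr : q ≤ r) (k : ℕ) (hk : 1 ≤ k) :
    r - q ≤ r ^ k - q ^ k := by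
  induction k, hk using Nat.le_induction with
  | base => simp
  | succ n hn ih =>
    have h1 : 1 ≤ q ^ n := one_le_pow₀ hq
    have h2 : q ^ n ≤ r ^ n := pow_le_pow_left₀ (by linarith) hqr n
    rw [pow_succ, pow_succ]
    nlinarith [mul_nonneg (sub_nonneg.2 h2) (by linarith : (0 : ℝ) ≤ r - 1),
      mul_nonneg (sub_nonneg.2 h1) (sub_nonneg.2 hqr)]

theorem spc_diff_abs (q r : ℝ) (hq : 1 ≤ q) (hr : 1 ≤ r) (k : ℕ) (hk : 1 ≤ k) :
    |r - q| ≤ |r ^ k - q ^ k| := by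
  rcases le_total q r with h | h
  · rw [abs_of_nonneg (by linarith)]
    exact (spc_diff q r hq h k hk).trans (le_abs_self _)
  · rw [abs_sub_comm r q, abs_sub_comm (r ^ k) (q ^ k), abs_of_nonneg (by linarith : (0 : ℝ) ≤ q - r)]
    exact (spc_diff r q hr h k hk).trans (le_abs_self _)

theorem spc_one (k X x y a b : ℕ) (hk : 2 ≤ k) (hX : k + 1 ≤ X) (hX3 : k ^ 3 ≤ X) (ha : 1 ≤ a)
    (hx : X ≤ x) (hxy : x < y) (hy : y ≤ 2 * x) (h : b * bl x k = a * bl y k) (s t : ℝ)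
    (hs : s = 2 * (x : ℝ) + k + 1) (ht : t = 2 * (y : ℝ) + k + 1) :
    (t / s) ^ k < (b : ℝ) / a ∧ (b : ℝ) / a - (t / s) ^ k ≤ 2 ^ k * (k : ℝ) ^ 3 / (X : ℝ) ^ 2 ∧
      1 < t / s ∧ t / s ≤ 2 := by
  have hk1 : 1 ≤ k := by omega
  have k2 : (2 : ℝ) ≤ k := by exact_mod_cast hk
  have rX : (k : ℝ) + 1 ≤ X := by exact_mod_cast hX
  have rX3 : (k : ℝ) ^ 3 ≤ X := by exact_mod_cast hX3
  have ra : (1 : ℝ) ≤ a := by exact_mod_cast ha
  have rx : (X : ℝ) ≤ x := by exact_mod_cast hx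
  have rxy : (x : ℝ) < y := by exact_mod_cast hxy
  have ry : (y : ℝ) ≤ 2 * x := by exact_mod_cast hy
  have X0 : (0 : ℝ) < X := by linarith
  have hs2 : 2 * (X : ℝ) ≤ s := by rw [hs]; linarith
  have hsk : 2 * (k : ℝ) ≤ s := by linarith
  have hs0 : 0 < s := by linarith
  have hst : s < t := by rw [hs, ht]; linarith
  have ht0 : 0 < t := by linarith
  have htk : 2 * (k : ℝ) ≤ t := by linarith
  have r1 : 1 < t / s := by rw [lt_div_iff₀ hs0]; linarith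
  have r2 : t / s ≤ 2 := by rw [div_le_iff₀ hs0, hs, ht]; linarith
  have g0 := spc_pos k s hsk hk1
  have g1 := spc_le_one k t htk hk1
  have g2 := spc_lower k s hsk hk1
  have g3 := spc_mono k s t hsk hst hk
  have e1 := spc_bl x k s hs
  have e2 := spc_bl y k t ht
  have e3 : (b : ℝ) * bl x k = a * bl y k := by exact_mod_cast h
  have e4 : (b : ℝ) * (s ^ k * spcG k s) = a * (t ^ k * spcG k t) := by
    rw [← e1, ← e2]; linear_combination (2 : ℝ) ^ k * e3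
  have hB : (b : ℝ) / a = (t / s) ^ k * (spcG k t / spcG k s) := by
    rw [div_pow]
    field_simp
    linear_combination e4
  have hp1 : 0 < (t / s) ^ k := by positivity
  have hp2 : (t / s) ^ k ≤ 2 ^ k := pow_le_pow_left₀ (by linarith) r2 k
  have hq : 1 < spcG k t / spcG k s := by rw [lt_div_iff₀ g0]; linarith
  have hsq : 4 * (X : ℝ) ^ 2 ≤ s ^ 2 := by
    have := pow_le_pow_left₀ (by linarith : (0 : ℝ) ≤ 2 * X) hs2 2
    linarith [mul_pow (2 : ℝ) (X : ℝ) 2]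
  have hks : (k : ℝ) ^ 3 / s ^ 2 ≤ (k : ℝ) ^ 3 / (4 * (X : ℝ) ^ 2) := by
    apply div_le_div_of_nonneg_left (by positivity) (by positivity) hsq
  have hk4 : (k : ℝ) ^ 3 / (4 * (X : ℝ) ^ 2) ≤ 1 / 4 := by
    rw [div_le_div_iff₀ (by positivity) (by norm_num)]
    have : (X : ℝ) ≤ (X : ℝ) ^ 2 := le_self_pow₀ (by linarith) (by norm_num)
    linarith
  have hq2 : spcG k t / spcG k s - 1 ≤ (k : ℝ) ^ 3 / (X : ℝ) ^ 2 := by
    have h5 : spcG k t / spcG k s - 1 = (spcG k t - spcG k s) / spcG k s := by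
      field_simp
    rw [h5, div_le_iff₀ g0]
    have h6 : (k : ℝ) ^ 3 / (4 * (X : ℝ) ^ 2) = (k : ℝ) ^ 3 / (X : ℝ) ^ 2 / 4 := by
      field_simp
    have h7 : 0 ≤ (k : ℝ) ^ 3 / (X : ℝ) ^ 2 := by positivity
    have g4 : 3 / 4 ≤ spcG k s := by linarith
    have h8 := mul_le_mul_of_nonneg_left g4 h7
    linarith
  refine ⟨?_, ?_, r1, r2⟩
  · rw [hB]; exact lt_mul_of_one_lt_right hp1 hq
  · have h8 : (b : ℝ) / a - (t / s) ^ k = (t / s) ^ k * (spcG k t / spcG k s - 1) := by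
      rw [hB]; ring
    rw [h8, mul_div_assoc]
    apply mul_le_mul hp2 hq2 (by linarith) (by positivity)

theorem spacing (k : ℕ) (hk : 2 ≤ k) : ∃ C : ℕ, ∀ X a b x₁ y₁ x₂ y₂ : ℕ, C ≤ X → 1 ≤ a → 1 ≤ b →
    X ≤ x₁ → x₁ < x₂ → x₂ < 2 * X → x₁ < y₁ → y₁ ≤ 2 * x₁ → x₂ < y₂ → y₂ ≤ 2 * x₂ →
    b * bl x₁ k = a * bl y₁ k → b * bl x₂ k = a * bl y₂ k →
    X ≤ C * a * (x₂ - x₁) ^ (k - 1) := by
  refine ⟨10 * (2 ^ k * k ^ 3) * (k * 3 ^ k + 1) + k + 1 + k ^ 3, ?_⟩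
  intro X a b x₁ y₁ x₂ y₂ hC ha hb hx1 hx12 hx2 hy1 hy1' hy2 hy2' h1 h2
  by_contra hcon
  push Not at hcon
  set C := 10 * (2 ^ k * k ^ 3) * (k * 3 ^ k + 1) + k + 1 + k ^ 3 with hCdef
  have hXk : k + 1 ≤ X := by
    have : k + 1 ≤ C := by rw [hCdef]; linarith [Nat.zero_le (k ^ 3), Nat.zero_le (10 * (2 ^ k * k ^ 3) * (k * 3 ^ k + 1))]
    omega
  have hX3 : k ^ 3 ≤ X := by
    have : k ^ 3 ≤ C := by rw [hCdef]; linarith [Nat.zero_le (10 * (2 ^ k * k ^ 3) * (k * 3 ^ k + 1))]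
    omega
  have P1 := spc_one k X x₁ y₁ a b hk hXk hX3 ha hx1 hy1 hy1' h1 _ _ rfl rfl
  have P2 := spc_one k X x₂ y₂ a b hk hXk hX3 ha (by omega) hy2 hy2' h2 _ _ rfl rfl
  set s1 : ℝ := 2 * (x₁ : ℝ) + k + 1 with hs1
  set t1 : ℝ := 2 * (y₁ : ℝ) + k + 1 with ht1
  set s2 : ℝ := 2 * (x₂ : ℝ) + k + 1 with hs2
  set t2 : ℝ := 2 * (y₂ : ℝ) + k + 1 with ht2
  obtain ⟨p1, p2, p3, p4⟩ := P1
  obtain ⟨q1, q2, q3, q4⟩ := P2
  have k2 : (2 : ℝ) ≤ k := by exact_mod_cast hk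
  have rXk : (k : ℝ) + 1 ≤ X := by exact_mod_cast hXk
  have X0 : (0 : ℝ) < X := by linarith
  have ra : (1 : ℝ) ≤ a := by exact_mod_cast ha
  have rb : (1 : ℝ) ≤ b := by exact_mod_cast hb
  have rx1 : (X : ℝ) ≤ x₁ := by exact_mod_cast hx1
  have rx12 : (x₁ : ℝ) + 1 ≤ x₂ := by exact_mod_cast hx12
  have rx2 : (x₂ : ℝ) ≤ 2 * X := by exact_mod_cast hx2.le
  have hs1p : 0 < s1 := by rw [hs1]; positivity
  have hs2p : 0 < s2 := by rw [hs2]; positivity
  have hs1u : s1 ≤ 5 * X := by rw [hs1]; linarith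
  have hs2u : s2 ≤ 5 * X := by rw [hs2]; linarith
  set C1 : ℝ := 2 ^ k * (k : ℝ) ^ 3 with hC1
  have hC1p : 1 ≤ C1 := by
    rw [hC1]
    have h3 : (1 : ℝ) ≤ 2 ^ k := one_le_pow₀ (by norm_num)
    have h4 : (1 : ℝ) ≤ (k : ℝ) ^ 3 := one_le_pow₀ (by linarith)
    exact one_le_mul_of_one_le_of_one_le h3 h4
  set E : ℝ := (k : ℝ) * 3 ^ k + 1 with hE
  have hE1 : 1 ≤ E := by
    rw [hE]
    have : (0 : ℝ) ≤ (k : ℝ) * 3 ^ k := by positivity
    linarith
  have hCr : 10 * C1 * E ≤ (C : ℝ) := by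
    rw [hCdef, hC1, hE]
    push_cast
    have : (0 : ℝ) ≤ (k : ℝ) + 1 + (k : ℝ) ^ 3 := by positivity
    linarith
  have hCX : (C : ℝ) ≤ X := by exact_mod_cast hC
  have h10C : 10 * C1 ≤ (C : ℝ) := (le_mul_of_one_le_right (by linarith) hE1).trans hCr
  have h10 : 10 * C1 ≤ X := h10C.trans hCX
  set u : ℝ := (x₂ : ℝ) - x₁ with hu
  set v : ℝ := (y₂ : ℝ) - y₁ with hv
  have hu1 : 1 ≤ u := by rw [hu]; linarith
  have huX : u ≤ X := by rw [hu]; linarith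
  have hconr : (C : ℝ) * a * u ^ (k - 1) < X := by
    have h3 : ((x₂ - x₁ : ℕ) : ℝ) = u := by rw [hu, Nat.cast_sub hx12.le]
    have h4 : ((C * a * (x₂ - x₁) ^ (k - 1) : ℕ) : ℝ) < X := by exact_mod_cast hcon
    rw [Nat.cast_mul, Nat.cast_mul, Nat.cast_pow, h3] at h4
    exact h4
  have huk : u ≤ u ^ (k - 1) := by
    calc u = u ^ 1 := (pow_one u).symm
      _ ≤ u ^ (k - 1) := pow_le_pow_right₀ hu1 (by omega)
  have huk0 : 0 < u ^ (k - 1) := by positivity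
  have hkk : u ^ k = u * u ^ (k - 1) := by
    rw [← pow_succ']; congr 1; omega
  set r1 := t1 / s1 with hr1
  set r2 := t2 / s2 with hr2
  have hr12 : |r2 - r1| ≤ C1 / X ^ 2 := by
    have h3 := spc_diff_abs r1 r2 p3.le q3.le k (by omega)
    refine h3.trans ?_
    rw [abs_le]
    constructor <;> linarith
  have e1 : v - r1 * u = (r2 - r1) * s2 / 2 := by
    have h3 : t1 = r1 * s1 := by rw [hr1]; field_simp
    have h4 : t2 = r2 * s2 := by rw [hr2]; field_simp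
    have h5 : 2 * v = t2 - t1 := by rw [hv, ht1, ht2]; ring
    have h6 : 2 * u = s2 - s1 := by rw [hu, hs1, hs2]; ring
    linear_combination (1 / 2) * h5 - (r1 / 2) * h6 + (1 / 2) * h4 - (1 / 2) * h3
  have e2 : |v - r1 * u| ≤ 3 * C1 / X := by
    rw [e1, abs_div, abs_mul, abs_of_pos hs2p, abs_of_pos (by norm_num : (0 : ℝ) < 2)]
    have h3 : |r2 - r1| * s2 ≤ C1 / X ^ 2 * (5 * X) := by
      apply mul_le_mul hr12 hs2u hs2p.le (by positivity)
    have h4 : C1 / X ^ 2 * (5 * X) = 5 * C1 / X := by field_simp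
    have h5 : 3 * C1 / X = 5 * C1 / X / 2 + C1 / X / 2 := by ring
    have h6 : 0 ≤ C1 / X / 2 := by positivity
    linarith
  have e3 : 3 * C1 / X ≤ 1 / 2 := by
    rw [div_le_div_iff₀ X0 (by norm_num)]
    linarith
  have hru : u < r1 * u := lt_mul_of_one_lt_left (by linarith) p3
  have hru2 : r1 * u ≤ 2 * u := mul_le_mul_of_nonneg_right p4 (by linarith)
  have hv0 : 1 / 2 ≤ v := by
    have := (abs_le.1 (e2.trans e3)).1
    linarith
  have hv3 : v ≤ 3 * u := by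
    have := (abs_le.1 (e2.trans e3)).2
    linarith
  have e4 : |v ^ k - (r1 * u) ^ k| ≤ 3 * C1 / X * k * (3 * u) ^ (k - 1) := by
    refine (abs_pow_sub_pow_le v (r1 * u) k).trans ?_
    have h3 : max |v| |r1 * u| ≤ 3 * u := by
      apply max_le
      · rw [abs_of_pos (by linarith)]; exact hv3
      · rw [abs_of_pos (by linarith)]; linarith
    have h4 : max |v| |r1 * u| ^ (k - 1) ≤ (3 * u) ^ (k - 1) :=
      pow_le_pow_left₀ (le_max_of_le_left (abs_nonneg _)) h3 _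
    apply mul_le_mul (mul_le_mul_of_nonneg_right e2 (by positivity)) h4 (by positivity)
      (by positivity)
  have e5 : |(r1 * u) ^ k - (b : ℝ) / a * u ^ k| ≤ C1 / X * u ^ (k - 1) := by
    have h3 : (r1 * u) ^ k - (b : ℝ) / a * u ^ k = -(((b : ℝ) / a - r1 ^ k) * u ^ k) := by
      rw [mul_pow]; ring
    rw [h3, abs_neg, abs_of_pos (mul_pos (by linarith) (by positivity)), hkk]
    have h4 : ((b : ℝ) / a - r1 ^ k) * (u * u ^ (k - 1)) ≤ C1 / X ^ 2 * (X * u ^ (k - 1)) := by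
      apply mul_le_mul p2 (mul_le_mul_of_nonneg_right huX huk0.le) (by positivity) (by positivity)
    refine h4.trans (le_of_eq ?_)
    field_simp
  have e6 : |v ^ k - (b : ℝ) / a * u ^ k| ≤ C1 * E / X * u ^ (k - 1) := by
    have h3 : v ^ k - (b : ℝ) / a * u ^ k
      = (v ^ k - (r1 * u) ^ k) + ((r1 * u) ^ k - (b : ℝ) / a * u ^ k) := by ring
    rw [h3]
    refine (abs_add_le _ _).trans ((add_le_add e4 e5).trans (le_of_eq ?_))
    have h4 : (3 : ℝ) ^ k = 3 * 3 ^ (k - 1) := by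
      rw [← pow_succ']; congr 1; omega
    rw [hE, mul_pow, h4]
    ring
  have e7 : |(a : ℝ) * v ^ k - b * u ^ k| < 1 := by
    have h3 : (a : ℝ) * v ^ k - b * u ^ k = a * (v ^ k - (b : ℝ) / a * u ^ k) := by
      field_simp
    rw [h3, abs_mul, abs_of_pos (by linarith : (0 : ℝ) < a)]
    have h4 : (a : ℝ) * |v ^ k - (b : ℝ) / a * u ^ k| ≤ a * (C1 * E / X * u ^ (k - 1)) :=
      mul_le_mul_of_nonneg_left e6 (by linarith)
    have h5 : a * (C1 * E / X * u ^ (k - 1)) = (C1 * E * a * u ^ (k - 1)) / X := by ring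
    have h6 : C1 * E * a * u ^ (k - 1) < X := by
      have h7 : C1 * E ≤ C := by
        have : 0 ≤ C1 * E := by positivity
        linarith
      have h8 : C1 * E * a * u ^ (k - 1) ≤ C * a * u ^ (k - 1) :=
        mul_le_mul_of_nonneg_right (mul_le_mul_of_nonneg_right h7 (by linarith)) huk0.le
      linarith
    have h9 : (C1 * E * a * u ^ (k - 1)) / X < 1 := by rw [div_lt_one X0]; exact h6
    linarith
  have e8 : (a : ℝ) * v ^ k = b * u ^ k := by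
    have h3 : (a : ℝ) * v ^ k - b * u ^ k
      = (((a : ℤ) * ((y₂ : ℤ) - y₁) ^ k - (b : ℤ) * ((x₂ : ℤ) - x₁) ^ k : ℤ) : ℝ) := by
      rw [hu, hv]; push_cast; ring
    rw [h3] at e7
    have h4 : ((a : ℤ) * ((y₂ : ℤ) - y₁) ^ k - (b : ℤ) * ((x₂ : ℤ) - x₁) ^ k : ℤ) = 0 := by
      rw [← Int.abs_lt_one_iff]
      exact_mod_cast e7
    rw [h4] at h3
    simp at h3
    linarith
  have e9 : (v / u) ^ k = (b : ℝ) / a := by
    rw [div_pow]
    field_simp
    linarith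
  have hvu0 : 0 < v / u := by positivity
  have e10 : r1 < v / u := by
    apply lt_of_pow_lt_pow_left₀ k hvu0.le
    rw [e9]; exact p1
  have e11 : v / u - r1 ≤ C1 / X ^ 2 := by
    have h3 := spc_diff r1 (v / u) p3.le e10.le k (by omega)
    rw [e9] at h3
    linarith
  have e12 : v * s1 - u * t1 = s1 * u * (v / u - r1) := by
    rw [hr1]; field_simp
  have e13 : 0 < v * s1 - u * t1 := by
    rw [e12]
    exact mul_pos (by positivity) (by linarith)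
  have e14 : v * s1 - u * t1 < 1 := by
    rw [e12]
    have h3 : s1 * u * (v / u - r1) ≤ 5 * X * u * (C1 / X ^ 2) := by
      apply mul_le_mul (mul_le_mul_of_nonneg_right hs1u (by linarith)) e11 (by linarith)
        (by positivity)
    have h4 : 5 * X * u * (C1 / X ^ 2) = 5 * C1 * u / X := by field_simp
    have h5 : 5 * C1 * u < X := by
      have h6 : 5 * C1 ≤ (C : ℝ) * a := by
        have : 5 * C1 ≤ (C : ℝ) := by linarith
        exact this.trans (le_mul_of_one_le_right (by positivity) ra)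
      have h7 : 5 * C1 * u ≤ C * a * u ^ (k - 1) :=
        mul_le_mul h6 huk (by linarith) (by positivity)
      linarith
    have h8 : 5 * C1 * u / X < 1 := by rw [div_lt_one X0]; exact h5
    linarith
  have e15 : v * s1 - u * t1 = (((((y₂ : ℤ) - y₁) * (2 * x₁ + k + 1)
      - ((x₂ : ℤ) - x₁) * (2 * y₁ + k + 1)) : ℤ) : ℝ) := by
    rw [hu, hv, hs1, ht1]; push_cast; ring
  rw [e15] at e13 e14
  have h16 : (0 : ℤ) < ((y₂ : ℤ) - y₁) * (2 * x₁ + k + 1) - ((x₂ : ℤ) - x₁) * (2 * y₁ + k + 1) := by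
    exact_mod_cast e13
  have h17 : ((y₂ : ℤ) - y₁) * (2 * x₁ + k + 1) - ((x₂ : ℤ) - x₁) * (2 * y₁ + k + 1) < 1 := by
    exact_mod_cast e14
  omega

end EB
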