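import Pool.Agent.Helper85.EB.Rad
import Pool.Agent.Helper85.EB.Spc

set_option autoImplicit false

namespace EB

open Finset Filter
open scoped Classical

theorem sma_bl_pos (n k : ℕ) : 0 < bl n k := by
  rw [bl]
  apply Finset.prod_pos
  intro i hi
  rw [mem_Icc] at hi
  omega

theorem sma_bl_ge (n k : ℕ) : n ^ k ≤ bl n k := by
  have h : ∏ _i ∈ Icc 1 k, n ≤ bl n k := Finset.prod_le_prod' fun i _ => Nat.le_add_right n i
  simpa using h

theorem sma_bl_le (n k : ℕ) : bl n k ≤ (n + k) ^ k := by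
  have h : bl n k ≤ ∏ _i ∈ Icc 1 k, (n + k) :=
    Finset.prod_le_prod' fun i hi => Nat.add_le_add_left (mem_Icc.1 hi).2 n
  simpa using h

/-- separated sets are small -/
theorem sma_card {X U : ℕ} (hU : 1 ≤ U) (S : Finset ℕ) (hS : S ⊆ Ico X (2 * X))
    (h : ∀ x ∈ S, ∀ y ∈ S, x < y → U ≤ y - x) : (S.card : ℝ) ≤ X / U + 2 := by
  have h1 : S.card ≤ (Icc (X / U) (2 * X / U)).card := by
    apply card_le_card_of_injOn (fun x => x / U)
    · intro x hx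
      have hx2 := mem_Ico.1 (hS hx)
      simp only [coe_Icc, Set.mem_Icc]
      exact ⟨Nat.div_le_div_right hx2.1, Nat.div_le_div_right hx2.2.le⟩
    · intro x hx y hy hxy
      simp only at hxy
      have hx1 := Nat.div_add_mod x U
      have hy1 := Nat.div_add_mod y U
      have hx2 := Nat.mod_lt x (show 0 < U by omega)
      have hy2 := Nat.mod_lt y (show 0 < U by omega)
      rw [hxy] at hx1
      by_contra hne
      rcases lt_or_gt_of_ne hne with hlt | hlt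
      · have := h x hx y hy hlt
        omega
      · have := h y hy x hx hlt
        omega
  rw [Nat.card_Icc] at h1
  have h2 : 2 * X / U ≤ X / U + X / U + 1 := by
    have h3 := Nat.div_add_mod X U
    have h4 := Nat.mod_lt X (show 0 < U by omega)
    have h5 : 2 * X < U * (X / U + X / U + 1 + 1) := by nlinarith
    have h6 : 2 * X / U < X / U + X / U + 1 + 1 := Nat.div_lt_of_lt_mul h5
    omega
  have h7 : S.card ≤ X / U + 2 := by
    generalize 2 * X / U = q2 at h1 h2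
    generalize X / U = q1 at h1 h2 ⊢
    omega
  have h8 : ((X / U : ℕ) : ℝ) ≤ X / U := Nat.cast_div_le
  have h9 : (S.card : ℝ) ≤ ((X / U : ℕ) : ℝ) + 2 := by exact_mod_cast h7
  linarith

/-- the numbers with a non negligible square part in one of the first `K` places -/
theorem sma_bad (X K D : ℕ) (hD : 1 ≤ D) (hX : K ≤ X) :
    (((Ico X (2 * X)).filter (fun n => ∃ i ∈ Icc 1 K, D ^ 3 * rd (n + i) < n + i)).card : ℝ)
      ≤ K * (3 * X / D) := by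
  have hsub : (Ico X (2 * X)).filter (fun n => ∃ i ∈ Icc 1 K, D ^ 3 * rd (n + i) < n + i) ⊆
      (Icc 1 K).biUnion (fun i => (Ico X (2 * X)).filter (fun n => D ^ 3 * rd (n + i) < n + i)) := by
    intro n hn
    rw [mem_filter] at hn
    obtain ⟨h1, i, hi, h2⟩ := hn
    exact mem_biUnion.2 ⟨i, hi, mem_filter.2 ⟨h1, h2⟩⟩
  have h1 : (((Ico X (2 * X)).filter (fun n => ∃ i ∈ Icc 1 K, D ^ 3 * rd (n + i) < n + i)).card : ℝ)
      ≤ ∑ i ∈ Icc 1 K, (((Ico X (2 * X)).filter (fun n => D ^ 3 * rd (n + i) < n + i)).card : ℝ) := by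
    exact_mod_cast (card_le_card hsub).trans card_biUnion_le
  refine h1.trans ?_
  calc ∑ i ∈ Icc 1 K, (((Ico X (2 * X)).filter (fun n => D ^ 3 * rd (n + i) < n + i)).card : ℝ)
      ≤ ∑ _i ∈ Icc 1 K, (3 * X / D : ℝ) := by
        apply Finset.sum_le_sum
        intro i hi
        rw [mem_Icc] at hi
        refine le_trans ?_ (radc X D hD)
        have : ((Ico X (2 * X)).filter (fun n => D ^ 3 * rd (n + i) < n + i)).card ≤
            ((Ico 1 (3 * X)).filter (fun m => D ^ 3 * rd m < m)).card := by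
          apply card_le_card_of_injOn (fun n => n + i)
          · intro n hn
            simp only [coe_filter, Set.mem_ofPred_eq, mem_Ico] at hn ⊢
            exact ⟨⟨by omega, by omega⟩, hn.2⟩
          · intro x _ y _ hxy
            simp only at hxy
            omega
        exact_mod_cast this
    _ = K * (3 * X / D) := by
        rw [Finset.sum_const, Nat.card_Icc, nsmul_eq_mul]
        simp

theorem sma_rad {D K n₁ k₁ : ℕ} (hk : k₁ ≤ K) (hD : 1 ≤ D)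
    (hg : ∀ i ∈ Icc 1 K, n₁ + i ≤ D ^ 3 * rd (n₁ + i)) :
    bl n₁ k₁ ≤ ((D ^ 3) ^ K * K.factorial ^ K) * rd (bl n₁ k₁) := by
  have h1 : bl n₁ k₁ ≤ ∏ i ∈ Icc 1 k₁, (D ^ 3 * rd (n₁ + i)) := by
    rw [bl]
    apply Finset.prod_le_prod'
    intro i hi
    rw [mem_Icc] at hi
    exact hg i (mem_Icc.2 ⟨hi.1, hi.2.trans hk⟩)
  rw [Finset.prod_mul_distrib, Finset.prod_const, Nat.card_Icc] at h1
  have h2 := radbl n₁ k₁
  have h3 : (D ^ 3) ^ (k₁ + 1 - 1) ≤ (D ^ 3) ^ K :=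
    Nat.pow_le_pow_right (Nat.one_le_pow _ _ hD) (by omega)
  have h4 : k₁.factorial ^ k₁ ≤ K.factorial ^ K :=
    (Nat.pow_le_pow_left (Nat.factorial_le hk) k₁).trans
      (Nat.pow_le_pow_right (Nat.factorial_pos K) hk)
  calc bl n₁ k₁ ≤ (D ^ 3) ^ (k₁ + 1 - 1) * ∏ i ∈ Icc 1 k₁, rd (n₁ + i) := h1
    _ ≤ (D ^ 3) ^ K * (rd (bl n₁ k₁) * K.factorial ^ K) :=
        Nat.mul_le_mul h3 (h2.trans (Nat.mul_le_mul_left _ h4))
    _ = ((D ^ 3) ^ K * K.factorial ^ K) * rd (bl n₁ k₁) := by ring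

/-- for a good first block of bounded length: equal lengths and a bounded quotient -/
theorem sma_quot {E K n₁ n₂ k₁ k₂ : ℕ} (hk21 : k₂ ≤ k₁) (hkK : k₁ ≤ K)
    (hKn : K ≤ n₁) (hn : E * 3 ^ K < n₁) (h2n : n₂ ≤ 2 * n₁)
    (hP : (bl n₁ k₁).primeFactors = (bl n₂ k₂).primeFactors)
    (hr : bl n₁ k₁ ≤ E * rd (bl n₁ k₁)) :
    k₂ = k₁ ∧ ∃ a ∈ Icc 1 (3 ^ K * E), ∃ b ∈ Icc 1 (3 ^ K * E), b * bl n₁ k₁ = a * bl n₂ k₁ := by
  have hrr : rd (bl n₁ k₁) = rd (bl n₂ k₂) := by rw [rd, rd, hP]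
  have hRd : rd (bl n₂ k₂) ∣ bl n₂ k₂ := Nat.prod_primeFactors_dvd _
  have hRle : rd (bl n₂ k₂) ≤ bl n₂ k₂ := Nat.le_of_dvd (sma_bl_pos _ _) hRd
  have hb3 : bl n₂ k₂ ≤ (3 * n₁) ^ k₂ :=
    (sma_bl_le n₂ k₂).trans (Nat.pow_le_pow_left (by omega) _)
  have hn0 : 0 < n₁ := by omega
  have h3K : 3 ^ k₂ ≤ 3 ^ K := Nat.pow_le_pow_right (by norm_num) (hk21.trans hkK)
  have hkk : k₂ = k₁ := by
    by_contra hne
    have hlt : k₂ + 1 ≤ k₁ := by omega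
    have h1 : n₁ ^ k₂ * n₁ ≤ n₁ ^ k₂ * (E * 3 ^ K) := by
      calc n₁ ^ k₂ * n₁ = n₁ ^ (k₂ + 1) := by rw [pow_succ]
        _ ≤ n₁ ^ k₁ := Nat.pow_le_pow_right hn0 hlt
        _ ≤ bl n₁ k₁ := sma_bl_ge _ _
        _ ≤ E * rd (bl n₁ k₁) := hr
        _ ≤ E * (3 * n₁) ^ k₂ := by rw [hrr]; exact Nat.mul_le_mul_left _ (hRle.trans hb3)
        _ = n₁ ^ k₂ * (E * 3 ^ k₂) := by rw [mul_pow]; ring
        _ ≤ n₁ ^ k₂ * (E * 3 ^ K) := Nat.mul_le_mul_left _ (Nat.mul_le_mul_left _ h3K)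
    have h2 := Nat.le_of_mul_le_mul_left h1 (Nat.pow_pos hn0)
    omega
  subst hkk
  refine ⟨rfl, ?_⟩
  have hRd1 : rd (bl n₁ k₂) ∣ bl n₁ k₂ := Nat.prod_primeFactors_dvd _
  obtain ⟨a, ha⟩ := hRd1
  obtain ⟨b, hb⟩ := hRd
  rw [← hrr] at hb
  set R := rd (bl n₁ k₂) with hR
  have hR0 : 0 < R := by
    rcases Nat.eq_zero_or_pos R with h | h
    · have := sma_bl_pos n₁ k₂
      rw [ha, h, zero_mul] at this
      exact absurd this (lt_irrefl 0)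
    · exact h
  have ha0 : a ≠ 0 := by
    rintro rfl
    have := sma_bl_pos n₁ k₂
    rw [ha, mul_zero] at this
    exact absurd this (lt_irrefl 0)
  have hb0 : b ≠ 0 := by
    rintro rfl
    have := sma_bl_pos n₂ k₂
    rw [hb, mul_zero] at this
    exact absurd this (lt_irrefl 0)
  have haE : a ≤ E := by
    have : R * a ≤ R * E := by rw [← ha, mul_comm R E]; exact hr
    exact Nat.le_of_mul_le_mul_left this hR0
  have hbE : b ≤ 3 ^ K * E := by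
    have : R * b ≤ R * (3 ^ K * E) := by
      calc R * b = bl n₂ k₂ := hb.symm
        _ ≤ (3 * n₁) ^ k₂ := hb3
        _ = 3 ^ k₂ * n₁ ^ k₂ := by rw [mul_pow]
        _ ≤ 3 ^ K * (E * R) := Nat.mul_le_mul h3K ((sma_bl_ge _ _).trans hr)
        _ = R * (3 ^ K * E) := by ring
    exact Nat.le_of_mul_le_mul_left this hR0
  have h3 : E ≤ 3 ^ K * E := Nat.le_mul_of_pos_left _ (Nat.pow_pos (by norm_num))
  refine ⟨a, mem_Icc.2 ⟨by omega, by omega⟩, b, mem_Icc.2 ⟨by omega, hbE⟩, ?_⟩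
  rw [ha, hb]
  ring

theorem small (K : ℕ) (η : ℝ) (hη : 0 < η) : ∃ X₀ : ℕ, ∀ X : ℕ, X₀ ≤ X →
    (((Ico X (2 * X)).filter (fun n₁ => ∃ k₁ k₂ n₂ : ℕ, 2 ≤ k₂ ∧ k₂ ≤ k₁ ∧ k₁ ≤ K ∧
      n₁ + k₁ ≤ n₂ ∧ n₂ ≤ 2 * n₁ ∧
      (bl n₁ k₁).primeFactors = (bl n₂ k₂).primeFactors)).card : ℝ) ≤ η * X := by
  choose! Cf hCf using spacing
  obtain ⟨D, hD⟩ : ∃ D : ℕ, 1 ≤ D ∧ 6 * K / η ≤ D :=
    ⟨⌈6 * K / η⌉₊ + 1, by omega, by
      push_cast
      linarith [Nat.le_ceil (6 * (K : ℝ) / η)]⟩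
  set E : ℕ := (D ^ 3) ^ K * K.factorial ^ K with hEdef
  have hE : 1 ≤ E := Nat.succ_le_of_lt
    (Nat.mul_pos (Nat.pow_pos (Nat.pow_pos (by omega))) (Nat.pow_pos (Nat.factorial_pos K)))
  set A : ℕ := 3 ^ K * E with hAdef
  set N : ℕ := K * (A * A) with hNdef
  obtain ⟨U, hU⟩ : ∃ U : ℕ, 1 ≤ U ∧ 4 * N / η ≤ U :=
    ⟨⌈4 * N / η⌉₊ + 1, by omega, by
      push_cast
      linarith [Nat.le_ceil (4 * (N : ℝ) / η)]⟩
  set Cm : ℕ := ∑ k ∈ Icc 2 K, Cf k with hCm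
  refine ⟨K + 1 + (E * 3 ^ K + 1) + (Cm * A * U ^ K + 1) + Cm + ⌈8 * N / η⌉₊, fun X hX => ?_⟩
  have hX1 : K ≤ X := by omega
  have hX2 : E * 3 ^ K < X := by omega
  have hX3 : Cm * A * U ^ K < X := by omega
  have hX4 : Cm ≤ X := by omega
  have hX5 : 8 * N / η ≤ X := by
    refine (Nat.le_ceil _).trans ?_
    exact_mod_cast (show ⌈8 * (N : ℝ) / η⌉₊ ≤ X by omega)
  set T : Finset (ℕ × ℕ × ℕ) := Icc 2 K ×ˢ (Icc 1 A ×ˢ Icc 1 A) with hT
  set Sf : ℕ × ℕ × ℕ → Finset ℕ := fun q => (Ico X (2 * X)).filter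
    (fun x => ∃ y, x < y ∧ y ≤ 2 * x ∧ q.2.2 * bl x q.1 = q.2.1 * bl y q.1) with hSf
  set B : Finset ℕ := (Ico X (2 * X)).filter
    (fun n => ∃ i ∈ Icc 1 K, D ^ 3 * rd (n + i) < n + i) with hB
  have hsub : (Ico X (2 * X)).filter (fun n₁ => ∃ k₁ k₂ n₂ : ℕ, 2 ≤ k₂ ∧ k₂ ≤ k₁ ∧ k₁ ≤ K ∧
      n₁ + k₁ ≤ n₂ ∧ n₂ ≤ 2 * n₁ ∧
      (bl n₁ k₁).primeFactors = (bl n₂ k₂).primeFactors) ⊆ B ∪ T.biUnion Sf := by
    intro n hn
    rw [mem_filter] at hn
    obtain ⟨hnI, k₁, k₂, n₂, h2, h21, h1K, h12, h22, hP⟩ := hn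
    have hnX := mem_Ico.1 hnI
    rw [mem_union]
    by_cases hbad : ∃ i ∈ Icc 1 K, D ^ 3 * rd (n + i) < n + i
    · left
      exact mem_filter.2 ⟨hnI, hbad⟩
    · right
      push Not at hbad
      obtain ⟨hkk, a, ha, b, hb, hab⟩ := sma_quot h21 h1K (hX1.trans hnX.1)
        (lt_of_lt_of_le hX2 hnX.1) h22 hP (sma_rad h1K hD.1 hbad)
      rw [mem_biUnion]
      refine ⟨(k₁, a, b), ?_, ?_⟩
      · rw [hT, mem_product, mem_product]
        exact ⟨mem_Icc.2 ⟨by omega, h1K⟩, ha, hb⟩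
      · exact mem_filter.2 ⟨hnI, n₂, by omega, h22, hab⟩
  have hcardS : ∀ q ∈ T, ((Sf q).card : ℝ) ≤ X / U + 2 := by
    intro q hq
    rw [hT, mem_product, mem_product] at hq
    obtain ⟨hq1, hq2, hq3⟩ := hq
    rw [mem_Icc] at hq1 hq2 hq3
    apply sma_card hU.1 _ (filter_subset _ _)
    intro x hx y hy hxy
    obtain ⟨hxI, x', hx1, hx2, hx3⟩ := mem_filter.1 hx
    obtain ⟨hyI, y', hy1, hy2, hy3⟩ := mem_filter.1 hy
    have hxX := mem_Ico.1 hxI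
    have hyX := mem_Ico.1 hyI
    by_contra hcon
    push Not at hcon
    have hCk : Cf q.1 ≤ Cm :=
      Finset.single_le_sum (f := fun k => Cf k) (fun _ _ => Nat.zero_le _) (mem_Icc.2 hq1)
    have h1 := hCf q.1 hq1.1 X q.2.1 q.2.2 x x' y y' (hCk.trans hX4) hq2.1 hq3.1 hxX.1 hxy hyX.2
      hx1 hx2 hy1 hy2 hx3 hy3
    have h2 : (y - x) ^ (q.1 - 1) ≤ U ^ K :=
      (Nat.pow_le_pow_left hcon.le _).trans (Nat.pow_le_pow_right hU.1 (by omega))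
    have h3 : Cf q.1 * q.2.1 * (y - x) ^ (q.1 - 1) ≤ Cm * A * U ^ K :=
      Nat.mul_le_mul (Nat.mul_le_mul hCk hq2.2) h2
    omega
  have hTc : (T.card : ℝ) ≤ N := by
    have : T.card ≤ N := by
      rw [hT, card_product, card_product, Nat.card_Icc, Nat.card_Icc, hNdef]
      exact Nat.mul_le_mul (by omega) (Nat.mul_le_mul (by omega) (by omega))
    exact_mod_cast this
  have hmain : (((Ico X (2 * X)).filter (fun n₁ => ∃ k₁ k₂ n₂ : ℕ, 2 ≤ k₂ ∧ k₂ ≤ k₁ ∧ k₁ ≤ K ∧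
      n₁ + k₁ ≤ n₂ ∧ n₂ ≤ 2 * n₁ ∧
      (bl n₁ k₁).primeFactors = (bl n₂ k₂).primeFactors)).card : ℝ) ≤
      (B.card : ℝ) + ∑ q ∈ T, ((Sf q).card : ℝ) := by
    have := (card_le_card hsub).trans ((card_union_le _ _).trans
      (Nat.add_le_add_left card_biUnion_le _))
    exact_mod_cast this
  have hB2 : (B.card : ℝ) ≤ η / 2 * X := by
    refine (sma_bad X K D hD.1 hX1).trans ?_
    have hD0 : (0 : ℝ) < D := by exact_mod_cast hD.1
    have h1 : (6 * K : ℝ) ≤ η * D := by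
      have := hD.2
      rw [div_le_iff₀ hη] at this
      linarith
    rw [← mul_div_assoc, div_le_iff₀ hD0]
    have hX0 : (0 : ℝ) ≤ X := Nat.cast_nonneg X
    nlinarith
  have hS2 : ∑ q ∈ T, ((Sf q).card : ℝ) ≤ η / 2 * X := by
    have h1 : ∑ q ∈ T, ((Sf q).card : ℝ) ≤ N * (X / U + 2) := by
      calc ∑ q ∈ T, ((Sf q).card : ℝ) ≤ ∑ _q ∈ T, (X / U + 2 : ℝ) := Finset.sum_le_sum hcardS
        _ = T.card * (X / U + 2) := by rw [Finset.sum_const, nsmul_eq_mul]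
        _ ≤ N * (X / U + 2) := mul_le_mul_of_nonneg_right hTc (by positivity)
    have hU0 : (0 : ℝ) < U := by exact_mod_cast hU.1
    have h2 : (4 * N : ℝ) ≤ η * U := by
      have := hU.2
      rw [div_le_iff₀ hη] at this
      linarith
    have h3 : (8 * N : ℝ) ≤ η * X := by
      have := hX5
      rw [div_le_iff₀ hη] at this
      linarith
    have h4 : (N : ℝ) * (X / U) ≤ η / 4 * X := by
      rw [← mul_div_assoc, div_le_iff₀ hU0]
      have hX0 : (0 : ℝ) ≤ X := Nat.cast_nonneg X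
      nlinarith
    have h5 : (N : ℝ) * (X / U + 2) = N * (X / U) + 2 * N := by ring
    linarith
  linarith

end EB
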