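import Pool.Agent.Helper85.EB.Mid
import Pool.Agent.Helper85.EB.Sma
import Pool.Agent.Helper85.EB.Dens
import Pool.Agent.Helper48.ESU.Fin

/-! Row FIN: the exceptional first blocks have density zero. -/

set_option autoImplicit false

namespace EB

open Finset Filter
open scoped Classical

/-- the exceptional first blocks in `[X, 2X)` -/
theorem finA (ε η : ℝ) (hε : 0 < ε) (hη : 0 < η) : ∃ X₀ : ℕ, ∀ X : ℕ, X₀ ≤ X →
    (((Ico X (2 * X)).filter (fun n₁ : ℕ => ∃ k₁ k₂ n₂ : ℕ, 2 ≤ k₂ ∧ k₂ ≤ k₁ ∧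
      (k₁ : ℝ) ≤ (n₁ : ℝ) ^ (1 - ε) ∧ n₁ + k₁ ≤ n₂ ∧ n₂ ≤ 2 * n₁ ∧
      (bl n₁ k₁).primeFactors = (bl n₂ k₂).primeFactors)).card : ℝ) ≤ η * X := by
  obtain ⟨K₀, κ, X₁, hκ, h1⟩ := mid (η / 2) (by positivity)
  obtain ⟨X₂, h2⟩ := small K₀ (η / 2) (by positivity)
  obtain ⟨N₀, h3⟩ := ESU.no_equal_support (min ε (κ / 2)) 2 (lt_min hε (by positivity))
    (by norm_num)
  refine ⟨max (max X₁ X₂) (max N₀ 2), fun X hX => ?_⟩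
  have hX1 : X₁ ≤ X := le_trans (le_trans (le_max_left _ _) (le_max_left _ _)) hX
  have hX2 : X₂ ≤ X := le_trans (le_trans (le_max_right _ _) (le_max_left _ _)) hX
  have hX3 : N₀ ≤ X := le_trans (le_trans (le_max_left _ _) (le_max_right _ _)) hX
  have hX4 : 2 ≤ X := le_trans (le_trans (le_max_right _ _) (le_max_right _ _)) hX
  have hXr : (2 : ℝ) ≤ X := by exact_mod_cast hX4
  set A := (Ico X (2 * X)).filter (fun n₁ : ℕ => ∃ k₁ k₂ n₂ : ℕ, K₀ ≤ k₁ ∧ (k₁ : ℝ) ≤ (X : ℝ) ^ κ ∧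
      k₂ ≤ k₁ ∧ n₁ + k₁ ≤ n₂ ∧ n₂ ≤ 2 * n₁ ∧
      (bl n₁ k₁).primeFactors ⊆ (bl n₂ k₂).primeFactors) with hA
  set B := (Ico X (2 * X)).filter (fun n₁ : ℕ => ∃ k₁ k₂ n₂ : ℕ, 2 ≤ k₂ ∧ k₂ ≤ k₁ ∧ k₁ ≤ K₀ ∧
      n₁ + k₁ ≤ n₂ ∧ n₂ ≤ 2 * n₁ ∧
      (bl n₁ k₁).primeFactors = (bl n₂ k₂).primeFactors) with hB
  have hAc : (A.card : ℝ) ≤ η / 2 * X := h1 X hX1
  have hBc : (B.card : ℝ) ≤ η / 2 * X := h2 X hX2
  have hsub : (Ico X (2 * X)).filter (fun n₁ : ℕ => ∃ k₁ k₂ n₂ : ℕ, 2 ≤ k₂ ∧ k₂ ≤ k₁ ∧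
      (k₁ : ℝ) ≤ (n₁ : ℝ) ^ (1 - ε) ∧ n₁ + k₁ ≤ n₂ ∧ n₂ ≤ 2 * n₁ ∧
      (bl n₁ k₁).primeFactors = (bl n₂ k₂).primeFactors) ⊆ A ∪ B := by
    intro n₁ hn
    rw [Finset.mem_filter] at hn
    obtain ⟨hn1, k₁, k₂, n₂, hk2, hk12, hk1, hn12, hn2, hP⟩ := hn
    rw [Finset.mem_union]
    rcases le_total k₁ K₀ with hc | hc
    · right
      rw [hB, Finset.mem_filter]
      exact ⟨hn1, k₁, k₂, n₂, hk2, hk12, hc, hn12, hn2, hP⟩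
    · by_cases hd : (k₁ : ℝ) ≤ (X : ℝ) ^ κ
      · left
        rw [hA, Finset.mem_filter]
        exact ⟨hn1, k₁, k₂, n₂, hc, hd, hk12, hn12, hn2, hP.subset⟩
      · exfalso
        push Not at hd
        rw [Finset.mem_Ico] at hn1
        have hn1r : (X : ℝ) ≤ n₁ := by exact_mod_cast hn1.1
        have hn1p : (1 : ℝ) ≤ n₁ := by linarith
        have hn2r : (n₁ : ℝ) ≤ 2 * X := by exact_mod_cast hn1.2.le
        have hlow : (n₁ : ℝ) ^ (min ε (κ / 2)) ≤ k₁ := by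
          have e1 : (n₁ : ℝ) ^ (min ε (κ / 2)) ≤ (n₁ : ℝ) ^ (κ / 2) :=
            Real.rpow_le_rpow_of_exponent_le hn1p (min_le_right _ _)
          have e2 : (n₁ : ℝ) ^ (κ / 2) ≤ ((X : ℝ) ^ (2 : ℝ)) ^ (κ / 2) := by
            apply Real.rpow_le_rpow (by linarith) _ (by positivity)
            rw [Real.rpow_two]
            nlinarith
          have e3 : ((X : ℝ) ^ (2 : ℝ)) ^ (κ / 2) = (X : ℝ) ^ κ := by
            rw [← Real.rpow_mul (by linarith)]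
            congr 1
            ring
          linarith
        have hup : (k₁ : ℝ) ≤ (n₁ : ℝ) ^ (1 - min ε (κ / 2)) :=
          hk1.trans (Real.rpow_le_rpow_of_exponent_le hn1p (by
            have := min_le_left ε (κ / 2)
            linarith))
        have hB2 : (n₂ : ℝ) ≤ (n₁ : ℝ) ^ (2 : ℝ) := by
          rw [Real.rpow_two]
          have e1 : (n₂ : ℝ) ≤ 2 * n₁ := by exact_mod_cast hn2
          nlinarith
        exact h3 n₁ (hX3.trans hn1.1) k₁ k₂ n₂ hk12 hlow hup hn12 hB2 hP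
  have hcard := (Finset.card_le_card hsub).trans (Finset.card_union_le _ _)
  have hcr : (((Ico X (2 * X)).filter (fun n₁ : ℕ => ∃ k₁ k₂ n₂ : ℕ, 2 ≤ k₂ ∧ k₂ ≤ k₁ ∧
      (k₁ : ℝ) ≤ (n₁ : ℝ) ^ (1 - ε) ∧ n₁ + k₁ ≤ n₂ ∧ n₂ ≤ 2 * n₁ ∧
      (bl n₁ k₁).primeFactors = (bl n₂ k₂).primeFactors)).card : ℝ) ≤ A.card + B.card := by
    exact_mod_cast hcard
  linarith

end EB
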