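import Pool.Agent.Helper85.EB.Defs

/-! Row VAR: the second moment of the mass of a block. -/

set_option autoImplicit false

namespace EB

open Finset Filter
open scoped Classical

theorem var_cnt (X d v : ℕ) (hd : 0 < d) :
    (X : ℝ) / d - 1 ≤ (((Ico X (2 * X)).filter (fun n => n ≡ v [MOD d])).card : ℝ) ∧
    (((Ico X (2 * X)).filter (fun n => n ≡ v [MOD d])).card : ℝ) ≤ (X : ℝ) / d + 1 := by
  have h0 := Nat.Ico_filter_modEq_card X (2 * X) hd v
  have hdq : (0 : ℚ) < d := by exact_mod_cast hd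
  have hdr : (0 : ℝ) < d := by exact_mod_cast hd
  set c := ((Ico X (2 * X)).filter (fun n => n ≡ v [MOD d])).card with hc
  have h1 : ((⌈(((2 * X : ℕ) : ℚ) - v) / d⌉ : ℤ) : ℚ) < (((2 * X : ℕ) : ℚ) - v) / d + 1 :=
    Int.ceil_lt_add_one _
  have h2 : (((2 * X : ℕ) : ℚ) - v) / d ≤ ((⌈(((2 * X : ℕ) : ℚ) - v) / d⌉ : ℤ) : ℚ) :=
    Int.le_ceil _
  have h3 : ((⌈((X : ℚ) - v) / d⌉ : ℤ) : ℚ) < ((X : ℚ) - v) / d + 1 := Int.ceil_lt_add_one _
  have h4 : ((X : ℚ) - v) / d ≤ ((⌈((X : ℚ) - v) / d⌉ : ℤ) : ℚ) := Int.le_ceil _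
  have h5 : (((2 * X : ℕ) : ℚ) - v) / d = ((X : ℚ) - v) / d + (X : ℚ) / d := by
    push_cast
    field_simp
    ring
  have h6 : (0 : ℚ) ≤ (X : ℚ) / d := by positivity
  have key : (X : ℚ) / d - 1 ≤ (c : ℚ) ∧ (c : ℚ) ≤ (X : ℚ) / d + 1 := by
    have h7 : (c : ℤ) = max (⌈(((2 * X : ℕ) : ℚ) - v) / d⌉ - ⌈((X : ℚ) - v) / d⌉) 0 := h0
    have h8 : ((c : ℤ) : ℚ) =
        max (((⌈(((2 * X : ℕ) : ℚ) - v) / d⌉ : ℤ) : ℚ) - ((⌈((X : ℚ) - v) / d⌉ : ℤ) : ℚ)) 0 := by
      rw [h7]
      push_cast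
      rfl
    have h9 : ((c : ℤ) : ℚ) = (c : ℚ) := by norm_cast
    rw [← h9, h8]
    constructor
    · refine le_trans ?_ (le_max_left _ _)
      linarith
    · exact max_le (by linarith) (by linarith)
  constructor
  · have := key.1
    have h10 : (((X : ℚ) / d - 1 : ℚ) : ℝ) ≤ ((c : ℚ) : ℝ) := by exact_mod_cast this
    push_cast at h10
    exact h10
  · have := key.2
    have h10 : ((c : ℚ) : ℝ) ≤ (((X : ℚ) / d + 1 : ℚ) : ℝ) := by exact_mod_cast this
    push_cast at h10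
    exact h10

/-- number of `n` with `p ∣ n + i`, lower bound -/
theorem var_lo (X p i : ℕ) (hp : 0 < p) :
    (X : ℝ) / p - 1 ≤ (((Ico X (2 * X)).filter (fun n => p ∣ n + i)).card : ℝ) := by
  have h := (var_cnt X p ((p - 1) * i) hp).1
  refine h.trans ?_
  have h2 : ((Ico X (2 * X)).filter (fun n => n ≡ (p - 1) * i [MOD p])).card
      ≤ ((Ico X (2 * X)).filter (fun n => p ∣ n + i)).card := by
    apply Finset.card_le_card
    intro n hn
    rw [Finset.mem_filter] at hn ⊢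
    refine ⟨hn.1, ?_⟩
    have h3 : n + i ≡ (p - 1) * i + i [MOD p] := Nat.ModEq.add_right i hn.2
    have h4 : (p - 1) * i + i = p * i := by
      obtain ⟨q, rfl⟩ : ∃ q, p = q + 1 := ⟨p - 1, by omega⟩
      simp
      ring
    rw [h4] at h3
    have h5 : n + i ≡ 0 [MOD p] := h3.trans (Nat.modEq_zero_iff_dvd.mpr (Dvd.intro _ rfl))
    exact Nat.modEq_zero_iff_dvd.mp h5
  exact_mod_cast h2

/-- a set of pairwise congruent numbers -/
theorem var_up (X d : ℕ) (hd : 0 < d) (T : Finset ℕ) (hT : T ⊆ Ico X (2 * X))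
    (h : ∀ a ∈ T, ∀ b ∈ T, a ≡ b [MOD d]) : (T.card : ℝ) ≤ (X : ℝ) / d + 1 := by
  rcases T.eq_empty_or_nonempty with h0 | ⟨v, hv⟩
  · rw [h0]
    simp
    positivity
  · refine le_trans ?_ (var_cnt X d v hd).2
    have h1 : T ⊆ (Ico X (2 * X)).filter (fun n => n ≡ v [MOD d]) := fun a ha =>
      Finset.mem_filter.mpr ⟨hT ha, h a ha v hv⟩
    exact_mod_cast Finset.card_le_card h1

/-- the pair count -/
theorem var_pair (X p q i j k : ℕ) (hp : p.Prime) (hq : q.Prime) (hi : i ∈ Icc 1 k)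
    (hj : j ∈ Icc 1 k) (hpk : k < p) :
    (((Ico X (2 * X)).filter (fun n => p ∣ n + i ∧ q ∣ n + j)).card : ℝ) ≤
      ((X : ℝ) / (p * q) + 1) + if (i, p) = (j, q) then (X : ℝ) / p + 1 else 0 := by
  rw [Finset.mem_Icc] at hi hj
  by_cases hpq : p = q
  · subst hpq
    by_cases hij : i = j
    · subst hij
      rw [if_pos rfl]
      have h1 := var_up X p hp.pos ((Ico X (2 * X)).filter (fun n => p ∣ n + i ∧ p ∣ n + i))
        (Finset.filter_subset _ _) (by
          intro a ha b hb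
          rw [Finset.mem_filter] at ha hb
          have h2 : a + i ≡ b + i [MOD p] :=
            (Nat.modEq_zero_iff_dvd.mpr ha.2.1).trans (Nat.modEq_zero_iff_dvd.mpr hb.2.1).symm
          exact Nat.ModEq.add_right_cancel' i h2)
      have h3 : (0 : ℝ) ≤ (X : ℝ) / (p * p) + 1 := by positivity
      linarith
    · have h1 : (Ico X (2 * X)).filter (fun n => p ∣ n + i ∧ p ∣ n + j) = ∅ := by
        apply Finset.filter_false_of_mem
        rintro n - ⟨h2, h3⟩
        apply hij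
        rcases le_total i j with h4 | h4
        · have h5 : p ∣ (n + j) - (n + i) := Nat.dvd_sub h3 h2
          have h6 : (n + j) - (n + i) = j - i := by omega
          rw [h6] at h5
          have h7 := Nat.eq_zero_of_dvd_of_lt h5 (by omega)
          omega
        · have h5 : p ∣ (n + i) - (n + j) := Nat.dvd_sub h2 h3
          have h6 : (n + i) - (n + j) = i - j := by omega
          rw [h6] at h5
          have h7 := Nat.eq_zero_of_dvd_of_lt h5 (by omega)
          omega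
      rw [h1, if_neg (by
        intro h
        exact hij (Prod.mk.inj h).1)]
      simp
      positivity
  · rw [if_neg (by
      intro h
      exact hpq (Prod.mk.inj h).2), add_zero]
    have hc : Nat.Coprime p q := (Nat.coprime_primes hp hq).mpr hpq
    have h1 := var_up X (p * q) (Nat.mul_pos hp.pos hq.pos)
      ((Ico X (2 * X)).filter (fun n => p ∣ n + i ∧ q ∣ n + j))
      (Finset.filter_subset _ _) (by
        intro a ha b hb
        rw [Finset.mem_filter] at ha hb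
        rw [← Nat.modEq_and_modEq_iff_modEq_mul hc]
        constructor
        · have h2 : a + i ≡ b + i [MOD p] :=
            (Nat.modEq_zero_iff_dvd.mpr ha.2.1).trans (Nat.modEq_zero_iff_dvd.mpr hb.2.1).symm
          exact Nat.ModEq.add_right_cancel' i h2
        · have h2 : a + j ≡ b + j [MOD q] :=
            (Nat.modEq_zero_iff_dvd.mpr ha.2.2).trans (Nat.modEq_zero_iff_dvd.mpr hb.2.2).symm
          exact Nat.ModEq.add_right_cancel' j h2)
    push_cast at h1
    exact h1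

theorem var_main (X y k : ℕ) (hk : 1 ≤ k) (hky : k ≤ y) :
    ∑ n ∈ Ico X (2 * X), (SS y k n - k * ∑ p ∈ (Ioc k y).filter Nat.Prime, Real.log p / p) ^ 2
      ≤ k ^ 2 * (∑ p ∈ (Ioc k y).filter Nat.Prime, Real.log p) ^ 2
        + 2 * k ^ 2 * (∑ p ∈ (Ioc k y).filter Nat.Prime, Real.log p / p)
            * (∑ p ∈ (Ioc k y).filter Nat.Prime, Real.log p)
        + k * ∑ p ∈ (Ioc k y).filter Nat.Prime, (Real.log p) ^ 2 * (X / p + 1) := by
  set P := (Ioc k y).filter Nat.Prime with hP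
  set μ := ∑ p ∈ P, Real.log p / p with hμ
  set θ := ∑ p ∈ P, Real.log p with hθ
  set I := Ico X (2 * X) with hI
  have hcardI : I.card = X := by
    rw [hI, Nat.card_Ico]
    omega
  have hprime : ∀ p ∈ P, p.Prime := fun p hp => (Finset.mem_filter.mp hp).2
  have hgt : ∀ p ∈ P, k < p := fun p hp => (Finset.mem_Ioc.mp (Finset.mem_filter.mp hp).1).1
  have hlog : ∀ p ∈ P, 0 ≤ Real.log p := fun p hp =>
    Real.log_nonneg (by exact_mod_cast (hprime p hp).one_le)
  have hμ0 : 0 ≤ μ := Finset.sum_nonneg fun p hp => div_nonneg (hlog p hp) (Nat.cast_nonneg _)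
  set Q := (Icc 1 k) ×ˢ P with hQ
  have hSS : ∀ n, SS y k n = ∑ a ∈ Q, if a.2 ∣ n + a.1 then Real.log a.2 else 0 := by
    intro n
    rw [hQ, Finset.sum_product]
    rfl
  -- first moment
  have hfirst : (k : ℝ) * (X * μ - θ) ≤ ∑ n ∈ I, SS y k n := by
    have h1 : ∑ n ∈ I, SS y k n
        = ∑ i ∈ Icc 1 k, ∑ p ∈ P, Real.log p * ((I.filter (fun n => p ∣ n + i)).card : ℝ) := by
      unfold SS
      rw [Finset.sum_comm]
      refine Finset.sum_congr rfl fun i _ => ?_
      rw [Finset.sum_comm]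
      refine Finset.sum_congr rfl fun p _ => ?_
      rw [← Finset.sum_filter, Finset.sum_const, nsmul_eq_mul, mul_comm]
    rw [h1]
    have h2 : ∀ i ∈ Icc 1 k, X * μ - θ ≤
        ∑ p ∈ P, Real.log p * ((I.filter (fun n => p ∣ n + i)).card : ℝ) := by
      intro i _
      rw [hμ, hθ, Finset.mul_sum, ← Finset.sum_sub_distrib]
      refine Finset.sum_le_sum fun p hp => ?_
      have h3 := mul_le_mul_of_nonneg_left (var_lo X p i (hprime p hp).pos) (hlog p hp)
      refine le_trans (le_of_eq ?_) h3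
      ring
    have h4 := Finset.sum_le_sum h2
    rw [Finset.sum_const, Nat.card_Icc, nsmul_eq_mul] at h4
    simpa using h4
  -- second moment
  have hsecond : ∑ n ∈ I, SS y k n ^ 2 ≤ (k : ℝ) ^ 2 * (X * μ ^ 2 + θ ^ 2)
      + k * ∑ p ∈ P, (Real.log p) ^ 2 * (X / p + 1) := by
    have h1 : ∑ n ∈ I, SS y k n ^ 2 = ∑ a ∈ Q, ∑ b ∈ Q, Real.log a.2 * Real.log b.2 *
        ((I.filter (fun n => a.2 ∣ n + a.1 ∧ b.2 ∣ n + b.1)).card : ℝ) := by
      have h2 : ∀ n ∈ I, SS y k n ^ 2 = ∑ a ∈ Q, ∑ b ∈ Q,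
          if a.2 ∣ n + a.1 ∧ b.2 ∣ n + b.1 then Real.log a.2 * Real.log b.2 else 0 := by
        intro n _
        rw [hSS, sq, Finset.sum_mul_sum]
        refine Finset.sum_congr rfl fun a _ => Finset.sum_congr rfl fun b _ => ?_
        by_cases h3 : a.2 ∣ n + a.1 <;> by_cases h4 : b.2 ∣ n + b.1 <;> simp [h3, h4]
      rw [Finset.sum_congr rfl h2, Finset.sum_comm]
      refine Finset.sum_congr rfl fun a _ => ?_
      rw [Finset.sum_comm]
      refine Finset.sum_congr rfl fun b _ => ?_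
      rw [← Finset.sum_filter, Finset.sum_const, nsmul_eq_mul, mul_comm]
    rw [h1]
    have h5 : ∀ a ∈ Q, ∀ b ∈ Q, Real.log a.2 * Real.log b.2 *
        ((I.filter (fun n => a.2 ∣ n + a.1 ∧ b.2 ∣ n + b.1)).card : ℝ) ≤
        (X * ((Real.log a.2 / a.2) * (Real.log b.2 / b.2)) + Real.log a.2 * Real.log b.2)
        + if a = b then (Real.log a.2) ^ 2 * ((X : ℝ) / a.2 + 1) else 0 := by
      intro a ha b hb
      rw [hQ, Finset.mem_product] at ha hb
      have h6 := var_pair X a.2 b.2 a.1 b.1 k (hprime _ ha.2) (hprime _ hb.2) ha.1 hb.1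
        (hgt _ ha.2)
      have h7 : 0 ≤ Real.log a.2 * Real.log b.2 := mul_nonneg (hlog _ ha.2) (hlog _ hb.2)
      have h8 := mul_le_mul_of_nonneg_left h6 h7
      refine h8.trans (le_of_eq ?_)
      have ha0 : (a.2 : ℝ) ≠ 0 := by exact_mod_cast (hprime _ ha.2).ne_zero
      have hb0 : (b.2 : ℝ) ≠ 0 := by exact_mod_cast (hprime _ hb.2).ne_zero
      by_cases hab : a = b
      · subst hab
        rw [if_pos rfl, if_pos rfl]
        field_simp
      · rw [if_neg hab, if_neg (by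
          intro h
          exact hab (Prod.ext (Prod.mk.inj h).1 (Prod.mk.inj h).2))]
        field_simp
        ring
    refine (Finset.sum_le_sum fun a ha => Finset.sum_le_sum fun b hb => h5 a ha b hb).trans ?_
    have hQ1 : ∀ f : ℕ → ℝ, ∑ a ∈ Q, f a.2 = k * ∑ p ∈ P, f p := by
      intro f
      rw [hQ, Finset.sum_product]
      simp
    have h9 : ∑ a ∈ Q, ∑ b ∈ Q,
        ((X * ((Real.log a.2 / a.2) * (Real.log b.2 / b.2)) + Real.log a.2 * Real.log b.2)
        + if a = b then (Real.log a.2) ^ 2 * ((X : ℝ) / a.2 + 1) else 0)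
        = X * ((∑ a ∈ Q, Real.log a.2 / a.2) * (∑ b ∈ Q, Real.log b.2 / b.2))
          + (∑ a ∈ Q, Real.log a.2) * (∑ b ∈ Q, Real.log b.2)
          + ∑ a ∈ Q, (Real.log a.2) ^ 2 * ((X : ℝ) / a.2 + 1) := by
      simp only [Finset.sum_add_distrib]
      congr 1
      · congr 1
        · rw [Finset.sum_mul_sum, Finset.mul_sum]
          refine Finset.sum_congr rfl fun a _ => ?_
          rw [Finset.mul_sum]
        · rw [Finset.sum_mul_sum]
      · refine Finset.sum_congr rfl fun a ha => ?_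
        rw [Finset.sum_ite_eq, if_pos ha]
    rw [h9, hQ1 (fun p => Real.log p / p), hQ1 (fun p => Real.log p),
      hQ1 (fun p => (Real.log p) ^ 2 * ((X : ℝ) / p + 1)), ← hμ, ← hθ]
    refine le_of_eq ?_
    ring
  -- combination
  have hexp : ∑ n ∈ I, (SS y k n - k * μ) ^ 2
      = ∑ n ∈ I, SS y k n ^ 2 - 2 * k * μ * ∑ n ∈ I, SS y k n + X * (k * μ) ^ 2 := by
    have h1 : ∀ n ∈ I, (SS y k n - k * μ) ^ 2
        = SS y k n ^ 2 - 2 * k * μ * SS y k n + (k * μ) ^ 2 := fun n _ => by ring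
    rw [Finset.sum_congr rfl h1, Finset.sum_add_distrib, Finset.sum_sub_distrib,
      ← Finset.mul_sum, Finset.sum_const, hcardI, nsmul_eq_mul]
  rw [hexp]
  have h3 : 2 * (k : ℝ) * μ * (k * (X * μ - θ)) ≤ 2 * k * μ * ∑ n ∈ I, SS y k n :=
    mul_le_mul_of_nonneg_left hfirst (by positivity)
  nlinarith [hsecond, h3]

end EB
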