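import Pool.Agent.Helper85.EB.Pri
import Pool.Agent.Helper85.EB.Var

/-! Row MASA: the large values of the mass of one block length (second moment). -/

set_option autoImplicit false

namespace EB

open Finset Filter
open scoped Classical

theorem masa_bound (A B L X k θ μ T : ℝ) (hk : 1 ≤ k) (hA : 0 < A) (hB : 0 < B) (hX : 0 < X)
    (hkA : k ≤ 4 * A) (hL : 2 ≤ L) (h1 : 16 * (A * B ^ 2) ≤ X) (h2 : 32 * (A * B) ≤ X)
    (hBX : B ≤ X) (hθ0 : 0 ≤ θ) (hμ0 : 0 ≤ μ) (hθ : θ ≤ 2 * B) (hμ : μ ≤ L / 2 + 2)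
    (hT : T ≤ L / 2 * X * μ + L / 2 * θ) :
    k ^ 2 * θ ^ 2 + 2 * k ^ 2 * μ * θ + k * T ≤ 4 * k * X * L ^ 2 := by
  have hk0 : 0 < k := by linarith
  have e1 : k ^ 2 * θ ^ 2 ≤ k * X := by
    have h3 : θ ^ 2 ≤ (2 * B) ^ 2 := pow_le_pow_left₀ hθ0 hθ 2
    have h4 : k * θ ^ 2 ≤ (4 * A) * (2 * B) ^ 2 :=
      mul_le_mul hkA h3 (sq_nonneg _) (by positivity)
    have h5 : (4 * A) * (2 * B) ^ 2 = 16 * (A * B ^ 2) := by ring
    have h6 : k * (k * θ ^ 2) ≤ k * X := mul_le_mul_of_nonneg_left (by linarith) hk0.le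
    calc k ^ 2 * θ ^ 2 = k * (k * θ ^ 2) := by ring
      _ ≤ k * X := h6
  have e2 : 2 * k ^ 2 * μ * θ ≤ k * X * L := by
    have h3 : μ ≤ 3 / 2 * L := by linarith
    have h4 : μ * θ ≤ (3 / 2 * L) * (2 * B) := mul_le_mul h3 hθ hθ0 (by linarith)
    have h5 : k * (μ * θ) ≤ (4 * A) * ((3 / 2 * L) * (2 * B)) :=
      mul_le_mul hkA h4 (by positivity) (by positivity)
    have h6 : 2 * (k * (μ * θ)) ≤ X * L := by
      have h7 : 32 * (A * B) * L ≤ X * L := mul_le_mul_of_nonneg_right h2 (by linarith)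
      have h8 : 0 ≤ A * B * L := by positivity
      nlinarith
    calc 2 * k ^ 2 * μ * θ = k * (2 * (k * (μ * θ))) := by ring
      _ ≤ k * (X * L) := mul_le_mul_of_nonneg_left h6 hk0.le
      _ = k * X * L := by ring
  have e3 : T ≤ X * L ^ 2 + X * L := by
    have h3 : L / 2 * X * μ ≤ L / 2 * X * (3 / 2 * L) :=
      mul_le_mul_of_nonneg_left (by linarith) (by positivity)
    have h4 : L / 2 * θ ≤ L / 2 * (2 * X) := mul_le_mul_of_nonneg_left (by linarith) (by linarith)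
    have h5 : 0 ≤ X * L ^ 2 := by positivity
    nlinarith
  have e4 : k * T ≤ k * (X * L ^ 2 + X * L) := mul_le_mul_of_nonneg_left e3 hk0.le
  have hkX : 0 < k * X := by positivity
  have hL2 : 1 ≤ L ^ 2 := by nlinarith
  have hL3 : L ≤ L ^ 2 := by nlinarith
  have e5 : k * X ≤ k * X * L ^ 2 := le_mul_of_one_le_right hkX.le hL2
  have e6 : k * X * L ≤ k * X * L ^ 2 := mul_le_mul_of_nonneg_left hL3 hkX.le
  nlinarith

/-- one block length: the large values of `SS` (second moment) -/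
theorem mass_var (κ δ : ℝ) (hκ : 0 < κ) (hκ' : κ ≤ 1 / 8) (hδ : 0 < δ) (hδ' : δ ≤ 1) :
    ∃ X₀ : ℕ, ∀ X y k : ℕ, X₀ ≤ X → 1 ≤ k → (k : ℝ) ≤ 4 * (X : ℝ) ^ (κ / 4) →
      (y : ℝ) ≤ (X : ℝ) ^ (1 / 2 - κ) →
      (((Ico X (2 * X)).filter (fun n =>
        k * (∑ p ∈ (Ioc k y).filter Nat.Prime, Real.log p / p) + δ / 4 * k * Real.log X
          ≤ SS y k n)).card : ℝ) ≤ 64 * X / (δ ^ 2 * k) := by
  have ht : Tendsto (fun n : ℕ => (n : ℝ) ^ κ) atTop atTop :=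
    (tendsto_rpow_atTop hκ).comp tendsto_natCast_atTop_atTop
  obtain ⟨X₁, hX₁⟩ := eventually_atTop.1 (ht.eventually_ge_atTop 16)
  refine ⟨max X₁ 1024, fun X y k hX hk hkX hyX => ?_⟩
  have hXa := hX₁ X ((le_max_left _ _).trans hX)
  have hXb : 1024 ≤ X := (le_max_right _ _).trans hX
  have hXr : (1024 : ℝ) ≤ X := by exact_mod_cast hXb
  have hX0 : (0 : ℝ) < X := by linarith
  have hX1 : (1 : ℝ) ≤ X := by linarith
  have hk1 : (1 : ℝ) ≤ k := by exact_mod_cast hk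
  set L := Real.log X with hLdef
  have hL : 2 ≤ L := by
    rw [hLdef, Real.le_log_iff_exp_le hX0]
    have h1 : Real.exp 2 = Real.exp 1 * Real.exp 1 := by rw [← Real.exp_add]; norm_num
    have h2 := Real.exp_one_lt_d9
    have h3 := Real.exp_pos 1
    nlinarith
  have hL0 : 0 < L := by linarith
  by_cases hky : k ≤ y
  swap
  · have h0 : (Ico X (2 * X)).filter (fun n =>
        k * (∑ p ∈ (Ioc k y).filter Nat.Prime, Real.log p / p) + δ / 4 * k * L
          ≤ SS y k n) = ∅ := by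
      rw [Finset.filter_eq_empty_iff]
      intro n _ hn
      have h1 : Ioc k y = ∅ := Finset.Ioc_eq_empty_of_le (by omega)
      simp only [SS, h1, Finset.filter_empty, Finset.sum_empty, Finset.sum_const_zero, mul_zero,
        zero_add] at hn
      have : 0 < δ / 4 * k * L := by positivity
      linarith
    rw [h0]
    simp only [Finset.card_empty, Nat.cast_zero]
    positivity
  set P := (Ioc k y).filter Nat.Prime with hP
  set θ := ∑ p ∈ P, Real.log p with hθdef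
  set μ := ∑ p ∈ P, Real.log p / p with hμdef
  have hy1 : 1 ≤ y := hk.trans hky
  have hyr : (1 : ℝ) ≤ y := by exact_mod_cast hy1
  have hPsub : P ⊆ (Icc 1 y).filter Nat.Prime := by
    intro p hp
    rw [hP, Finset.mem_filter, Finset.mem_Ioc] at hp
    rw [Finset.mem_filter, Finset.mem_Icc]
    exact ⟨⟨by omega, hp.1.2⟩, hp.2⟩
  have hθ0 : 0 ≤ θ := Finset.sum_nonneg fun p _ => Real.log_natCast_nonneg p
  have hμ0 : 0 ≤ μ := Finset.sum_nonneg fun p _ =>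
    div_nonneg (Real.log_natCast_nonneg p) (Nat.cast_nonneg p)
  have hθ : θ ≤ 2 * (X : ℝ) ^ (1 / 2 - κ) := by
    have h1 : θ ≤ ∑ p ∈ (Icc 1 y).filter Nat.Prime, Real.log p :=
      Finset.sum_le_sum_of_subset_of_nonneg hPsub fun p _ _ => Real.log_natCast_nonneg p
    have h2 := theta_le y
    linarith
  have hlogy : Real.log y ≤ L / 2 := by
    have h1 : Real.log y ≤ Real.log ((X : ℝ) ^ (1 / 2 - κ)) :=
      Real.log_le_log (by linarith) hyX
    rw [Real.log_rpow hX0, ← hLdef] at h1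
    nlinarith
  have hμ : μ ≤ L / 2 + 2 := by
    have h1 : μ ≤ ∑ p ∈ (Icc 1 y).filter Nat.Prime, Real.log p / p :=
      Finset.sum_le_sum_of_subset_of_nonneg hPsub fun p _ _ =>
        div_nonneg (Real.log_natCast_nonneg p) (Nat.cast_nonneg p)
    have h2 := mert_up y hy1
    linarith
  have hT : ∑ p ∈ P, (Real.log p) ^ 2 * (X / p + 1) ≤ L / 2 * X * μ + L / 2 * θ := by
    rw [hμdef, hθdef, Finset.mul_sum, Finset.mul_sum, ← Finset.sum_add_distrib]
    refine Finset.sum_le_sum fun p hp => ?_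
    have hp' := hPsub hp
    rw [Finset.mem_filter, Finset.mem_Icc] at hp'
    have hp0 : (0 : ℝ) < p := by exact_mod_cast hp'.2.pos
    have hpy : (p : ℝ) ≤ y := by exact_mod_cast hp'.1.2
    have h1 : Real.log p ≤ L / 2 := (Real.log_le_log hp0 hpy).trans hlogy
    have h2 : 0 ≤ Real.log p := Real.log_natCast_nonneg p
    have h3 : (Real.log p) ^ 2 * (X / p + 1) = Real.log p * (Real.log p * (X / p + 1)) := by ring
    have h4 : Real.log p * (Real.log p * (X / p + 1)) ≤ L / 2 * (Real.log p * (X / p + 1)) :=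
      mul_le_mul_of_nonneg_right h1 (by positivity)
    rw [h3]
    refine h4.trans (le_of_eq ?_)
    ring
  have hA : 0 < (X : ℝ) ^ (κ / 4) := Real.rpow_pos_of_pos hX0 _
  have hB : 0 < (X : ℝ) ^ (1 / 2 - κ) := Real.rpow_pos_of_pos hX0 _
  have h32 : (32 : ℝ) ≤ (X : ℝ) ^ ((1 : ℝ) / 2) := by
    rw [← Real.sqrt_eq_rpow]
    refine Real.le_sqrt_of_sq_le ?_
    linarith
  have h1 : 16 * ((X : ℝ) ^ (κ / 4) * ((X : ℝ) ^ (1 / 2 - κ)) ^ 2) ≤ X := by
    have e1 : (X : ℝ) ^ κ * ((X : ℝ) ^ (κ / 4) * ((X : ℝ) ^ (1 / 2 - κ)) ^ 2) =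
        (X : ℝ) ^ (1 - 3 / 4 * κ) := by
      rw [← Real.rpow_natCast ((X : ℝ) ^ (1 / 2 - κ)) 2, ← Real.rpow_mul hX0.le,
        ← Real.rpow_add hX0, ← Real.rpow_add hX0]
      congr 1
      push_cast
      ring
    have e2 : (X : ℝ) ^ (1 - 3 / 4 * κ) ≤ (X : ℝ) ^ (1 : ℝ) :=
      Real.rpow_le_rpow_of_exponent_le hX1 (by linarith)
    rw [Real.rpow_one] at e2
    rw [← e1] at e2
    refine le_trans ?_ e2
    exact mul_le_mul_of_nonneg_right hXa (by positivity)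
  have h2 : 32 * ((X : ℝ) ^ (κ / 4) * (X : ℝ) ^ (1 / 2 - κ)) ≤ X := by
    have e1 : (X : ℝ) ^ (κ / 4) * (X : ℝ) ^ (1 / 2 - κ) ≤ (X : ℝ) ^ ((1 : ℝ) / 2) := by
      rw [← Real.rpow_add hX0]
      exact Real.rpow_le_rpow_of_exponent_le hX1 (by linarith)
    have e2 : (X : ℝ) ^ ((1 : ℝ) / 2) * (X : ℝ) ^ ((1 : ℝ) / 2) = X := by
      rw [← Real.rpow_add hX0]
      norm_num
    have e3 : 0 < (X : ℝ) ^ ((1 : ℝ) / 2) := Real.rpow_pos_of_pos hX0 _
    nlinarith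
  have hBX : (X : ℝ) ^ (1 / 2 - κ) ≤ X := by
    have e2 : (X : ℝ) ^ (1 / 2 - κ) ≤ (X : ℝ) ^ (1 : ℝ) :=
      Real.rpow_le_rpow_of_exponent_le hX1 (by linarith)
    rwa [Real.rpow_one] at e2
  have hV := masa_bound ((X : ℝ) ^ (κ / 4)) ((X : ℝ) ^ (1 / 2 - κ)) L X k θ μ _ hk1 hA hB hX0
    hkX hL h1 h2 hBX hθ0 hμ0 hθ hμ hT
  have hmain := (var_main X y k hk hky).trans hV
  set S := (Ico X (2 * X)).filter (fun n => k * μ + δ / 4 * k * L ≤ SS y k n) with hS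
  have hcheb : (S.card : ℝ) * (δ / 4 * k * L) ^ 2 ≤
      ∑ n ∈ Ico X (2 * X), (SS y k n - k * μ) ^ 2 := by
    have e1 : ∑ n ∈ S, (SS y k n - k * μ) ^ 2 ≤ ∑ n ∈ Ico X (2 * X), (SS y k n - k * μ) ^ 2 :=
      Finset.sum_le_sum_of_subset_of_nonneg (Finset.filter_subset _ _) fun n _ _ => sq_nonneg _
    refine le_trans ?_ e1
    rw [← nsmul_eq_mul]
    refine Finset.card_nsmul_le_sum _ _ _ fun n hn => ?_
    rw [hS, Finset.mem_filter] at hn
    refine pow_le_pow_left₀ (by positivity) ?_ 2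
    linarith [hn.2]
  have hfin := hcheb.trans hmain
  have hk0 : (0 : ℝ) < k := by linarith
  rw [le_div_iff₀ (by positivity)]
  have hD : 0 < (k : ℝ) * L ^ 2 / 16 := by positivity
  refine le_of_mul_le_mul_right ?_ hD
  calc (S.card : ℝ) * (δ ^ 2 * k) * (k * L ^ 2 / 16)
      = (S.card : ℝ) * (δ / 4 * k * L) ^ 2 := by ring
    _ ≤ 4 * k * X * L ^ 2 := hfin
    _ = 64 * X * (k * L ^ 2 / 16) := by ring

end EB
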