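import Pool.Agent.Helper85.EB.Pri

/-! Row SPL: decomposition of the mass of a block and the first moment of the higher prime powers. -/

set_option autoImplicit false

namespace EB

open Finset Filter
open scoped Classical

theorem spl_cnt (p n k : ℕ) (hp : 0 < p) :
    (((Icc 1 k).filter (fun i => p ∣ n + i)).card : ℝ) ≤ k / p + 1 := by
  have h1 : ((Icc 1 k).filter (fun i => p ∣ n + i)).card ≤ (Ioc (n / p) ((n + k) / p)).card := by
    refine Finset.card_le_card_of_injOn (fun i => (n + i) / p) ?_ ?_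
    · intro i hi
      rw [Finset.mem_coe, Finset.mem_filter, Finset.mem_Icc] at hi
      rw [Finset.mem_coe, Finset.mem_Ioc]
      obtain ⟨⟨h1, h2⟩, c, hc⟩ := hi
      have hc' : (n + i) / p = c := by rw [hc]; exact Nat.mul_div_cancel_left c hp
      refine ⟨?_, Nat.div_le_div_right (by omega)⟩
      show n / p < (n + i) / p
      rw [hc', Nat.div_lt_iff_lt_mul hp, mul_comm]
      omega
    · intro i hi j hj hij
      rw [Finset.mem_coe, Finset.mem_filter, Finset.mem_Icc] at hi hj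
      have h1 := Nat.div_mul_cancel hi.2
      have h2 := Nat.div_mul_cancel hj.2
      have hij' : (n + i) / p = (n + j) / p := hij
      rw [hij'] at h1
      omega
  rw [Nat.card_Ioc] at h1
  have hp' : (0 : ℝ) < p := by exact_mod_cast hp
  have h2 : (((n + k) / p : ℕ) : ℝ) ≤ ((n + k : ℕ) : ℝ) / p := Nat.cast_div_le
  have h3 : (n : ℝ) / p < ((n / p : ℕ) : ℝ) + 1 := by
    rw [div_lt_iff₀ hp']
    have h4 := Nat.div_add_mod n p
    have h5 := Nat.mod_lt n hp
    have h6 : n < (n / p + 1) * p := by nlinarith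
    exact_mod_cast h6
  have h4 : n / p ≤ (n + k) / p := Nat.div_le_div_right (by omega)
  have h5 : (((Icc 1 k).filter (fun i => p ∣ n + i)).card : ℝ) ≤
      (((n + k) / p : ℕ) : ℝ) - ((n / p : ℕ) : ℝ) := by
    rw [← Nat.cast_sub h4]
    exact_mod_cast h1
  have h6 : ((n + k : ℕ) : ℝ) / p = (n : ℝ) / p + k / p := by
    push_cast
    ring
  rw [h6] at h2
  linarith

theorem spl_small (y k n : ℕ) :
    ∑ i ∈ Icc 1 k, g1 y (n + i) ≤ SS y k n + k * (Real.log k + 4) := by
  rcases Nat.eq_zero_or_pos k with hk | hk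
  · subst hk
    simp [SS]
  have hkey : ∀ i ∈ Icc 1 k, g1 y (n + i) ≤
      (∑ p ∈ (Ioc k y).filter Nat.Prime, if p ∣ n + i then Real.log p else 0) +
      ∑ p ∈ (Icc 1 k).filter Nat.Prime, if p ∣ n + i then Real.log p else 0 := by
    intro i _
    have hdis : Disjoint ((Ioc k y).filter Nat.Prime) ((Icc 1 k).filter Nat.Prime) := by
      rw [Finset.disjoint_left]
      intro p h1 h2
      rw [Finset.mem_filter, Finset.mem_Ioc] at h1
      rw [Finset.mem_filter, Finset.mem_Icc] at h2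
      omega
    rw [← Finset.sum_union hdis]
    unfold g1
    refine Finset.sum_le_sum_of_subset_of_nonneg ?_ ?_
    · intro p hp
      rw [Finset.mem_filter, Finset.mem_Icc] at hp
      rw [Finset.mem_union, Finset.mem_filter, Finset.mem_filter, Finset.mem_Ioc, Finset.mem_Icc]
      by_cases h : p ≤ k
      · exact Or.inr ⟨⟨hp.1.1, h⟩, hp.2⟩
      · exact Or.inl ⟨⟨by omega, hp.1.2⟩, hp.2⟩
    · intro p hp _
      split_ifs
      · exact Real.log_natCast_nonneg p
      · exact le_rfl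
  have h1 := Finset.sum_le_sum hkey
  rw [Finset.sum_add_distrib] at h1
  have h2 : ∑ i ∈ Icc 1 k, ∑ p ∈ (Icc 1 k).filter Nat.Prime,
      (if p ∣ n + i then Real.log p else 0) ≤ k * (Real.log k + 4) := by
    rw [Finset.sum_comm]
    have h3 : ∀ p ∈ (Icc 1 k).filter Nat.Prime,
        ∑ i ∈ Icc 1 k, (if p ∣ n + i then Real.log p else 0) ≤
          k * (Real.log p / p) + Real.log p := by
      intro p hp
      rw [Finset.mem_filter, Finset.mem_Icc] at hp
      rw [← Finset.sum_filter, Finset.sum_const, nsmul_eq_mul]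
      have h4 := spl_cnt p n k (by omega)
      have h5 := mul_le_mul_of_nonneg_right h4 (Real.log_natCast_nonneg p)
      refine h5.trans (le_of_eq ?_)
      ring
    refine (Finset.sum_le_sum h3).trans ?_
    rw [Finset.sum_add_distrib, ← Finset.mul_sum]
    have h6 := mert_up k hk
    have h7 := theta_le k
    have h8 := mul_le_mul_of_nonneg_left h6 (Nat.cast_nonneg (α := ℝ) k)
    nlinarith
  have h3 : SS y k n = ∑ i ∈ Icc 1 k, ∑ p ∈ (Ioc k y).filter Nat.Prime,
      (if p ∣ n + i then Real.log p else 0) := rfl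
  rw [h3]
  linarith

/-- decomposition of the mass of a block -/
theorem gg_split (y k n : ℕ) :
    ∑ i ∈ Icc 1 k, gg y (n + i)
      ≤ SS y k n + k * (Real.log k + 4) + ∑ i ∈ Icc 1 k, (gg y (n + i) - g1 y (n + i)) := by
  rw [Finset.sum_sub_distrib]
  have := spl_small y k n
  linarith

theorem gg_nonneg (y m : ℕ) : 0 ≤ gg y m := by
  unfold gg
  exact Finset.sum_nonneg fun p _ => mul_nonneg (Nat.cast_nonneg _) (Real.log_natCast_nonneg p)

theorem g1_le_gg (y m : ℕ) (hm : 1 ≤ m) : g1 y m ≤ gg y m := by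
  unfold g1 gg
  refine Finset.sum_le_sum fun p hp => ?_
  rw [Finset.mem_filter] at hp
  split_ifs with h
  · have h1 : 1 ≤ m.factorization p := hp.2.factorization_pos_of_dvd (by omega) h
    have h2 : (1 : ℝ) ≤ (m.factorization p : ℝ) := by exact_mod_cast h1
    have h3 := Real.log_natCast_nonneg p
    nlinarith
  · exact mul_nonneg (Nat.cast_nonneg _) (Real.log_natCast_nonneg p)

/-- if all prime factors of `m` are at most `y` the mass is `log m` -/
theorem gg_eq_log (y m : ℕ) (hm : 1 ≤ m) (h : ∀ p : ℕ, p.Prime → p ∣ m → p ≤ y) :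
    gg y m = Real.log m := by
  rw [Real.log_nat_eq_sum_factorization, Finsupp.sum, Nat.support_factorization]
  unfold gg
  symm
  refine Finset.sum_subset ?_ ?_
  · intro p hp
    rw [Nat.mem_primeFactors] at hp
    rw [Finset.mem_filter, Finset.mem_Icc]
    exact ⟨⟨hp.1.one_lt.le, h p hp.1 hp.2.1⟩, hp.1⟩
  · intro p _ hp
    have h0 : m.factorization p = 0 := by
      rw [← Finsupp.notMem_support_iff, Nat.support_factorization]
      exact hp
    rw [h0]
    simp

theorem log_le_gg (y m p : ℕ) (hm : 1 ≤ m) (hp : p.Prime) (hpm : p ∣ m) (hpy : p ≤ y) :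
    Real.log p ≤ gg y m := by
  have h1 : 1 ≤ m.factorization p := hp.factorization_pos_of_dvd (by omega) hpm
  have h2 : (1 : ℝ) ≤ (m.factorization p : ℝ) := by exact_mod_cast h1
  have h3 := Real.log_natCast_nonneg p
  have h4 : (m.factorization p : ℝ) * Real.log p ≤ gg y m := by
    unfold gg
    refine Finset.single_le_sum (f := fun q : ℕ => (m.factorization q : ℝ) * Real.log q)
      (fun q _ => mul_nonneg (Nat.cast_nonneg _) (Real.log_natCast_nonneg q)) ?_
    rw [Finset.mem_filter, Finset.mem_Icc]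
    exact ⟨⟨hp.one_lt.le, hpy⟩, hp⟩
  nlinarith

theorem spl_pp (p N : ℕ) (hp : p.Prime) :
    ∑ m ∈ Ico 1 N, ((m.factorization p : ℝ) - if p ∣ m then 1 else 0) ≤ 2 * N / p ^ 2 := by
  rcases Nat.eq_zero_or_pos N with hN | hN
  · subst hN
    simp
  obtain ⟨M, rfl⟩ : ∃ M, N = M + 1 := ⟨N - 1, by omega⟩
  have hp2 : (2 : ℝ) ≤ p := by exact_mod_cast hp.two_le
  have hp0 : (0 : ℝ) < p := by linarith
  haveI : Fact p.Prime := ⟨hp⟩
  -- the sum of the valuations
  have h1 : ∑ m ∈ Ico 1 (M + 1), m.factorization p =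
      ∑ a ∈ Ico 1 (Nat.log p M + 2), M / p ^ a := by
    have h2 : ∑ m ∈ Ico 1 (M + 1), m.factorization p = (M.factorial).factorization p := by
      rw [← Finset.prod_Ico_id_eq_factorial, Nat.factorization_prod]
      · rw [Finset.sum_apply']
      · intro m hm
        rw [Finset.mem_Ico] at hm
        omega
    rw [h2, Nat.factorization_def _ hp, padicValNat_factorial (b := Nat.log p M + 2) (by omega)]
  have h3 : ∑ m ∈ Ico 1 (M + 1), (if p ∣ m then (1 : ℝ) else 0) = ((M / p : ℕ) : ℝ) := by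
    rw [← Finset.sum_filter, Finset.sum_const, nsmul_eq_mul, mul_one,
      ← Nat.Ioc_filter_dvd_card_eq_div]
    congr 1
  rw [Finset.sum_sub_distrib, h3, ← Nat.cast_sum, h1,
    Finset.sum_eq_sum_Ico_succ_bot (by omega), pow_one]
  push_cast
  have h4 : ∀ a ∈ Ico (1 + 1) (Nat.log p M + 2), (((M / p ^ a : ℕ) : ℝ)) ≤
      M * ((p : ℝ)⁻¹) ^ a := by
    intro a _
    have := @Nat.cast_div_le ℝ _ _ _ M (p ^ a)
    refine this.trans (le_of_eq ?_)
    push_cast
    rw [inv_pow, div_eq_mul_inv]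
  have h5 := Finset.sum_le_sum h4
  rw [← Finset.mul_sum] at h5
  have hr0 : (0 : ℝ) ≤ (p : ℝ)⁻¹ := by positivity
  have hr1 : (p : ℝ)⁻¹ ≤ 1 / 2 := by
    rw [inv_eq_one_div]
    exact one_div_le_one_div_of_le (by norm_num) hp2
  have h6 : ∑ a ∈ Ico (1 + 1) (Nat.log p M + 2), ((p : ℝ)⁻¹) ^ a ≤ 2 * ((p : ℝ)⁻¹) ^ 2 := by
    have h7 := geom_sum_Ico_le_of_lt_one (m := 2) (n := Nat.log p M + 2) hr0
      (lt_of_le_of_lt hr1 (by norm_num))
    refine h7.trans ?_
    rw [div_le_iff₀ (by linarith)]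
    nlinarith [sq_nonneg ((p : ℝ)⁻¹)]
  have h8 := mul_le_mul_of_nonneg_left h6 (Nat.cast_nonneg (α := ℝ) M)
  have h9 : 2 * ((M : ℝ) + 1) / (p : ℝ) ^ 2 = (M + 1) * (2 * ((p : ℝ)⁻¹) ^ 2) := by
    rw [inv_pow, div_eq_mul_inv]
    ring
  rw [h9]
  have h10 : (0 : ℝ) ≤ 2 * ((p : ℝ)⁻¹) ^ 2 := by positivity
  have h11 : ∑ a ∈ Ico (1 + 1) (Nat.log p M + 2), (((M / p ^ a : ℕ) : ℝ)) ≤
    M * (2 * ((p : ℝ)⁻¹) ^ 2) := h5.trans h8
  push_cast at h11
  linarith

/-- first moment of the higher prime powers -/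
theorem pow_part : ∃ C : ℝ, 0 < C ∧ ∀ y N : ℕ,
    ∑ m ∈ Ico 1 N, (gg y m - g1 y m) ≤ C * N := by
  have hsum : Summable (fun n : ℕ => 1 / (n : ℝ) ^ ((3 : ℝ) / 2)) :=
    Real.summable_one_div_nat_rpow.2 (by norm_num)
  refine ⟨4 * (∑' n : ℕ, 1 / (n : ℝ) ^ ((3 : ℝ) / 2)) + 1, ?_, ?_⟩
  · have : 0 ≤ ∑' n : ℕ, 1 / (n : ℝ) ^ ((3 : ℝ) / 2) := tsum_nonneg fun n => by positivity
    linarith
  · intro y N
    have h1 : ∑ m ∈ Ico 1 N, (gg y m - g1 y m) =
        ∑ p ∈ (Icc 1 y).filter Nat.Prime, Real.log p *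
          ∑ m ∈ Ico 1 N, ((m.factorization p : ℝ) - if p ∣ m then 1 else 0) := by
      simp only [Finset.mul_sum]
      rw [Finset.sum_comm]
      refine Finset.sum_congr rfl fun m _ => ?_
      unfold gg g1
      rw [← Finset.sum_sub_distrib]
      refine Finset.sum_congr rfl fun p _ => ?_
      split_ifs <;> ring
    rw [h1]
    have h2 : ∀ p ∈ (Icc 1 y).filter Nat.Prime, Real.log p *
          ∑ m ∈ Ico 1 N, ((m.factorization p : ℝ) - if p ∣ m then 1 else 0) ≤
          N * (4 * (1 / (p : ℝ) ^ ((3 : ℝ) / 2))) := by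
      intro p hp
      rw [Finset.mem_filter] at hp
      have h3 := spl_pp p N hp.2
      have hp0 : (0 : ℝ) < p := by exact_mod_cast hp.2.pos
      have h4 := mul_le_mul_of_nonneg_left h3 (Real.log_natCast_nonneg p)
      refine h4.trans ?_
      have h5 : Real.log p ≤ (p : ℝ) ^ ((1 : ℝ) / 2) / (1 / 2) :=
        Real.log_le_rpow_div hp0.le (by norm_num)
      have h6 : (p : ℝ) ^ 2 = (p : ℝ) ^ ((1 : ℝ) / 2) * (p : ℝ) ^ ((3 : ℝ) / 2) := by
        rw [← Real.rpow_add hp0, ← Real.rpow_natCast]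
        norm_num
      have h7 : 0 < (p : ℝ) ^ ((1 : ℝ) / 2) := Real.rpow_pos_of_pos hp0 _
      have h8 : 0 < (p : ℝ) ^ ((3 : ℝ) / 2) := Real.rpow_pos_of_pos hp0 _
      have h9 : (0 : ℝ) ≤ 2 * N / (p : ℝ) ^ 2 := by positivity
      have h10 := mul_le_mul_of_nonneg_right h5 h9
      refine h10.trans (le_of_eq ?_)
      rw [h6]
      field_simp
      ring
    refine (Finset.sum_le_sum h2).trans ?_
    rw [← Finset.mul_sum, ← Finset.mul_sum]
    have h3 : ∑ p ∈ (Icc 1 y).filter Nat.Prime, 1 / (p : ℝ) ^ ((3 : ℝ) / 2) ≤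
        ∑' n : ℕ, 1 / (n : ℝ) ^ ((3 : ℝ) / 2) :=
      hsum.sum_le_tsum _ fun n _ => by positivity
    have hN : (0 : ℝ) ≤ N := Nat.cast_nonneg N
    nlinarith [mul_le_mul_of_nonneg_left h3 hN]

end EB
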