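import Pool.Agent.Helper85.EB.Maxi
import Pool.Agent.Helper85.EB.Spl
import Pool.Agent.Helper85.EB.Masa

/-! Row MASS: the mass of the small primes in a block is typical. -/

set_option autoImplicit false

namespace EB

open Finset Filter
open scoped Classical

theorem mass_tele (m₀ : ℕ) (h0 : 1 ≤ m₀) (N : ℕ) (hN : m₀ ≤ N) :
    ∑ m ∈ Ico m₀ N, 1 / ((m : ℝ) + 1) ^ 2 ≤ 1 / (m₀ : ℝ) - 1 / (N : ℝ) := by
  induction N, hN using Nat.le_induction with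
  | base => simp
  | succ N hN ih =>
    rw [Finset.sum_Ico_succ_top hN]
    have hN0 : (0 : ℝ) < N := by exact_mod_cast (by omega : 0 < N)
    have h1 : 1 / ((N : ℝ) + 1) ^ 2 ≤ 1 / (N : ℝ) - 1 / ((N : ℝ) + 1) := by
      rw [div_sub_div _ _ hN0.ne' (by positivity), div_le_div_iff₀ (by positivity) (by positivity)]
      nlinarith
    push_cast
    linarith

/-- the main inclusion: outside `E_R` the number `n` is in `E_V` -/
theorem mass_incl (κ δ : ℝ) (hκ : 0 < κ) (hδ : 0 < δ) (hδ' : δ ≤ 1)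
    (m₀ X y k n : ℕ) (hm0 : 1 ≤ m₀) (hm1 : 12 / δ ≤ m₀) (hX : 1 ≤ X)
    (hL : 64 / δ ≤ Real.log X) (hκ' : κ ≤ 1 / 8)
    (hy : (y : ℝ) ≤ (X : ℝ) ^ (1 / 2 - κ)) (hk : m₀ ^ 2 + 1 ≤ k)
    (hkX : (k : ℝ) ≤ (X : ℝ) ^ (κ / 4))
    (hS : (1 / 2 + δ) * k * Real.log X ≤ ∑ i ∈ Icc 1 k, gg y (n + i)) :
    ∃ m, m₀ ≤ m ∧ (((m + 1) ^ 2 : ℕ) : ℝ) ≤ 4 * (X : ℝ) ^ (κ / 4) ∧
      (∑ i ∈ Icc 1 ((m + 1) ^ 2), (gg y (n + i) - g1 y (n + i))
          < δ / 8 * Real.log X * ((m + 1) ^ 2 : ℕ) →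
        (((m + 1) ^ 2 : ℕ) : ℝ) * (∑ p ∈ (Ioc ((m + 1) ^ 2) y).filter Nat.Prime, Real.log p / p)
          + δ / 4 * ((m + 1) ^ 2 : ℕ) * Real.log X ≤ SS y ((m + 1) ^ 2) n) := by
  set L := Real.log X with hLdef
  have hXr : (1 : ℝ) ≤ X := by exact_mod_cast hX
  have hX0 : (0 : ℝ) < X := by linarith
  have hL0 : 0 < L := lt_of_lt_of_le (by positivity) hL
  set m := Nat.sqrt (k - 1) with hm
  have h1 : m * m ≤ k - 1 := Nat.sqrt_le (k - 1)
  have h2 : k - 1 < (m + 1) * (m + 1) := Nat.lt_succ_sqrt (k - 1)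
  have hm0m : m₀ ≤ m := by
    rw [hm, Nat.le_sqrt]
    have : m₀ ^ 2 = m₀ * m₀ := sq m₀
    omega
  have hmr : (m₀ : ℝ) ≤ m := by exact_mod_cast hm0m
  have hm1' : (1 : ℝ) ≤ m := by
    have : (1 : ℝ) ≤ m₀ := by exact_mod_cast hm0
    linarith
  set K := (m + 1) ^ 2 with hK
  have hkK : k ≤ K := by
    rw [hK, sq]
    omega
  have hKr : (K : ℝ) = ((m : ℝ) + 1) ^ 2 := by rw [hK]; push_cast; ring
  have hmk : (m : ℝ) ^ 2 ≤ k := by
    have h3 : m * m ≤ k := by omega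
    have h4 : ((m * m : ℕ) : ℝ) ≤ k := by exact_mod_cast h3
    push_cast at h4
    rw [sq]
    exact h4
  have hK4 : (K : ℝ) ≤ 4 * k := by
    rw [hKr]
    have h3 : 0 ≤ ((m : ℝ) - 1) * (3 * m + 1) := mul_nonneg (by linarith) (by linarith)
    linarith [h3, hmk]
  have hKδ : (K : ℝ) ≤ (1 + δ / 4) * k := by
    have h3 : 12 ≤ δ * m := by
      have h4 : 12 / δ ≤ m := hm1.trans hmr
      rw [div_le_iff₀ hδ] at h4
      linarith
    have h5 : (K : ℝ) ≤ (1 + δ / 4) * (m : ℝ) ^ 2 := by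
      rw [hKr]
      have h6 : 12 * (m : ℝ) ≤ δ * m * m := mul_le_mul_of_nonneg_right h3 (by linarith)
      linarith [h6, hm1']
    refine h5.trans (mul_le_mul_of_nonneg_left hmk (by positivity))
  have hK4X : (K : ℝ) ≤ 4 * (X : ℝ) ^ (κ / 4) := hK4.trans (by linarith)
  refine ⟨m, hm0m, hK4X, fun hR => ?_⟩
  have hK0 : (0 : ℝ) < K := by
    rw [hKr]
    positivity
  -- the mass of the longer block
  have h6 : ∑ i ∈ Icc 1 k, gg y (n + i) ≤ ∑ i ∈ Icc 1 K, gg y (n + i) :=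
    Finset.sum_le_sum_of_subset_of_nonneg (Finset.Icc_subset_Icc_right hkK)
      fun i _ _ => gg_nonneg y (n + i)
  have h7 : (1 / 2 + δ / 2) * K * L ≤ (1 / 2 + δ) * k * L := by
    apply mul_le_mul_of_nonneg_right _ hL0.le
    have h8 : (1 / 2 + δ / 2) * (K : ℝ) ≤ (1 / 2 + δ / 2) * ((1 + δ / 4) * k) :=
      mul_le_mul_of_nonneg_left hKδ (by positivity)
    refine h8.trans ?_
    have hk0 : (0 : ℝ) ≤ k := Nat.cast_nonneg k
    have h9 : (1 / 2 + δ / 2) * (1 + δ / 4) ≤ 1 / 2 + δ := by nlinarith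
    calc (1 / 2 + δ / 2) * ((1 + δ / 4) * (k : ℝ)) = (1 / 2 + δ / 2) * (1 + δ / 4) * k := by ring
      _ ≤ (1 / 2 + δ) * k := mul_le_mul_of_nonneg_right h9 hk0
  have h10 := gg_split y K n
  have h11 : Real.log K ≤ 2 + κ / 4 * L := by
    have h12 : Real.log K ≤ Real.log (4 * (X : ℝ) ^ (κ / 4)) := Real.log_le_log hK0 hK4X
    rw [Real.log_mul (by norm_num) (by positivity), Real.log_rpow hX0] at h12
    have h13 : Real.log 4 ≤ 2 := by
      have h14 := Real.log_two_lt_d9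
      have h15 : Real.log 4 = 2 * Real.log 2 := by
        rw [show (4 : ℝ) = 2 ^ 2 by norm_num, Real.log_pow]
        norm_num
      linarith
    linarith
  have hμ : ∑ p ∈ (Ioc K y).filter Nat.Prime, Real.log p / p ≤ (1 / 2 - κ) * L + 2 := by
    rcases Nat.eq_zero_or_pos y with h0 | h0
    · subst h0
      simp
      have : 0 ≤ (1 / 2 - κ) * L := mul_nonneg (by linarith) hL0.le
      norm_num at this ⊢
      linarith
    · have h13 := mert_up y h0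
      have h14 : ∑ p ∈ (Ioc K y).filter Nat.Prime, Real.log p / p
          ≤ ∑ p ∈ (Icc 1 y).filter Nat.Prime, Real.log p / p := by
        apply Finset.sum_le_sum_of_subset_of_nonneg
        · intro p hp
          rw [Finset.mem_filter, Finset.mem_Ioc] at hp
          rw [Finset.mem_filter, Finset.mem_Icc]
          exact ⟨⟨by omega, hp.1.2⟩, hp.2⟩
        · intro p hp _
          exact div_nonneg (Real.log_natCast_nonneg p) (Nat.cast_nonneg p)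
      have h15 : Real.log y ≤ (1 / 2 - κ) * L := by
        have h16 := Real.log_le_log (by exact_mod_cast h0) hy
        rwa [Real.log_rpow hX0] at h16
      linarith
  have h64 : 64 ≤ δ * L := by
    rw [div_le_iff₀ hδ] at hL
    linarith
  have h17 : (K : ℝ) * (∑ p ∈ (Ioc K y).filter Nat.Prime, Real.log p / p)
      ≤ K * ((1 / 2 - κ) * L + 2) := mul_le_mul_of_nonneg_left hμ hK0.le
  have h18 : (K : ℝ) * (Real.log K + 4) ≤ K * (6 + κ / 4 * L) :=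
    mul_le_mul_of_nonneg_left (by linarith) hK0.le
  have h19 : (K : ℝ) * ((1 / 2 - κ) * L + 2 + δ / 4 * L)
      ≤ K * ((1 / 2 + δ / 2) * L - (6 + κ / 4 * L) - δ / 8 * L) := by
    apply mul_le_mul_of_nonneg_left _ hK0.le
    have : 0 < κ * L := mul_pos hκ hL0
    linarith
  linarith [h6, h7, h10, h17, h18, h19, hR, hS]

theorem mass_typ1 (κ δ η : ℝ) (hκ : 0 < κ) (hκ' : κ ≤ 1 / 8) (hδ : 0 < δ) (hδ' : δ ≤ 1)
    (hη : 0 < η) :
    ∃ K₀ X₀ : ℕ, ∀ X y : ℕ, X₀ ≤ X → (y : ℝ) ≤ (X : ℝ) ^ (1 / 2 - κ) →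
      (((Ico X (2 * X)).filter (fun n => ∃ k : ℕ, K₀ ≤ k ∧ (k : ℝ) ≤ (X : ℝ) ^ (κ / 4) ∧
        (1 / 2 + δ) * k * Real.log X ≤ ∑ i ∈ Icc 1 k, gg y (n + i))).card : ℝ) ≤ η * X := by
  obtain ⟨X₁, hX₁⟩ := mass_var κ δ hκ hκ' hδ hδ'
  obtain ⟨C, hC, hpow⟩ := pow_part
  set m₀ : ℕ := ⌈12 / δ⌉₊ + ⌈128 / (δ ^ 2 * η)⌉₊ + 1 with hm₀
  have hm1 : 12 / δ ≤ (m₀ : ℝ) := by
    rw [hm₀]
    push_cast
    have h1 := Nat.le_ceil (12 / δ)
    have h2 : (0 : ℝ) ≤ (⌈128 / (δ ^ 2 * η)⌉₊ : ℝ) := Nat.cast_nonneg _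
    linarith
  have hm2 : 128 / (δ ^ 2 * η) ≤ (m₀ : ℝ) := by
    rw [hm₀]
    push_cast
    have h1 := Nat.le_ceil (128 / (δ ^ 2 * η))
    have h2 : (0 : ℝ) ≤ (⌈12 / δ⌉₊ : ℝ) := Nat.cast_nonneg _
    linarith
  have hm3 : 1 ≤ m₀ := by omega
  have htend : Tendsto (fun X : ℕ => Real.log (X : ℝ)) atTop atTop :=
    Real.tendsto_log_atTop.comp tendsto_natCast_atTop_atTop
  obtain ⟨X₂, hX₂⟩ := Filter.eventually_atTop.mp
    (htend.eventually_ge_atTop (64 / δ + 48 * C / (δ * η)))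
  refine ⟨m₀ ^ 2 + 1, max (max X₁ X₂) 16, fun X y hX hy => ?_⟩
  have hXX1 : X₁ ≤ X := le_trans (le_trans (le_max_left _ _) (le_max_left _ _)) hX
  have hXX2 : X₂ ≤ X := le_trans (le_trans (le_max_right _ _) (le_max_left _ _)) hX
  have hX16 : 16 ≤ X := le_trans (le_max_right _ _) hX
  have hLX := hX₂ X hXX2
  set L := Real.log (X : ℝ) with hL
  have hX0 : (0 : ℝ) < X := by exact_mod_cast (by omega : 0 < X)
  have hXr : (16 : ℝ) ≤ X := by exact_mod_cast hX16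
  have hL1 : 64 / δ ≤ L := by
    have : 0 ≤ 48 * C / (δ * η) := by positivity
    linarith
  have hL2 : 48 * C / (δ * η) ≤ L := by
    have : 0 ≤ 64 / δ := by positivity
    linarith
  have hL0 : 0 < L := lt_of_lt_of_le (by positivity) hL1
  have h4X : 4 * (X : ℝ) ^ (κ / 4) ≤ X := by
    have h1 : (X : ℝ) ^ (κ / 4) ≤ (X : ℝ) ^ ((1 : ℝ) / 2) :=
      Real.rpow_le_rpow_of_exponent_le (by linarith) (by linarith)
    have h2 : (X : ℝ) ^ ((1 : ℝ) / 2) * (X : ℝ) ^ ((1 : ℝ) / 2) = X := by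
      rw [← Real.rpow_add hX0]
      norm_num
    have h3 : (4 : ℝ) ≤ (X : ℝ) ^ ((1 : ℝ) / 2) := by
      have h5 : (16 : ℝ) ^ ((1 : ℝ) / 2) ≤ (X : ℝ) ^ ((1 : ℝ) / 2) :=
        Real.rpow_le_rpow (by norm_num) hXr (by norm_num)
      have h6 : (16 : ℝ) ^ ((1 : ℝ) / 2) = 4 := by
        rw [show (16 : ℝ) = 4 ^ (2 : ℝ) by norm_num, ← Real.rpow_mul (by norm_num)]
        norm_num
      linarith
    have h7 : 0 ≤ (X : ℝ) ^ (κ / 4) := by positivity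
    calc 4 * (X : ℝ) ^ (κ / 4) ≤ (X : ℝ) ^ ((1 : ℝ) / 2) * (X : ℝ) ^ ((1 : ℝ) / 2) :=
          mul_le_mul h3 h1 h7 (by positivity)
      _ = X := h2
  -- the function of the higher prime powers
  set f : ℕ → ℝ := fun m => if m = 0 then 0 else gg y m - g1 y m with hf
  have hf0 : ∀ m, 0 ≤ f m := by
    intro m
    rw [hf]
    dsimp only
    split_ifs with h
    · exact le_rfl
    · have := g1_le_gg y m (by omega)
      linarith
  have hc : 0 < δ / 8 * L := by positivity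
  have hER := maxi f hf0 hc X X
  set ER := (Ico X (2 * X)).filter
      (fun n => ∃ k, 1 ≤ k ∧ k ≤ X ∧ δ / 8 * L * k ≤ ∑ i ∈ Icc 1 k, f (n + i)) with hERdef
  have hsumf : ∑ m ∈ Ico X (2 * X + X), f m ≤ C * (3 * X) := by
    have h1 : ∑ m ∈ Ico X (2 * X + X), f m ≤ ∑ m ∈ Ico 1 (3 * X), f m := by
      apply Finset.sum_le_sum_of_subset_of_nonneg
      · intro m hm
        rw [Finset.mem_Ico] at hm ⊢
        omega
      · intro m _ _
        exact hf0 m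
    have h2 : ∑ m ∈ Ico 1 (3 * X), f m = ∑ m ∈ Ico 1 (3 * X), (gg y m - g1 y m) := by
      refine Finset.sum_congr rfl fun m hm => ?_
      rw [Finset.mem_Ico] at hm
      rw [hf]
      dsimp only
      rw [if_neg (by omega)]
    have h3 := hpow y (3 * X)
    push_cast at h3
    linarith
  have hERcard : (ER.card : ℝ) ≤ η / 2 * X := by
    have h1 : δ / 8 * L * (ER.card : ℝ) ≤ C * (3 * X) := hER.trans hsumf
    have h2 : C * (3 * X) ≤ δ / 8 * L * (η / 2 * X) := by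
      have h3 : 48 * C ≤ L * (δ * η) := by
        rwa [div_le_iff₀ (by positivity)] at hL2
      nlinarith
    exact le_of_mul_le_mul_left (h1.trans h2) hc
  -- the sets of the second moment
  set M := (Ico m₀ X).filter (fun m => (((m + 1) ^ 2 : ℕ) : ℝ) ≤ 4 * (X : ℝ) ^ (κ / 4)) with hM
  set EV : ℕ → Finset ℕ := fun m => (Ico X (2 * X)).filter (fun n =>
        (((m + 1) ^ 2 : ℕ) : ℝ) * (∑ p ∈ (Ioc ((m + 1) ^ 2) y).filter Nat.Prime, Real.log p / p)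
          + δ / 4 * ((m + 1) ^ 2 : ℕ) * L ≤ SS y ((m + 1) ^ 2) n) with hEV
  have hEVcard : ∀ m ∈ M, ((EV m).card : ℝ) ≤ 64 * X / δ ^ 2 * (1 / ((m : ℝ) + 1) ^ 2) := by
    intro m hm
    rw [hM, Finset.mem_filter] at hm
    have h1 := hX₁ X y ((m + 1) ^ 2) hXX1 (Nat.one_le_pow _ _ (by omega)) hm.2 hy
    refine h1.trans (le_of_eq ?_)
    push_cast
    field_simp
  have hsub : (Ico X (2 * X)).filter (fun n => ∃ k : ℕ, m₀ ^ 2 + 1 ≤ k ∧
      (k : ℝ) ≤ (X : ℝ) ^ (κ / 4) ∧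
        (1 / 2 + δ) * k * L ≤ ∑ i ∈ Icc 1 k, gg y (n + i)) ⊆ ER ∪ M.biUnion EV := by
    intro n hn
    rw [Finset.mem_filter] at hn
    obtain ⟨hnI, k, hk1, hk2, hk3⟩ := hn
    obtain ⟨m, hm4, hm5, hm6⟩ := mass_incl κ δ hκ hδ hδ' m₀ X y k n hm3 hm1 (by omega) hL1 hκ' hy
      hk1 hk2 hk3
    rw [Finset.mem_union]
    by_cases hnR : n ∈ ER
    · exact Or.inl hnR
    · right
      have hKX : ((m + 1) ^ 2 : ℕ) ≤ X := by
        have : (((m + 1) ^ 2 : ℕ) : ℝ) ≤ X := hm5.trans h4X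
        exact_mod_cast this
      rw [Finset.mem_biUnion]
      refine ⟨m, ?_, ?_⟩
      · rw [hM, Finset.mem_filter, Finset.mem_Ico]
        refine ⟨⟨hm4, ?_⟩, hm5⟩
        nlinarith
      · rw [hEV]
        dsimp only
        rw [Finset.mem_filter]
        refine ⟨hnI, hm6 ?_⟩
        by_contra hcon
        push Not at hcon
        apply hnR
        rw [hERdef, Finset.mem_filter]
        refine ⟨hnI, (m + 1) ^ 2, Nat.one_le_pow _ _ (by omega), hKX, hcon.trans (le_of_eq ?_)⟩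
        refine Finset.sum_congr rfl fun i hi => ?_
        rw [Finset.mem_Icc] at hi
        rw [hf]
        dsimp only
        rw [if_neg (by omega)]
  have hcard : (((Ico X (2 * X)).filter (fun n => ∃ k : ℕ, m₀ ^ 2 + 1 ≤ k ∧
      (k : ℝ) ≤ (X : ℝ) ^ (κ / 4) ∧
        (1 / 2 + δ) * k * L ≤ ∑ i ∈ Icc 1 k, gg y (n + i))).card : ℝ)
      ≤ (ER.card : ℝ) + ∑ m ∈ M, ((EV m).card : ℝ) := by
    have h1 := (Finset.card_le_card hsub).trans (Finset.card_union_le _ _)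
    have h2 : (M.biUnion EV).card ≤ ∑ m ∈ M, (EV m).card := Finset.card_biUnion_le
    exact_mod_cast h1.trans (Nat.add_le_add_left h2 _)
  have hsumV : ∑ m ∈ M, ((EV m).card : ℝ) ≤ η / 2 * X := by
    have h1 : ∑ m ∈ M, ((EV m).card : ℝ) ≤ ∑ m ∈ M, 64 * X / δ ^ 2 * (1 / ((m : ℝ) + 1) ^ 2) :=
      Finset.sum_le_sum hEVcard
    have h2 : ∑ m ∈ M, 64 * (X : ℝ) / δ ^ 2 * (1 / ((m : ℝ) + 1) ^ 2)
        ≤ 64 * X / δ ^ 2 * (1 / (m₀ : ℝ)) := by
      rw [← Finset.mul_sum]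
      apply mul_le_mul_of_nonneg_left _ (by positivity)
      rcases le_total m₀ X with h3 | h3
      · have h4 : ∑ m ∈ M, 1 / ((m : ℝ) + 1) ^ 2 ≤ ∑ m ∈ Ico m₀ X, 1 / ((m : ℝ) + 1) ^ 2 :=
          Finset.sum_le_sum_of_subset_of_nonneg (Finset.filter_subset _ _)
            fun m _ _ => by positivity
        have h5 := mass_tele m₀ hm3 X h3
        have h6 : 0 ≤ 1 / (X : ℝ) := by positivity
        linarith
      · have h4 : M = ∅ := by
          rw [hM, Finset.Ico_eq_empty (by omega), Finset.filter_empty]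
        rw [h4]
        simp
    have h7 : 64 * (X : ℝ) / δ ^ 2 * (1 / (m₀ : ℝ)) ≤ η / 2 * X := by
      have hm0 : (0 : ℝ) < m₀ := by exact_mod_cast hm3
      have h8 : 128 ≤ m₀ * (δ ^ 2 * η) := by
        rwa [div_le_iff₀ (by positivity)] at hm2
      rw [div_mul_div_comm, div_le_iff₀ (by positivity)]
      nlinarith
    linarith
  linarith

theorem mass_typ (κ δ η : ℝ) (hκ : 0 < κ) (hκ' : κ ≤ 1 / 8) (hδ : 0 < δ) (hη : 0 < η) :
    ∃ K₀ X₀ : ℕ, ∀ X y : ℕ, X₀ ≤ X → (y : ℝ) ≤ (X : ℝ) ^ (1 / 2 - κ) →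
      (((Ico X (2 * X)).filter (fun n => ∃ k : ℕ, K₀ ≤ k ∧ (k : ℝ) ≤ (X : ℝ) ^ (κ / 4) ∧
        (1 / 2 + δ) * k * Real.log X ≤ ∑ i ∈ Icc 1 k, gg y (n + i))).card : ℝ) ≤ η * X := by
  obtain ⟨K₀, X₀, h⟩ := mass_typ1 κ (min δ 1) η hκ hκ' (lt_min hδ one_pos) (min_le_right _ _) hη
  refine ⟨K₀, max X₀ 1, fun X y hX hy => ?_⟩
  refine le_trans ?_ (h X y ((le_max_left _ _).trans hX) hy)
  have h1 : (Ico X (2 * X)).filter (fun n => ∃ k : ℕ, K₀ ≤ k ∧ (k : ℝ) ≤ (X : ℝ) ^ (κ / 4) ∧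
        (1 / 2 + δ) * k * Real.log X ≤ ∑ i ∈ Icc 1 k, gg y (n + i))
      ⊆ (Ico X (2 * X)).filter (fun n => ∃ k : ℕ, K₀ ≤ k ∧ (k : ℝ) ≤ (X : ℝ) ^ (κ / 4) ∧
        (1 / 2 + min δ 1) * k * Real.log X ≤ ∑ i ∈ Icc 1 k, gg y (n + i)) := by
    intro n hn
    rw [Finset.mem_filter] at hn ⊢
    obtain ⟨hn1, k, hk1, hk2, hk3⟩ := hn
    refine ⟨hn1, k, hk1, hk2, le_trans ?_ hk3⟩
    have hX1 : (1 : ℝ) ≤ X := by exact_mod_cast (le_max_right _ _).trans hX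
    have h2 : 0 ≤ Real.log (X : ℝ) := Real.log_nonneg hX1
    have h3 : 1 / 2 + min δ 1 ≤ 1 / 2 + δ := by
      have := min_le_left δ 1
      linarith
    have hk0 : (0 : ℝ) ≤ k := Nat.cast_nonneg k
    exact mul_le_mul_of_nonneg_right (mul_le_mul_of_nonneg_right h3 hk0) h2
  exact_mod_cast Finset.card_le_card h1

end EB
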