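import Pool.Agent.Helper85.EB.Defs

/-! Row MAXI: the one-sided maximal inequality for averages of a nonnegative function. -/

set_option autoImplicit false

namespace EB

open Finset Filter
open scoped Classical

theorem maxi_aux (f : ℕ → ℝ) (hf : ∀ m, 0 ≤ f m) {c : ℝ} (hc : 0 < c) (X H : ℕ) :
    ∀ d a : ℕ, a + d = 2 * X →
    c * ((((Ico X (2 * X)).filter
      (fun n => ∃ k, 1 ≤ k ∧ k ≤ H ∧ c * k ≤ ∑ i ∈ Icc 1 k, f (n + i))).filter
        (fun n => a ≤ n)).card : ℝ)
      ≤ ∑ m ∈ Ico (a + 1) (2 * X + H), f m := by
  intro d
  induction d using Nat.strong_induction_on with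
  | _ d ih =>
    intro a ha
    set E := (Ico X (2 * X)).filter
      (fun n => ∃ k, 1 ≤ k ∧ k ≤ H ∧ c * k ≤ ∑ i ∈ Icc 1 k, f (n + i)) with hE
    have hEm : ∀ n ∈ E, n < 2 * X := by
      intro n hn
      rw [hE, Finset.mem_filter, Finset.mem_Ico] at hn
      exact hn.1.2
    rcases Nat.eq_zero_or_pos d with hd | hd
    · have h0 : E.filter (fun n => a ≤ n) = ∅ := by
        rw [Finset.filter_eq_empty_iff]
        intro n hn
        have := hEm n hn
        omega
      rw [h0]
      simp only [Finset.card_empty, Nat.cast_zero, mul_zero]
      exact Finset.sum_nonneg fun m _ => hf m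
    · by_cases haE : a ∈ E
      · have haE' := haE
        rw [hE, Finset.mem_filter, Finset.mem_Ico] at haE'
        obtain ⟨⟨hXa, ha2⟩, k, hk1, hkH, hk⟩ := haE'
        have hsum : ∑ i ∈ Icc 1 k, f (a + i) = ∑ m ∈ Ico (a + 1) (a + k + 1), f m := by
          have h1 : Ico (a + 1) (a + k + 1) = (Icc 1 k).map (addLeftEmbedding a) := by
            rw [Finset.map_add_left_Icc]
            ext m
            rw [Finset.mem_Ico, Finset.mem_Icc]
            omega
          rw [h1, Finset.sum_map]
          rfl
        rw [hsum] at hk
        by_cases hak : a + k < 2 * X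
        · have hih := ih (2 * X - (a + k)) (by omega) (a + k) (by omega)
          have hsub : E.filter (fun n => a ≤ n) ⊆
              Ico a (a + k) ∪ E.filter (fun n => a + k ≤ n) := by
            intro n hn
            rw [Finset.mem_filter] at hn
            rw [Finset.mem_union, Finset.mem_Ico, Finset.mem_filter]
            by_cases h : n < a + k
            · exact Or.inl ⟨hn.2, h⟩
            · exact Or.inr ⟨hn.1, by omega⟩
          have hcard : ((E.filter (fun n => a ≤ n)).card : ℝ) ≤
              k + ((E.filter (fun n => a + k ≤ n)).card : ℝ) := by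
            have h1 := (Finset.card_le_card hsub).trans (Finset.card_union_le _ _)
            rw [Nat.card_Ico] at h1
            have h2 : (E.filter (fun n => a ≤ n)).card ≤
                k + (E.filter (fun n => a + k ≤ n)).card := by omega
            exact_mod_cast h2
          have hsplit : ∑ m ∈ Ico (a + 1) (2 * X + H), f m =
              ∑ m ∈ Ico (a + 1) (a + k + 1), f m + ∑ m ∈ Ico (a + k + 1) (2 * X + H), f m :=
            (Finset.sum_Ico_consecutive _ (by omega) (by omega)).symm
          rw [hsplit]
          have := mul_le_mul_of_nonneg_left hcard hc.le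
          rw [mul_add] at this
          linarith
        · have hsub : E.filter (fun n => a ≤ n) ⊆ Ico a (a + k) := by
            intro n hn
            rw [Finset.mem_filter] at hn
            have := hEm n hn.1
            rw [Finset.mem_Ico]
            omega
          have hcard : ((E.filter (fun n => a ≤ n)).card : ℝ) ≤ k := by
            have h1 := Finset.card_le_card hsub
            rw [Nat.card_Ico] at h1
            have h2 : (E.filter (fun n => a ≤ n)).card ≤ k := by omega
            exact_mod_cast h2
          have hmono : ∑ m ∈ Ico (a + 1) (a + k + 1), f m ≤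
              ∑ m ∈ Ico (a + 1) (2 * X + H), f m := by
            refine Finset.sum_le_sum_of_subset_of_nonneg ?_ fun m _ _ => hf m
            intro m hm
            rw [Finset.mem_Ico] at hm ⊢
            omega
          have := mul_le_mul_of_nonneg_left hcard hc.le
          linarith
      · have hih := ih (d - 1) (by omega) (a + 1) (by omega)
        have heq : E.filter (fun n => a ≤ n) = E.filter (fun n => a + 1 ≤ n) := by
          refine Finset.filter_congr fun n hn => ?_
          constructor
          · intro h2
            rcases Nat.lt_or_ge a n with h | h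
            · exact h
            · exfalso
              have : n = a := by omega
              exact haE (this ▸ hn)
          · intro h2
            omega
        rw [heq]
        refine hih.trans ?_
        refine Finset.sum_le_sum_of_subset_of_nonneg ?_ fun m _ _ => hf m
        intro m hm
        rw [Finset.mem_Ico] at hm ⊢
        omega

/-- The one-sided maximal inequality. -/
theorem maxi (f : ℕ → ℝ) (hf : ∀ m, 0 ≤ f m) {c : ℝ} (hc : 0 < c) (X H : ℕ) :
    c * (((Ico X (2 * X)).filter
      (fun n => ∃ k, 1 ≤ k ∧ k ≤ H ∧ c * k ≤ ∑ i ∈ Icc 1 k, f (n + i))).card : ℝ)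
      ≤ ∑ m ∈ Ico X (2 * X + H), f m := by
  have h := maxi_aux f hf hc X H X X (by ring)
  have heq : ((Ico X (2 * X)).filter
      (fun n => ∃ k, 1 ≤ k ∧ k ≤ H ∧ c * k ≤ ∑ i ∈ Icc 1 k, f (n + i))).filter
        (fun n => X ≤ n) = (Ico X (2 * X)).filter
      (fun n => ∃ k, 1 ≤ k ∧ k ≤ H ∧ c * k ≤ ∑ i ∈ Icc 1 k, f (n + i)) := by
    rw [Finset.filter_eq_self]
    intro n hn
    rw [Finset.mem_filter, Finset.mem_Ico] at hn
    exact hn.1.1
  rw [heq] at h
  refine h.trans ?_
  refine Finset.sum_le_sum_of_subset_of_nonneg ?_ fun m _ _ => hf m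
  intro m hm
  rw [Finset.mem_Ico] at hm ⊢
  omega

end EB
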