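import Pool.Agent.Helper85.EB.Defs
import Pool.Agent.Helper71.CP.M2

/-! Sums over primes (Mertens, Chebyshev). -/

set_option autoImplicit false

namespace EB

open Finset Filter
open scoped Classical

theorem pri_log4 : Real.log 4 ≤ 1.5 := by
  have h4 := Real.log_two_lt_d9
  have h5 : Real.log 4 = 2 * Real.log 2 := by
    rw [show (4 : ℝ) = 2 ^ 2 by norm_num, Real.log_pow]; norm_num
  rw [h5]; norm_num; linarith

theorem pri_icc (N : ℕ) : (Icc 1 N).filter Nat.Prime = Pool.Agent.Helper56.CP.PP N := by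
  ext p
  simp only [Pool.Agent.Helper56.CP.PP, mem_filter, mem_Icc, mem_range]
  constructor
  · rintro ⟨⟨h1, h2⟩, h3⟩
    exact ⟨by omega, h3⟩
  · rintro ⟨h1, h2⟩
    exact ⟨⟨h2.one_le, by omega⟩, h2⟩

theorem theta_le (N : ℕ) : ∑ p ∈ (Icc 1 N).filter Nat.Prime, Real.log p ≤ 2 * N := by
  have h := Chebyshev.theta_le_log4_mul_x (x := (N : ℝ)) (Nat.cast_nonneg N)
  have h1 : Chebyshev.theta (N : ℝ) = ∑ p ∈ (Icc 1 N).filter Nat.Prime, Real.log p := by
    rw [Chebyshev.theta, Nat.floor_natCast]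
    refine Finset.sum_congr ?_ (fun _ _ => rfl)
    ext p
    simp only [mem_filter, mem_Ioc, mem_Icc]
    constructor
    · rintro ⟨⟨h1, h2⟩, h3⟩
      exact ⟨⟨by omega, h2⟩, h3⟩
    · rintro ⟨⟨h1, h2⟩, h3⟩
      exact ⟨⟨by omega, h2⟩, h3⟩
  rw [← h1]
  have h2 := pri_log4
  have h3 : (0 : ℝ) ≤ N := Nat.cast_nonneg N
  nlinarith

theorem mert_up (N : ℕ) (hN : 1 ≤ N) :
    ∑ p ∈ (Icc 1 N).filter Nat.Prime, Real.log p / p ≤ Real.log N + 2 := by
  have h := Pool.Agent.Helper56.CP.mtA_le hN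
  rw [Pool.Agent.Helper56.CP.mtA, ← pri_icc] at h
  have h2 := pri_log4
  linarith

theorem mert_lo (N : ℕ) (hN : 1 ≤ N) :
    Real.log N - 4 ≤ ∑ p ∈ (Icc 1 N).filter Nat.Prime, Real.log p / p := by
  have h := Pool.Agent.Helper56.CP.mtA_ge hN
  rw [Pool.Agent.Helper56.CP.mtA, ← pri_icc] at h
  linarith

theorem win (y Z : ℕ) (hy : 2 ≤ y) (hyZ : y ≤ Z) :
    ∑ p ∈ (Ioc y Z).filter Nat.Prime, (1 : ℝ) / p
      ≤ (Real.log Z - Real.log y + 6) / Real.log y := by
  have hy' : (2 : ℝ) ≤ y := by exact_mod_cast hy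
  have hL : 0 < Real.log y := Real.log_pos (by linarith)
  rw [le_div_iff₀ hL]
  have h1 := mert_up Z (by omega)
  have h2 := mert_lo y (by omega)
  have hs : ∑ p ∈ (Icc 1 Z).filter Nat.Prime, Real.log p / p =
      ∑ p ∈ (Icc 1 y).filter Nat.Prime, Real.log p / p +
      ∑ p ∈ (Ioc y Z).filter Nat.Prime, Real.log p / p := by
    rw [← Finset.sum_union]
    · refine Finset.sum_congr ?_ (fun _ _ => rfl)
      ext p
      simp only [mem_union, mem_filter, mem_Ioc, mem_Icc]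
      constructor
      · rintro ⟨⟨h1, h2⟩, h3⟩
        by_cases h : p ≤ y
        · exact Or.inl ⟨⟨h1, h⟩, h3⟩
        · exact Or.inr ⟨⟨by omega, h2⟩, h3⟩
      · rintro (⟨⟨h1, h2⟩, h3⟩ | ⟨⟨h1, h2⟩, h3⟩)
        · exact ⟨⟨h1, by omega⟩, h3⟩
        · exact ⟨⟨by omega, h2⟩, h3⟩
    · rw [Finset.disjoint_left]
      intro p hp hq
      simp only [mem_filter, mem_Ioc, mem_Icc] at hp hq
      omega
  have h3 : (∑ p ∈ (Ioc y Z).filter Nat.Prime, (1 : ℝ) / p) * Real.log y ≤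
      ∑ p ∈ (Ioc y Z).filter Nat.Prime, Real.log p / p := by
    rw [Finset.sum_mul]
    refine Finset.sum_le_sum (fun p hp => ?_)
    simp only [mem_filter, mem_Ioc] at hp
    have hp0 : (0 : ℝ) < p := by exact_mod_cast hp.2.pos
    have h4 : Real.log y ≤ Real.log p := Real.log_le_log (by linarith) (by exact_mod_cast hp.1.1.le)
    rw [one_div, div_eq_inv_mul]
    exact mul_le_mul_of_nonneg_left h4 (by positivity)
  linarith

theorem pi_le (N : ℕ) (hN : 2 ≤ N) :
    (((Icc 1 N).filter Nat.Prime).card : ℝ) ≤ 10 * N / Real.log N := by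
  have hN' : (2 : ℝ) ≤ N := by exact_mod_cast hN
  have hL : 0 < Real.log N := Real.log_pos (by linarith)
  rw [le_div_iff₀ hL]
  set s : ℝ := √(N : ℝ) with hs
  have hs0 : 0 < s := Real.sqrt_pos.2 (by linarith)
  have hs2 : s * s = N := Real.mul_self_sqrt (by linarith)
  have hlogs : Real.log s = Real.log N / 2 := by rw [hs, Real.log_sqrt (by linarith)]
  have h1 : ((Icc 1 N).filter Nat.Prime).card ≤
      ((Icc 1 N).filter (fun p : ℕ => (p : ℝ) ≤ s)).card +
      ((Icc 1 N).filter (fun p : ℕ => p.Prime ∧ s < p)).card := by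
    rw [← Finset.card_union_of_disjoint]
    · refine Finset.card_le_card (fun p hp => ?_)
      simp only [mem_union, mem_filter] at hp ⊢
      by_cases h : (p : ℝ) ≤ s
      · exact Or.inl ⟨hp.1, h⟩
      · exact Or.inr ⟨hp.1, hp.2, not_le.1 h⟩
    · rw [Finset.disjoint_left]
      intro p hp hq
      simp only [mem_filter] at hp hq
      linarith [hp.2, hq.2.2]
  have h2 : (((Icc 1 N).filter (fun p : ℕ => (p : ℝ) ≤ s)).card : ℝ) ≤ s := by
    have h3 : (Icc 1 N).filter (fun p : ℕ => (p : ℝ) ≤ s) ⊆ Icc 1 ⌊s⌋₊ := by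
      intro p hp
      simp only [mem_filter, mem_Icc] at hp ⊢
      exact ⟨hp.1.1, Nat.le_floor hp.2⟩
    have h4 := Finset.card_le_card h3
    rw [Nat.card_Icc] at h4
    have h5 : (((Icc 1 N).filter (fun p : ℕ => (p : ℝ) ≤ s)).card : ℝ) ≤ (⌊s⌋₊ : ℝ) := by
      exact_mod_cast (by omega : _ ≤ ⌊s⌋₊)
    exact h5.trans (Nat.floor_le hs0.le)
  have h3 : (((Icc 1 N).filter (fun p : ℕ => p.Prime ∧ s < p)).card : ℝ) * (Real.log N / 2) ≤
      2 * N := by
    refine le_trans ?_ (theta_le N)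
    rw [← hlogs, ← nsmul_eq_mul]
    refine le_trans (Finset.card_nsmul_le_sum _ (fun p : ℕ => Real.log p) _ (fun p hp => ?_)) ?_
    · simp only [mem_filter] at hp
      exact Real.log_le_log hs0 hp.2.2.le
    · refine Finset.sum_le_sum_of_subset_of_nonneg (fun p hp => ?_)
        (fun p _ _ => Real.log_natCast_nonneg p)
      simp only [mem_filter] at hp ⊢
      exact ⟨hp.1, hp.2.1⟩
  have h4 : s * Real.log N ≤ 2 * N := by
    have h5 := Real.log_le_sub_one_of_pos hs0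
    rw [hlogs] at h5
    nlinarith
  have h5 : (((Icc 1 N).filter Nat.Prime).card : ℝ) ≤
      (((Icc 1 N).filter (fun p : ℕ => (p : ℝ) ≤ s)).card : ℝ) +
      (((Icc 1 N).filter (fun p : ℕ => p.Prime ∧ s < p)).card : ℝ) := by exact_mod_cast h1
  have h6 := mul_le_mul_of_nonneg_right h5 hL.le
  have h7 := mul_le_mul_of_nonneg_right h2 hL.le
  have h8 : (0 : ℝ) < N := by linarith
  nlinarith

end EB
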