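import Pool.Agent.Helper85.EB.Defs
import Pool.Agent.Helper85.EB.Pri

/-! Row VSC: numbers `s p q` with small `s`. -/

set_option autoImplicit false

namespace EB

open Finset Filter
open scoped Classical

theorem vsc_harm (S : ℕ) : ∑ s ∈ Icc 1 S, (1 : ℝ) / s ≤ 1 + Real.log S := by
  have h1 := harmonic_le_one_add_log S
  rw [harmonic_eq_sum_Icc] at h1
  push_cast at h1
  simpa only [one_div] using h1

theorem vsc_ev (a : ℝ) (ha : 0 < a) (C : ℝ) : ∃ N : ℕ, ∀ X : ℕ, N ≤ X → C ≤ (X : ℝ) ^ a := by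
  have h1 : Tendsto (fun X : ℕ => (X : ℝ) ^ a) atTop atTop :=
    (tendsto_rpow_atTop ha).comp tendsto_natCast_atTop_atTop
  exact eventually_atTop.1 (h1.eventually_ge_atTop C)

theorem vsc_ev' (C : ℝ) : ∃ N : ℕ, ∀ X : ℕ, N ≤ X → C ≤ Real.log X := by
  have h1 : Tendsto (fun X : ℕ => Real.log X) atTop atTop :=
    Real.tendsto_log_atTop.comp tendsto_natCast_atTop_atTop
  exact eventually_atTop.1 (h1.eventually_ge_atTop C)

theorem vset_C (c : ℝ) (hc : 0 < c) (hc' : c ≤ 1 / 100) : ∃ X₀ : ℕ, ∀ X : ℕ, X₀ ≤ X →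
    (((Ico X (3 * X)).filter (fun m => ∃ s p q : ℕ, 1 ≤ s ∧ (s : ℝ) ≤ (X : ℝ) ^ √c ∧ p.Prime ∧
      q.Prime ∧ (X : ℝ) ^ ((2 : ℝ) / 5) < p ∧ p ≤ q ∧ m = s * p * q)).card : ℝ)
      ≤ 400 * √c * X := by
  have hsc : 0 < √c := Real.sqrt_pos.2 hc
  obtain ⟨N1, hN1⟩ := vsc_ev' (max 30 (1 / √c))
  obtain ⟨N2, hN2⟩ := vsc_ev (2 / 5) (by norm_num) 4
  refine ⟨max (max N1 N2) 1, ?_⟩
  intro X hX
  have hX1 : 1 ≤ X := le_trans (le_max_right _ _) hX
  have hXr : (1 : ℝ) ≤ X := by exact_mod_cast hX1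
  have hX0 : (0 : ℝ) < X := by linarith
  have hL30 : 30 ≤ Real.log X :=
    (le_max_left _ _).trans (hN1 X (le_trans (le_trans (le_max_left _ _) (le_max_left _ _)) hX))
  have hLc : 1 / √c ≤ Real.log X :=
    (le_max_right _ _).trans (hN1 X (le_trans (le_trans (le_max_left _ _) (le_max_left _ _)) hX))
  have hX4 : 4 ≤ (X : ℝ) ^ ((2 : ℝ) / 5) :=
    hN2 X (le_trans (le_trans (le_max_right _ _) (le_max_left _ _)) hX)
  have hcL : 1 ≤ √c * Real.log X := by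
    rw [div_le_iff₀ hsc] at hLc
    linarith
  set L := Real.log X with hL
  have hL0 : 0 < L := by linarith
  set y := ⌊(X : ℝ) ^ ((2 : ℝ) / 5)⌋₊ with hy
  set Z := Nat.sqrt (3 * X) with hZ
  set S := ⌊(X : ℝ) ^ √c⌋₊ with hS
  have hy4 : 4 ≤ y := Nat.le_floor (by exact_mod_cast hX4)
  have hyle : (y : ℝ) ≤ (X : ℝ) ^ ((2 : ℝ) / 5) := Nat.floor_le (by positivity)
  have hylt : (X : ℝ) ^ ((2 : ℝ) / 5) < y + 1 := Nat.lt_floor_add_one _
  have hyhalf : (X : ℝ) ^ ((2 : ℝ) / 5) / 2 ≤ y := by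
    have : (4 : ℝ) ≤ y := by exact_mod_cast hy4
    linarith
  have hlogy : 2 / 5 * L - 1 ≤ Real.log y := by
    have h1 : Real.log ((X : ℝ) ^ ((2 : ℝ) / 5) / 2) ≤ Real.log y :=
      Real.log_le_log (by positivity) hyhalf
    rw [Real.log_div (by positivity) (by norm_num), Real.log_rpow hX0] at h1
    have h2 : Real.log 2 < 1 := by
      have := Real.log_two_lt_d9
      linarith
    linarith
  have hyX : y ≤ Z := by
    apply Nat.le_sqrt'.2
    have h1 : (y : ℝ) ^ 2 ≤ 3 * X := by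
      have h2 : (y : ℝ) ^ 2 ≤ ((X : ℝ) ^ ((2 : ℝ) / 5)) ^ 2 :=
        pow_le_pow_left₀ (Nat.cast_nonneg _) hyle 2
      have h3 : ((X : ℝ) ^ ((2 : ℝ) / 5)) ^ 2 ≤ X := by
        rw [← Real.rpow_natCast ((X : ℝ) ^ ((2 : ℝ) / 5)) 2, ← Real.rpow_mul hX0.le]
        calc (X : ℝ) ^ ((2 : ℝ) / 5 * ((2 : ℕ) : ℝ)) ≤ (X : ℝ) ^ (1 : ℝ) :=
              Real.rpow_le_rpow_of_exponent_le hXr (by norm_num)
          _ = X := Real.rpow_one _
      linarith
    exact_mod_cast h1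
  have hlogZ : Real.log Z ≤ L / 2 + 1 := by
    have hZ1 : 1 ≤ Z := by omega
    have h1 : (Z : ℝ) ^ 2 ≤ 3 * X := by exact_mod_cast Nat.sqrt_le' (3 * X)
    have h2 : Real.log ((Z : ℝ) ^ 2) ≤ Real.log (3 * X) := by
      apply Real.log_le_log _ h1
      have : (0 : ℝ) < Z := by exact_mod_cast hZ1
      positivity
    rw [Real.log_pow, Real.log_mul (by norm_num) hX0.ne'] at h2
    have h3 : Real.log 3 ≤ 2 := by
      have h4 : Real.log 3 ≤ 3 - 1 := Real.log_le_sub_one_of_pos (by norm_num)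
      linarith
    push_cast at h2
    linarith
  have hP : ∑ p ∈ (Ioc y Z).filter Nat.Prime, (1 : ℝ) / p ≤ 1 := by
    refine (win y Z (by omega) hyX).trans ?_
    rw [div_le_one (by linarith)]
    linarith
  have hSle : Real.log S ≤ √c * L := by
    rcases Nat.eq_zero_or_pos S with h0 | h0
    · rw [h0, Nat.cast_zero, Real.log_zero]
      positivity
    · have h1 : Real.log S ≤ Real.log ((X : ℝ) ^ √c) :=
        Real.log_le_log (by exact_mod_cast h0) (Nat.floor_le (by positivity))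
      rwa [Real.log_rpow hX0] at h1
  have hH : ∑ s ∈ Icc 1 S, (1 : ℝ) / s ≤ 2 * (√c * L) := by
    have := vsc_harm S
    linarith
  -- the primes `q`
  have hq : ∀ s p : ℕ, 1 ≤ s → 1 ≤ p → (X : ℝ) ^ ((2 : ℝ) / 5) < ((3 * X / (s * p) : ℕ) : ℝ) →
      ((((Icc 1 (3 * X / (s * p))).filter Nat.Prime).card : ℕ) : ℝ)
        ≤ 75 * X / L * (1 / s * (1 / p)) := by
    intro s p hs hp hN
    set N := 3 * X / (s * p) with hNdef
    have hs0 : (0 : ℝ) < s := by exact_mod_cast hs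
    have hp0 : (0 : ℝ) < p := by exact_mod_cast hp
    have hN2 : 2 ≤ N := by
      have : (2 : ℝ) < N := by linarith
      exact_mod_cast this.le
    have hNle : (N : ℝ) ≤ 3 * X / (s * p) := by
      have h1 : ((3 * X / (s * p) : ℕ) : ℝ) ≤ ((3 * X : ℕ) : ℝ) / ((s * p : ℕ) : ℝ) :=
        Nat.cast_div_le
      push_cast at h1
      exact_mod_cast h1
    have hlogN : 2 / 5 * L ≤ Real.log N := by
      have h1 : Real.log ((X : ℝ) ^ ((2 : ℝ) / 5)) ≤ Real.log N :=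
        Real.log_le_log (by positivity) hN.le
      rwa [Real.log_rpow hX0] at h1
    calc (((Icc 1 N).filter Nat.Prime).card : ℝ) ≤ 10 * N / Real.log N := pi_le N hN2
      _ ≤ 10 * (3 * X / (s * p)) / (2 / 5 * L) := by
          apply div_le_div₀ (by positivity) (by linarith) (by positivity) hlogN
      _ = 75 * X / L * (1 / s * (1 / p)) := by
          field_simp
          ring
  set Q : ℕ → ℕ → Finset ℕ := fun s p =>
    if (X : ℝ) ^ ((2 : ℝ) / 5) < ((3 * X / (s * p) : ℕ) : ℝ) then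
      (Icc 1 (3 * X / (s * p))).filter Nat.Prime else ∅ with hQdef
  have hQ : ∀ s p : ℕ, 1 ≤ s → 1 ≤ p → ((Q s p).card : ℝ) ≤ 75 * X / L * (1 / s * (1 / p)) := by
    intro s p hs hp
    rw [hQdef]
    dsimp only
    split_ifs with h
    · exact hq s p hs hp h
    · rw [card_empty, Nat.cast_zero]
      positivity
  have hsub : (Ico X (3 * X)).filter (fun m => ∃ s p q : ℕ, 1 ≤ s ∧ (s : ℝ) ≤ (X : ℝ) ^ √c ∧
      p.Prime ∧ q.Prime ∧ (X : ℝ) ^ ((2 : ℝ) / 5) < p ∧ p ≤ q ∧ m = s * p * q)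
      ⊆ (Icc 1 S).biUnion fun s => ((Ioc y Z).filter Nat.Prime).biUnion fun p =>
        (Q s p).image fun q => s * p * q := by
    intro m hm
    obtain ⟨hmI, s, p, q, hs, hsX, hp, hq', hpX, hpq, hmm⟩ := mem_filter.1 hm
    obtain ⟨hm1, hm2⟩ := mem_Ico.1 hmI
    refine mem_biUnion.2 ⟨s, mem_Icc.2 ⟨hs, Nat.le_floor hsX⟩, mem_biUnion.2 ⟨p,
      mem_filter.2 ⟨mem_Ioc.2 ⟨?_, ?_⟩, hp⟩, mem_image.2 ⟨q, ?_, hmm.symm⟩⟩⟩
    · have : (y : ℝ) < p := lt_of_le_of_lt hyle hpX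
      exact_mod_cast this
    · apply Nat.le_sqrt'.2
      calc p ^ 2 = 1 * (p * p) := by ring
        _ ≤ s * (p * q) := Nat.mul_le_mul hs (Nat.mul_le_mul_left p hpq)
        _ = m := by rw [hmm]; ring
        _ ≤ 3 * X := hm2.le
    · have hqN : q ≤ 3 * X / (s * p) := by
        rw [Nat.le_div_iff_mul_le (Nat.mul_pos hs hp.pos)]
        calc q * (s * p) = m := by rw [hmm]; ring
          _ ≤ 3 * X := hm2.le
      have hlt : (X : ℝ) ^ ((2 : ℝ) / 5) < ((3 * X / (s * p) : ℕ) : ℝ) := by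
        refine lt_of_lt_of_le hpX ?_
        exact_mod_cast hpq.trans hqN
      rw [hQdef]
      dsimp only
      rw [if_pos hlt]
      exact mem_filter.2 ⟨mem_Icc.2 ⟨hq'.one_lt.le, hqN⟩, hq'⟩
  have hcard : (((Icc 1 S).biUnion fun s => ((Ioc y Z).filter Nat.Prime).biUnion fun p =>
        (Q s p).image fun q => s * p * q).card : ℝ)
      ≤ ∑ s ∈ Icc 1 S, ∑ p ∈ (Ioc y Z).filter Nat.Prime, 75 * X / L * (1 / s * (1 / p)) := by
    have h1 : ((Icc 1 S).biUnion fun s => ((Ioc y Z).filter Nat.Prime).biUnion fun p =>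
        (Q s p).image fun q => s * p * q).card
        ≤ ∑ s ∈ Icc 1 S, ∑ p ∈ (Ioc y Z).filter Nat.Prime, (Q s p).card := by
      refine card_biUnion_le.trans (sum_le_sum fun s _ => ?_)
      exact card_biUnion_le.trans (sum_le_sum fun p _ => card_image_le)
    have h2 := (Nat.cast_le (α := ℝ)).2 h1
    refine h2.trans ?_
    push_cast
    refine sum_le_sum fun s hs => sum_le_sum fun p hp => ?_
    exact hQ s p (mem_Icc.1 hs).1 (mem_filter.1 hp).2.one_lt.le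
  have hfin : ∑ s ∈ Icc 1 S, ∑ p ∈ (Ioc y Z).filter Nat.Prime, 75 * X / L * (1 / s * (1 / p))
      = 75 * X / L * ((∑ s ∈ Icc 1 S, (1 : ℝ) / s)
        * ∑ p ∈ (Ioc y Z).filter Nat.Prime, (1 : ℝ) / p) := by
    rw [Finset.sum_mul_sum, Finset.mul_sum]
    refine sum_congr rfl fun s _ => ?_
    rw [Finset.mul_sum]
  have hbound : (∑ s ∈ Icc 1 S, (1 : ℝ) / s) * ∑ p ∈ (Ioc y Z).filter Nat.Prime, (1 : ℝ) / p
      ≤ 2 * (√c * L) * 1 :=
    mul_le_mul hH hP (sum_nonneg fun p _ => by positivity) (by positivity)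
  have hc1 := (Nat.cast_le (α := ℝ)).2 (card_le_card hsub)
  calc _ ≤ _ := hc1
    _ ≤ _ := hcard
    _ = _ := hfin
    _ ≤ 75 * X / L * (2 * (√c * L) * 1) := mul_le_mul_of_nonneg_left hbound (by positivity)
    _ = 150 * √c * X := by
        field_simp
        ring
    _ ≤ 400 * √c * X := by
        have : 0 ≤ √c * X := by positivity
        nlinarith

end EB
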