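import Pool.Agent.Helper85.EB.Vsa
import Pool.Agent.Helper85.EB.Vsc

/-! Row VSET: integers without prime factors in a long window (MP_b6eca7_nt). -/

set_option autoImplicit false

namespace EB

open Finset Filter
open scoped Classical

/-- the smooth part and the rough part of `m` -/
theorem vs_split (Y m : ℕ) (hm : 1 ≤ m) : ∃ s t : ℕ, m = s * t ∧ 1 ≤ s ∧ 1 ≤ t ∧
    Real.log s = gg Y m ∧ ∀ q : ℕ, q.Prime → q ∣ t → q ∣ m ∧ Y < q := by
  have hm0 : m ≠ 0 := by omega
  set s := ∏ p ∈ (Icc 1 Y).filter Nat.Prime, p ^ (m.factorization p) with hs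
  set t := ∏ p ∈ m.primeFactors.filter (fun p => ¬ p ≤ Y), p ^ (m.factorization p) with ht
  have hs' : s = ∏ p ∈ m.primeFactors.filter (fun p => p ≤ Y), p ^ (m.factorization p) := by
    rw [hs]
    symm
    apply prod_subset
    · intro p hp
      rw [mem_filter, Nat.mem_primeFactors] at hp
      rw [mem_filter, mem_Icc]
      exact ⟨⟨hp.1.1.one_lt.le, hp.2⟩, hp.1.1⟩
    · intro p hp hp'
      rw [mem_filter, mem_Icc] at hp
      have : m.factorization p = 0 := by
        apply Nat.factorization_eq_zero_of_not_dvd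
        intro hd
        exact hp' (mem_filter.2 ⟨Nat.mem_primeFactors.2 ⟨hp.2, hd, hm0⟩, hp.1.2⟩)
      rw [this, pow_zero]
  have hmst : m = s * t := by
    rw [hs', ht, prod_filter_mul_prod_filter_not]
    exact (Nat.prod_factorization_pow_eq_self hm0).symm
  have hs1 : 1 ≤ s := Nat.pos_of_ne_zero (by
    intro h
    rw [h, zero_mul] at hmst
    exact hm0 hmst)
  have ht1 : 1 ≤ t := Nat.pos_of_ne_zero (by
    intro h
    rw [h, mul_zero] at hmst
    exact hm0 hmst)
  refine ⟨s, t, hmst, hs1, ht1, ?_, ?_⟩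
  · rw [hs]
    push_cast
    rw [Real.log_prod]
    · unfold gg
      apply sum_congr rfl
      intro p _
      rw [Real.log_pow]
    · intro p hp
      have := (mem_filter.1 hp).2.pos
      positivity
  · intro q hq hqt
    refine ⟨hmst ▸ Dvd.dvd.mul_left hqt s, ?_⟩
    rw [ht] at hqt
    obtain ⟨p, hp, hqp⟩ := (hq.prime.dvd_finsetProd_iff _).1 hqt
    rw [mem_filter, Nat.mem_primeFactors] at hp
    have : q = p := (Nat.prime_dvd_prime_iff_eq hq hp.1.1).1 (hq.dvd_of_dvd_pow hqp)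
    rw [this]
    omega

theorem vset (η : ℝ) (hη : 0 < η) : ∃ c : ℝ, 0 < c ∧ c ≤ 1 / 100 ∧ ∃ X₀ : ℕ, ∀ X y : ℕ, X₀ ≤ X →
    (X : ℝ) ^ ((2 : ℝ) / 5) ≤ y →
    (((Ico X (3 * X)).filter (fun m => ∀ p : ℕ, p.Prime → p ∣ m →
      (p : ℝ) ≤ (X : ℝ) ^ c ∨ y < p)).card : ℝ) ≤ η * X := by
  set c := min (1 / 100) ((η / 504) ^ 2) with hcdef
  have hc : 0 < c := lt_min (by norm_num) (by positivity)
  have hc' : c ≤ 1 / 100 := min_le_left _ _
  have hsc : 0 < √c := Real.sqrt_pos.2 hc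
  have hsη : √c ≤ η / 504 := by
    have h1 : √c ≤ √((η / 504) ^ 2) := Real.sqrt_le_sqrt (min_le_right _ _)
    rwa [Real.sqrt_sq (by positivity)] at h1
  have hsc' : √c ≤ 1 / 10 := by
    rw [show (1 : ℝ) / 10 = √(1 / 100) by
      rw [show (1 : ℝ) / 100 = (1 / 10) ^ 2 by norm_num, Real.sqrt_sq (by norm_num)]]
    exact Real.sqrt_le_sqrt hc'
  refine ⟨c, hc, hc', ?_⟩
  obtain ⟨XA, hA⟩ := vset_A c hc hc'
  obtain ⟨XB, hB⟩ := vset_B c hc hc'
  obtain ⟨XC, hC⟩ := vset_C c hc hc'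
  obtain ⟨XL, hXL2, hXL⟩ := vs_log_ge (5 * Real.log 3 + 1)
  refine ⟨max (max XA XB) (max XC XL), fun X y hX hy => ?_⟩
  have hXA : XA ≤ X := le_trans (le_trans (le_max_left _ _) (le_max_left _ _)) hX
  have hXB : XB ≤ X := le_trans (le_trans (le_max_right _ _) (le_max_left _ _)) hX
  have hXC : XC ≤ X := le_trans (le_trans (le_max_left _ _) (le_max_right _ _)) hX
  have hXL' : XL ≤ X := le_trans (le_trans (le_max_right _ _) (le_max_right _ _)) hX
  have hX2 : 2 ≤ X := le_trans hXL2 hXL'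
  have hXr : (2 : ℝ) ≤ X := by exact_mod_cast hX2
  have hL := hXL X hXL'
  have hlog3 : 0 < Real.log 3 := Real.log_pos (by norm_num)
  have hLpos : 0 < Real.log X := by linarith
  -- 3 X < X ^ (6/5)
  have h65 : 3 * (X : ℝ) < (X : ℝ) ^ ((6 : ℝ) / 5) := by
    rw [← Real.log_lt_log_iff (by positivity) (by positivity), Real.log_rpow (by linarith),
      Real.log_mul (by norm_num) (by linarith)]
    linarith
  have hcov : (Ico X (3 * X)).filter (fun m => ∀ p : ℕ, p.Prime → p ∣ m →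
      (p : ℝ) ≤ (X : ℝ) ^ c ∨ y < p) ⊆
      (Ico X (3 * X)).filter (fun m => √c * Real.log X ≤ gg ⌊(X : ℝ) ^ c⌋₊ m) ∪
      ((Ico X (3 * X)).filter (fun m => ∃ s p : ℕ, 1 ≤ s ∧ (s : ℝ) ≤ (X : ℝ) ^ √c ∧ p.Prime ∧
        m = s * p) ∪
      (Ico X (3 * X)).filter (fun m => ∃ s p q : ℕ, 1 ≤ s ∧ (s : ℝ) ≤ (X : ℝ) ^ √c ∧ p.Prime ∧
        q.Prime ∧ (X : ℝ) ^ ((2 : ℝ) / 5) < p ∧ p ≤ q ∧ m = s * p * q)) := by
    intro m hm
    obtain ⟨hm1, hm2⟩ := mem_filter.1 hm
    by_cases hbig : √c * Real.log X ≤ gg ⌊(X : ℝ) ^ c⌋₊ m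
    · exact mem_union_left _ (mem_filter.2 ⟨hm1, hbig⟩)
    apply mem_union_right
    push Not at hbig
    have hm3 := mem_Ico.1 hm1
    obtain ⟨s, t, hmst, hs1, ht1, hlogs, hq⟩ := vs_split ⌊(X : ℝ) ^ c⌋₊ m (by omega)
    have hqy : ∀ q : ℕ, q.Prime → q ∣ t → (X : ℝ) ^ ((2 : ℝ) / 5) < q := by
      intro q hqp hqt
      obtain ⟨h1, h2⟩ := hq q hqp hqt
      rcases hm2 q hqp h1 with h3 | h3
      · exfalso
        have := Nat.le_floor h3
        omega
      · calc (X : ℝ) ^ ((2 : ℝ) / 5) ≤ y := hy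
          _ < q := by exact_mod_cast h3
    have hsX : (s : ℝ) ≤ (X : ℝ) ^ √c := by
      rw [← Real.log_le_log_iff (by positivity) (by positivity), Real.log_rpow (by linarith), hlogs]
      exact hbig.le
    have ht_ne : t ≠ 1 := by
      intro h
      rw [h, mul_one] at hmst
      have h1 : Real.log X ≤ Real.log m := Real.log_le_log (by linarith) (by exact_mod_cast hm3.1)
      rw [hmst, hlogs] at h1
      nlinarith
    have hp := Nat.minFac_prime ht_ne
    obtain ⟨t1, ht1'⟩ := Nat.minFac_dvd t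
    set p := t.minFac with hpdef
    have hpt : p ∣ t := Nat.minFac_dvd t
    by_cases h1 : t1 = 1
    · apply mem_union_left
      refine mem_filter.2 ⟨hm1, s, p, hs1, hsX, hp, ?_⟩
      rw [hmst, ht1', h1, mul_one]
    have hq1 := Nat.minFac_prime h1
    obtain ⟨t2, ht2⟩ := Nat.minFac_dvd t1
    set q := t1.minFac with hqdef
    have hqt : q ∣ t := by
      rw [ht1']
      exact Dvd.dvd.mul_left (Nat.minFac_dvd t1) p
    have hpq : p ≤ q := Nat.minFac_le_of_dvd hq1.two_le hqt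
    by_cases h2 : t2 = 1
    · apply mem_union_right
      refine mem_filter.2 ⟨hm1, s, p, q, hs1, hsX, hp, hq1, hqy p hp hpt, hpq, ?_⟩
      rw [hmst, ht1', ht2, h2, mul_one]
      ring
    exfalso
    have hr := Nat.minFac_prime h2
    have hrt : t2.minFac ∣ t := by
      rw [ht1', ht2]
      exact Dvd.dvd.mul_left (Dvd.dvd.mul_left (Nat.minFac_dvd t2) q) p
    have ht2pos : 0 < t2 := by
      rcases Nat.eq_zero_or_pos t2 with h | h
      · rw [h, mul_zero] at ht2
        rw [ht2, mul_zero] at ht1'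
        omega
      · exact h
    have hrle : t2.minFac ≤ t2 := Nat.minFac_le ht2pos
    have ha := hqy p hp hpt
    have hb := hqy q hq1 hqt
    have hcc := hqy _ hr hrt
    have hX0 : (0 : ℝ) ≤ (X : ℝ) ^ ((2 : ℝ) / 5) := by positivity
    have hmul : (X : ℝ) ^ ((6 : ℝ) / 5) ≤ m := by
      have e1 : (X : ℝ) ^ ((6 : ℝ) / 5)
          = (X : ℝ) ^ ((2 : ℝ) / 5) * ((X : ℝ) ^ ((2 : ℝ) / 5) * (X : ℝ) ^ ((2 : ℝ) / 5)) := by
        rw [← Real.rpow_add (by linarith), ← Real.rpow_add (by linarith)]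
        norm_num
      rw [e1]
      have e2 : (m : ℝ) = s * (p * (q * t2)) := by
        rw [hmst, ht1', ht2]
        push_cast
        ring
      have e3 : (t2.minFac : ℝ) ≤ t2 := by exact_mod_cast hrle
      have e4 : (X : ℝ) ^ ((2 : ℝ) / 5) * ((X : ℝ) ^ ((2 : ℝ) / 5) * (X : ℝ) ^ ((2 : ℝ) / 5))
          ≤ p * (q * t2) := by
        gcongr
        linarith
      have e5 : (1 : ℝ) ≤ s := by exact_mod_cast hs1
      rw [e2]
      have e6 : (0 : ℝ) ≤ (p : ℝ) * (q * t2) := by positivity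
      nlinarith
    have : (m : ℝ) < 3 * X := by exact_mod_cast hm3.2
    linarith
  calc (((Ico X (3 * X)).filter (fun m => ∀ p : ℕ, p.Prime → p ∣ m →
        (p : ℝ) ≤ (X : ℝ) ^ c ∨ y < p)).card : ℝ)
      ≤ 4 * √c * X + (100 * √c * X + 400 * √c * X) := by
        have h1 := card_le_card hcov
        have h2 := h1.trans (card_union_le _ _)
        have h3 := h2.trans (Nat.add_le_add_left (card_union_le _ _) _)
        have h4 : ((((Ico X (3 * X)).filter (fun m => ∀ p : ℕ, p.Prime → p ∣ m →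
            (p : ℝ) ≤ (X : ℝ) ^ c ∨ y < p)).card : ℕ) : ℝ) ≤ _ := Nat.cast_le.2 h3
        refine le_trans h4 ?_
        push_cast
        have a1 := hA X hXA
        have a2 := hB X hXB
        have a3 := hC X hXC
        linarith
    _ = 504 * √c * X := by ring
    _ ≤ η * X := by
        apply mul_le_mul_of_nonneg_right _ (by positivity)
        linarith

end EB
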