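import Pool.Agent.Helper85.EB.Defs
import Pool.Agent.Helper85.EB.Pri

/-! Integers with a prime factor in `(X ^ (1/2 - κ), X ^ (1/2 + κ)]`. -/

set_option autoImplicit false

namespace EB

open Finset Filter
open scoped Classical

theorem wset_mul (a b d : ℕ) (hd : 1 ≤ d) :
    ((Ico a b).filter (fun m => d ∣ m)).card ≤ (b - a) / d + 1 := by
  refine (Finset.card_le_card_of_injOn (t := range ((b - a) / d + 1))
    (fun m => (m - a) / d) ?_ ?_).trans (by rw [Finset.card_range])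
  · intro m hm
    have hm' : m ∈ (Ico a b).filter (fun m => d ∣ m) := by exact_mod_cast hm
    rw [mem_filter, mem_Ico] at hm'
    have h1 : (m - a) / d ≤ (b - a) / d := Nat.div_le_div_right (by omega)
    have h2 : (m - a) / d < (b - a) / d + 1 := by omega
    exact_mod_cast Finset.mem_range.2 h2
  · have key : ∀ m m' : ℕ, a ≤ m → d ∣ m → d ∣ m' → m < m' → (m - a) / d < (m' - a) / d := by
      intro m m' h1 h2 h3 h4
      have h5 : d ∣ m' - m := Nat.dvd_sub h3 h2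
      have h6 : d ≤ m' - m := Nat.le_of_dvd (by omega) h5
      have h7 : (m - a) + d ≤ m' - a := by omega
      have h8 : ((m - a) + d) / d ≤ (m' - a) / d := Nat.div_le_div_right h7
      rw [Nat.add_div_right _ (by omega)] at h8
      omega
    intro m hm m' hm' he
    have hm1 : m ∈ (Ico a b).filter (fun m => d ∣ m) := by exact_mod_cast hm
    have hm2 : m' ∈ (Ico a b).filter (fun m => d ∣ m) := by exact_mod_cast hm'
    rw [mem_filter, mem_Ico] at hm1 hm2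
    have he' : (m - a) / d = (m' - a) / d := he
    rcases lt_trichotomy m m' with h | h | h
    · have := key m m' hm1.1.1 hm1.2 hm2.2 h
      omega
    · exact h
    · have := key m' m hm2.1.1 hm2.2 hm1.2 h
      omega

theorem wset (η : ℝ) (hη : 0 < η) : ∃ κ₀ : ℝ, 0 < κ₀ ∧ ∀ κ : ℝ, 0 < κ → κ ≤ κ₀ →
    ∃ X₀ : ℕ, ∀ X : ℕ, X₀ ≤ X →
    (((Ico X (3 * X)).filter (fun m => ∃ p : ℕ, p.Prime ∧ p ∣ m ∧
      ⌊(X : ℝ) ^ (1 / 2 - κ)⌋₊ < p ∧ (p : ℝ) ≤ (X : ℝ) ^ (1 / 2 + κ))).card : ℝ) ≤ η * X := by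
  refine ⟨min (η / 20) (1 / 10), by positivity, fun κ hκ hκ0 => ?_⟩
  have hκ1 : κ ≤ η / 20 := hκ0.trans (min_le_left _ _)
  have hκ2 : κ ≤ 1 / 10 := hκ0.trans (min_le_right _ _)
  have e1 : ∀ᶠ X : ℕ in atTop, 14 / κ + 20 ≤ Real.log X :=
    (Real.tendsto_log_atTop.comp tendsto_natCast_atTop_atTop).eventually_ge_atTop _
  have e2 : ∀ᶠ X : ℕ in atTop, 1 / κ ≤ (X : ℝ) ^ (2 / 5 : ℝ) :=
    ((tendsto_rpow_atTop (by norm_num)).comp tendsto_natCast_atTop_atTop).eventually_ge_atTop _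
  obtain ⟨X₀, hX₀⟩ := eventually_atTop.1 (e1.and e2)
  refine ⟨max 2 X₀, fun X hX => ?_⟩
  obtain ⟨h1, h2⟩ := hX₀ X ((le_max_right _ _).trans hX)
  have hX2 : (2 : ℝ) ≤ X := by exact_mod_cast (le_max_left _ _).trans hX
  have hXpos : (0 : ℝ) < X := by linarith
  set L : ℝ := Real.log X with hL
  have hk14 : 0 < 14 / κ := by positivity
  have hL20 : 20 ≤ L := by linarith
  have hκL : 14 ≤ κ * L := by
    have : 14 / κ ≤ L := by linarith
    rw [div_le_iff₀ hκ] at this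
    linarith
  set A : ℝ := (X : ℝ) ^ (1 / 2 - κ) with hA
  set B : ℝ := (X : ℝ) ^ (1 / 2 + κ) with hB
  have hApos : 0 < A := Real.rpow_pos_of_pos hXpos _
  have hBpos : 0 < B := Real.rpow_pos_of_pos hXpos _
  have hlogA : Real.log A = (1 / 2 - κ) * L := Real.log_rpow hXpos _
  have hlogB : Real.log B = (1 / 2 + κ) * L := Real.log_rpow hXpos _
  have hA8 : 8 ≤ Real.log A := by rw [hlogA]; nlinarith
  have hA9 : 9 ≤ A := by
    have := Real.add_one_le_exp (Real.log A)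
    rw [Real.exp_log hApos] at this
    linarith
  have hAB : A ≤ B := Real.rpow_le_rpow_of_exponent_le (by linarith) (by linarith)
  have hB3 : B ≤ κ * X := by
    have h3 : B ≤ (X : ℝ) ^ (3 / 5 : ℝ) :=
      Real.rpow_le_rpow_of_exponent_le (by linarith) (by linarith)
    have h4 : (X : ℝ) ^ (3 / 5 : ℝ) * (X : ℝ) ^ (2 / 5 : ℝ) = X := by
      rw [← Real.rpow_add hXpos]; norm_num
    have h5 : 0 < (X : ℝ) ^ (3 / 5 : ℝ) := Real.rpow_pos_of_pos hXpos _
    rw [div_le_iff₀ hκ] at h2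
    have h6 : (X : ℝ) ^ (3 / 5 : ℝ) * 1 ≤ (X : ℝ) ^ (3 / 5 : ℝ) * ((X : ℝ) ^ (2 / 5 : ℝ) * κ) :=
      mul_le_mul_of_nonneg_left h2 h5.le
    rw [← mul_assoc, h4] at h6
    linarith
  set y : ℕ := ⌊A⌋₊ with hy
  set Z : ℕ := ⌊B⌋₊ with hZ
  have hyA : (y : ℝ) ≤ A := Nat.floor_le hApos.le
  have hyA' : A - 1 < y := Nat.sub_one_lt_floor A
  have hy8 : (8 : ℝ) < y := by linarith
  have hy2 : 2 ≤ y := by
    have : (8 : ℕ) < y := by exact_mod_cast hy8
    omega
  have hyZ : y ≤ Z := Nat.floor_le_floor hAB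
  have hZB : (Z : ℝ) ≤ B := Nat.floor_le hBpos.le
  have hZpos : (0 : ℝ) < Z := by
    have : (y : ℝ) ≤ Z := by exact_mod_cast hyZ
    linarith
  have hlogy : (1 / 2 - κ) * L - 1 ≤ Real.log y := by
    have h3 : A / 2 ≤ y := by linarith
    have h4 := Real.log_le_log (by positivity) h3
    rw [Real.log_div hApos.ne' (by norm_num), hlogA] at h4
    have h5 := Real.log_two_lt_d9
    linarith
  have hlogZ : Real.log Z ≤ (1 / 2 + κ) * L := by
    have h3 := Real.log_le_log hZpos hZB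
    rwa [hlogB] at h3
  have hly : 7 / 20 * L ≤ Real.log y := by nlinarith
  have hlyp : 0 < Real.log y := by linarith
  have hw := win y Z hy2 hyZ
  have hratio : (Real.log Z - Real.log y + 6) / Real.log y ≤ 50 / 7 * κ := by
    rw [div_le_iff₀ hlyp]
    have h3 : Real.log Z - Real.log y + 6 ≤ 2 * κ * L + 7 := by linarith
    have h4 : 50 / 7 * κ * (7 / 20 * L) ≤ 50 / 7 * κ * Real.log y :=
      mul_le_mul_of_nonneg_left hly (by positivity)
    nlinarith
  -- the count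
  have hsub : (Ico X (3 * X)).filter (fun m => ∃ p : ℕ, p.Prime ∧ p ∣ m ∧
      y < p ∧ (p : ℝ) ≤ B) ⊆ ((Ioc y Z).filter Nat.Prime).biUnion
        (fun p => (Ico X (3 * X)).filter (fun m => p ∣ m)) := by
    intro m hm
    rw [mem_filter] at hm
    obtain ⟨hm1, p, hp, hpm, hyp, hpB⟩ := hm
    rw [mem_biUnion]
    refine ⟨p, ?_, ?_⟩
    · rw [mem_filter, mem_Ioc]
      exact ⟨⟨hyp, Nat.le_floor hpB⟩, hp⟩
    · rw [mem_filter]
      exact ⟨hm1, hpm⟩
  have hc1 : (((Ico X (3 * X)).filter (fun m => ∃ p : ℕ, p.Prime ∧ p ∣ m ∧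
      y < p ∧ (p : ℝ) ≤ B)).card : ℝ) ≤ ∑ p ∈ (Ioc y Z).filter Nat.Prime, (2 * X * ((1 : ℝ) / p) + 1) := by
    have h3 := (Finset.card_le_card hsub).trans Finset.card_biUnion_le
    have h4 : (((Ico X (3 * X)).filter (fun m => ∃ p : ℕ, p.Prime ∧ p ∣ m ∧
      y < p ∧ (p : ℝ) ≤ B)).card : ℝ) ≤
      ((∑ p ∈ (Ioc y Z).filter Nat.Prime, ((Ico X (3 * X)).filter (fun m => p ∣ m)).card : ℕ) : ℝ) := by
      exact_mod_cast h3
    refine h4.trans ?_
    push_cast
    refine Finset.sum_le_sum (fun p hp => ?_)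
    rw [mem_filter] at hp
    have h5 := wset_mul X (3 * X) p hp.2.one_le
    have h6 : (((Ico X (3 * X)).filter (fun m => p ∣ m)).card : ℝ) ≤
        (((3 * X - X) / p + 1 : ℕ) : ℝ) := by exact_mod_cast h5
    refine h6.trans ?_
    have h7 : 3 * X - X = 2 * X := by omega
    rw [h7]
    push_cast
    have h8 : (((2 * X / p : ℕ)) : ℝ) ≤ ((2 * X : ℕ) : ℝ) / (p : ℝ) := Nat.cast_div_le
    have h9 : ((2 * X : ℕ) : ℝ) / (p : ℝ) = 2 * X * ((1 : ℝ) / p) := by push_cast; ring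
    rw [h9] at h8
    linarith
  refine hc1.trans ?_
  rw [Finset.sum_add_distrib, ← Finset.mul_sum]
  have h10 : (∑ p ∈ (Ioc y Z).filter Nat.Prime, (1 : ℝ)) ≤ Z := by
    rw [Finset.sum_const, nsmul_eq_mul, mul_one]
    have h11 : ((Ioc y Z).filter Nat.Prime).card ≤ Z := by
      refine (Finset.card_filter_le _ _).trans ?_
      rw [Nat.card_Ioc]; omega
    exact_mod_cast h11
  have h12 : 2 * (X : ℝ) * ∑ p ∈ (Ioc y Z).filter Nat.Prime, (1 : ℝ) / p ≤ 2 * X * (50 / 7 * κ) :=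
    mul_le_mul_of_nonneg_left (hw.trans hratio) (by positivity)
  have h13 : 2 * (X : ℝ) * (50 / 7 * κ) + κ * X ≤ η * X := by nlinarith
  linarith

end EB
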