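import Pool.Agent.Helper85.EB.Defs
import Pool.Agent.Helper85.EB.Comb
import Pool.Agent.Helper85.EB.Maxi
import Pool.Agent.Helper85.EB.Spl
import Pool.Agent.Helper85.EB.Mass
import Pool.Agent.Helper85.EB.Vset
import Pool.Agent.Helper85.EB.Wset

/-! Row MID: blocks of length between `K₀` and `X ^ κ`. -/

set_option autoImplicit false

namespace EB

open Finset Filter
open scoped Classical

/-- powers of `X` are eventually large -/
theorem mid_ev (a : ℝ) (ha : 0 < a) (C : ℝ) : ∃ N : ℕ, ∀ X : ℕ, N ≤ X → C ≤ (X : ℝ) ^ a := by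
  have h1 : Tendsto (fun X : ℕ => (X : ℝ) ^ a) atTop atTop :=
    (tendsto_rpow_atTop ha).comp tendsto_natCast_atTop_atTop
  exact eventually_atTop.1 (h1.eventually_ge_atTop C)

theorem mid_ind (V s : Finset ℕ) : ∑ m ∈ s, (if m ∈ V then (1 : ℝ) else 0) ≤ V.card := by
  rw [Finset.sum_ite_mem, Finset.sum_const, nsmul_eq_mul, mul_one]
  exact_mod_cast Finset.card_le_card Finset.inter_subset_right

theorem mid_ind' (V : Finset ℕ) (n k : ℕ) :
    ∑ i ∈ Icc 1 k, (if n + i ∈ V then (1 : ℝ) else 0)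
      = (((Icc 1 k).filter (fun i => n + i ∈ V)).card : ℝ) := by
  rw [Finset.sum_ite, Finset.sum_const, Finset.sum_const_zero, add_zero, nsmul_eq_mul, mul_one]

/-- the lower bound for the mass of a block -/
theorem mid_core {X y n₁ k k₂ n₂ : ℕ} {c κ : ℝ} (V W : Finset ℕ) (hc0 : 0 < c)
    (hc1 : c ≤ 1 / 100) (hX : 1 ≤ X) (hn : X ≤ n₁) (hk : k₂ ≤ k) (h12 : n₁ + k ≤ n₂)
    (hkk : 2 ≤ c * k) (hP : (bl n₁ k).primeFactors ⊆ (bl n₂ k₂).primeFactors)
    (hsq : ∀ p : ℕ, p ^ 2 < 3 * n₂ * k → (p : ℝ) ≤ (X : ℝ) ^ (1 / 2 + κ))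
    (hVd : ∀ i ∈ Icc 1 k, n₁ + i ∉ V → ∃ p : ℕ, p.Prime ∧ p ∣ n₁ + i ∧ (X : ℝ) ^ c < p ∧ p ≤ y)
    (hWd : ∀ i ∈ Icc 1 k, n₁ + i ∉ W → ∀ p : ℕ, p.Prime → p ∣ n₁ + i →
      (p : ℝ) ≤ (X : ℝ) ^ (1 / 2 + κ) → p ≤ y)
    (hV : (((Icc 1 k).filter (fun i => n₁ + i ∈ V)).card : ℝ) < 1 / 8 * k)
    (hW : (((Icc 1 k).filter (fun i => n₁ + i ∈ W)).card : ℝ) < c / 16 * k) :
    (1 / 2 + c / 16) * k * Real.log X ≤ ∑ i ∈ Icc 1 k, gg y (n₁ + i) := by
  have hX1 : (1 : ℝ) ≤ X := by exact_mod_cast hX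
  have hL : 0 ≤ Real.log X := Real.log_nonneg hX1
  set I := (Icc 1 k).filter
    (fun i => ∃ p : ℕ, p.Prime ∧ p ∣ n₁ + i ∧ 3 * n₂ * k ≤ p ^ 2) with hI
  have hIc : 2 * I.card ≤ k + 1 := comb hk h12 hP
  set A := (Icc 1 k).filter (fun i => i ∉ I ∧ n₁ + i ∉ W) with hA
  set B := (Icc 1 k).filter (fun i => i ∉ A ∧ n₁ + i ∉ V) with hB
  set VV := (Icc 1 k).filter (fun i => n₁ + i ∈ V) with hVV
  set WW := (Icc 1 k).filter (fun i => n₁ + i ∈ W) with hWW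
  have hk1 : (Icc 1 k).card = k := by simp
  have hcA : k ≤ A.card + I.card + WW.card := by
    have h1 : Icc 1 k ⊆ (A ∪ I) ∪ WW := by
      intro i hi
      by_cases h2 : i ∈ I
      · exact mem_union_left _ (mem_union_right _ h2)
      · by_cases h3 : n₁ + i ∈ W
        · exact mem_union_right _ (mem_filter.2 ⟨hi, h3⟩)
        · exact mem_union_left _ (mem_union_left _ (mem_filter.2 ⟨hi, h2, h3⟩))
    calc k = (Icc 1 k).card := hk1.symm
      _ ≤ ((A ∪ I) ∪ WW).card := card_le_card h1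
      _ ≤ (A ∪ I).card + WW.card := card_union_le _ _
      _ ≤ A.card + I.card + WW.card := Nat.add_le_add_right (card_union_le _ _) _
  have hcB : k ≤ B.card + A.card + VV.card := by
    have h1 : Icc 1 k ⊆ (B ∪ A) ∪ VV := by
      intro i hi
      by_cases h2 : i ∈ A
      · exact mem_union_left _ (mem_union_right _ h2)
      · by_cases h3 : n₁ + i ∈ V
        · exact mem_union_right _ (mem_filter.2 ⟨hi, h3⟩)
        · exact mem_union_left _ (mem_union_left _ (mem_filter.2 ⟨hi, h2, h3⟩))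
    calc k = (Icc 1 k).card := hk1.symm
      _ ≤ ((B ∪ A) ∪ VV).card := card_le_card h1
      _ ≤ (B ∪ A).card + VV.card := card_union_le _ _
      _ ≤ B.card + A.card + VV.card := Nat.add_le_add_right (card_union_le _ _) _
  have hterm : ∀ i ∈ Icc 1 k, (if i ∈ A then Real.log X else 0)
      + (if i ∈ B then c * Real.log X else 0) ≤ gg y (n₁ + i) := by
    intro i hi
    have hm : 1 ≤ n₁ + i := by omega
    by_cases h2 : i ∈ A
    · have h3 : i ∉ B := fun h => (mem_filter.1 h).2.1 h2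
      rw [if_pos h2, if_neg h3, add_zero]
      obtain ⟨-, h4, h5⟩ := mem_filter.1 h2
      rw [gg_eq_log y (n₁ + i) hm]
      · apply Real.log_le_log (by linarith)
        push_cast
        have : (X : ℝ) ≤ n₁ := by exact_mod_cast hn
        have : (0 : ℝ) ≤ i := Nat.cast_nonneg i
        linarith
      · intro p hp hpi
        apply hWd i hi h5 p hp hpi
        apply hsq
        by_contra h6
        exact h4 (mem_filter.2 ⟨hi, p, hp, hpi, not_lt.1 h6⟩)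
    · rw [if_neg h2, zero_add]
      by_cases h3 : i ∈ B
      · rw [if_pos h3]
        obtain ⟨-, -, h5⟩ := mem_filter.1 h3
        obtain ⟨p, hp, hpi, hpX, hpy⟩ := hVd i hi h5
        calc c * Real.log X = Real.log ((X : ℝ) ^ c) := (Real.log_rpow (by linarith) c).symm
          _ ≤ Real.log p := Real.log_le_log (Real.rpow_pos_of_pos (by linarith) c) hpX.le
          _ ≤ gg y (n₁ + i) := log_le_gg y _ p hm hp hpi hpy
      · rw [if_neg h3]
        exact gg_nonneg _ _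
  have hsum := Finset.sum_le_sum hterm
  have hAs : A ⊆ Icc 1 k := filter_subset _ _
  have hBs : B ⊆ Icc 1 k := filter_subset _ _
  rw [Finset.sum_add_distrib, Finset.sum_ite_mem, Finset.sum_ite_mem, Finset.sum_const,
    Finset.sum_const, nsmul_eq_mul, nsmul_eq_mul, inter_eq_right.2 hAs, inter_eq_right.2 hBs]
    at hsum
  refine le_trans ?_ hsum
  have e1 : (k : ℝ) ≤ A.card + I.card + WW.card := by exact_mod_cast hcA
  have e2 : (k : ℝ) ≤ B.card + A.card + VV.card := by exact_mod_cast hcB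
  have e3 : 2 * (I.card : ℝ) ≤ k + 1 := by exact_mod_cast hIc
  have e4 : (k : ℝ) / 2 - 1 / 2 - c / 16 * k ≤ A.card := by linarith
  have e5 : 7 / 8 * (k : ℝ) - A.card ≤ B.card := by linarith
  have e6 : (1 / 2 + c / 16) * k ≤ A.card + c * B.card := by
    have f1 : c * (7 / 8 * (k : ℝ) - A.card) ≤ c * B.card := mul_le_mul_of_nonneg_left e5 hc0.le
    have f2 : (1 - c) * ((k : ℝ) / 2 - 1 / 2 - c / 16 * k) ≤ (1 - c) * A.card :=
      mul_le_mul_of_nonneg_left e4 (by linarith)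
    have f3 : 0 ≤ c * c * (k : ℝ) := by positivity
    nlinarith
  calc (1 / 2 + c / 16) * k * Real.log X ≤ (A.card + c * B.card) * Real.log X :=
        mul_le_mul_of_nonneg_right e6 hL
    _ = A.card * Real.log X + B.card * (c * Real.log X) := by ring

theorem mid (η : ℝ) (hη : 0 < η) : ∃ (K₀ : ℕ) (κ : ℝ) (X₀ : ℕ), 0 < κ ∧ ∀ X : ℕ, X₀ ≤ X →
    (((Ico X (2 * X)).filter (fun n₁ => ∃ k₁ k₂ n₂ : ℕ, K₀ ≤ k₁ ∧ (k₁ : ℝ) ≤ (X : ℝ) ^ κ ∧
      k₂ ≤ k₁ ∧ n₁ + k₁ ≤ n₂ ∧ n₂ ≤ 2 * n₁ ∧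
      (bl n₁ k₁).primeFactors ⊆ (bl n₂ k₂).primeFactors)).card : ℝ) ≤ η * X := by
  obtain ⟨c, hc0, hc1, XV, hV⟩ := vset (η / 32) (by positivity)
  obtain ⟨κ₀, hκ₀, hW⟩ := wset (c * η / 64) (by positivity)
  obtain ⟨κ, hκ, hκ1, hκ2⟩ : ∃ κ : ℝ, 0 < κ ∧ κ ≤ κ₀ ∧ κ ≤ 1 / 20 :=
    ⟨min κ₀ (1 / 20), lt_min hκ₀ (by norm_num), min_le_left _ _, min_le_right _ _⟩
  obtain ⟨XW, hW'⟩ := hW κ hκ hκ1
  obtain ⟨K₁, XM, hM⟩ := mass_typ κ (c / 16) (η / 4) hκ (by linarith) (by positivity)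
    (by positivity)
  obtain ⟨N1, hN1⟩ := mid_ev (7 * κ / 4) (by positivity) 12
  obtain ⟨N2, hN2⟩ := mid_ev (1 / 20) (by norm_num) 2
  refine ⟨max K₁ (max 1 ⌈2 / c⌉₊), κ / 4, max (max XV XW) (max (max XM N1) (max N2 1)),
    by positivity, ?_⟩
  intro X hX
  have hXV : XV ≤ X := le_trans (le_trans (le_max_left _ _) (le_max_left _ _)) hX
  have hXW : XW ≤ X := le_trans (le_trans (le_max_right _ _) (le_max_left _ _)) hX
  have hXM : XM ≤ X :=
    le_trans (le_trans (le_trans (le_max_left _ _) (le_max_left _ _)) (le_max_right _ _)) hX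
  have hXN1 : N1 ≤ X :=
    le_trans (le_trans (le_trans (le_max_right _ _) (le_max_left _ _)) (le_max_right _ _)) hX
  have hXN2 : N2 ≤ X :=
    le_trans (le_trans (le_trans (le_max_left _ _) (le_max_right _ _)) (le_max_right _ _)) hX
  have hX1 : 1 ≤ X :=
    le_trans (le_trans (le_trans (le_max_right _ _) (le_max_right _ _)) (le_max_right _ _)) hX
  have hXr : (1 : ℝ) ≤ X := by exact_mod_cast hX1
  have hX0 : (0 : ℝ) < X := by linarith
  have h12 := hN1 X hXN1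
  have h2 := hN2 X hXN2
  set y := ⌊(X : ℝ) ^ (1 / 2 - κ)⌋₊ with hy
  set H := ⌊(X : ℝ) ^ (κ / 4)⌋₊ with hH
  have hyle : (y : ℝ) ≤ (X : ℝ) ^ (1 / 2 - κ) := Nat.floor_le (by positivity)
  have hylo : (X : ℝ) ^ ((2 : ℝ) / 5) ≤ y := by
    have a1 : (X : ℝ) ^ ((2 : ℝ) / 5) * (X : ℝ) ^ ((1 : ℝ) / 20) ≤ (X : ℝ) ^ (1 / 2 - κ) := by
      rw [← Real.rpow_add hX0]
      exact Real.rpow_le_rpow_of_exponent_le hXr (by linarith)
    have a2 : (1 : ℝ) ≤ (X : ℝ) ^ ((2 : ℝ) / 5) := Real.one_le_rpow hXr (by norm_num)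
    have a3 : (X : ℝ) ^ (1 / 2 - κ) < y + 1 := Nat.lt_floor_add_one _
    nlinarith
  have hHX : H ≤ X := by
    have a1 : (X : ℝ) ^ (κ / 4) ≤ (X : ℝ) ^ (1 : ℝ) :=
      Real.rpow_le_rpow_of_exponent_le hXr (by linarith)
    rw [Real.rpow_one] at a1
    exact_mod_cast (Nat.floor_le (by positivity)).trans a1
  set V := (Ico X (3 * X)).filter (fun m => ∀ p : ℕ, p.Prime → p ∣ m →
      (p : ℝ) ≤ (X : ℝ) ^ c ∨ y < p) with hVdef
  set W := (Ico X (3 * X)).filter (fun m => ∃ p : ℕ, p.Prime ∧ p ∣ m ∧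
      y < p ∧ (p : ℝ) ≤ (X : ℝ) ^ (1 / 2 + κ)) with hWdef
  have hVc : (V.card : ℝ) ≤ η / 32 * X := hV X y hXV hylo
  have hWc : (W.card : ℝ) ≤ c * η / 64 * X := hW' X hXW
  set EV := (Ico X (2 * X)).filter (fun n => ∃ k, 1 ≤ k ∧ k ≤ H ∧
    1 / 8 * (k : ℝ) ≤ ∑ i ∈ Icc 1 k, (if n + i ∈ V then (1 : ℝ) else 0)) with hEV
  set EW := (Ico X (2 * X)).filter (fun n => ∃ k, 1 ≤ k ∧ k ≤ H ∧
    c / 16 * (k : ℝ) ≤ ∑ i ∈ Icc 1 k, (if n + i ∈ W then (1 : ℝ) else 0)) with hEW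
  set EM := (Ico X (2 * X)).filter (fun n => ∃ k : ℕ, K₁ ≤ k ∧ (k : ℝ) ≤ (X : ℝ) ^ (κ / 4) ∧
        (1 / 2 + c / 16) * k * Real.log X ≤ ∑ i ∈ Icc 1 k, gg y (n + i)) with hEM
  have hEVc : (EV.card : ℝ) ≤ η / 4 * X := by
    have a1 := maxi (fun m => if m ∈ V then (1 : ℝ) else 0)
      (fun m => by split_ifs <;> norm_num) (c := 1 / 8) (by norm_num) X H
    have a2 := a1.trans (mid_ind V _)
    have a3 : 1 / 8 * (EV.card : ℝ) ≤ V.card := a2
    linarith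
  have hEWc : (EW.card : ℝ) ≤ η / 4 * X := by
    have a1 := maxi (fun m => if m ∈ W then (1 : ℝ) else 0)
      (fun m => by split_ifs <;> norm_num) (c := c / 16) (by positivity) X H
    have a2 := a1.trans (mid_ind W _)
    have a3 : c / 16 * (EW.card : ℝ) ≤ W.card := a2
    have a4 : c / 16 * (EW.card : ℝ) ≤ c / 16 * (η / 4 * X) := by
      calc c / 16 * (EW.card : ℝ) ≤ c * η / 64 * X := a3.trans hWc
        _ = c / 16 * (η / 4 * X) := by ring
    exact le_of_mul_le_mul_left a4 (by positivity)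
  have hEMc : (EM.card : ℝ) ≤ η / 4 * X := hM X y hXM hyle
  have hsub : (Ico X (2 * X)).filter (fun n₁ => ∃ k₁ k₂ n₂ : ℕ,
      max K₁ (max 1 ⌈2 / c⌉₊) ≤ k₁ ∧ (k₁ : ℝ) ≤ (X : ℝ) ^ (κ / 4) ∧
      k₂ ≤ k₁ ∧ n₁ + k₁ ≤ n₂ ∧ n₂ ≤ 2 * n₁ ∧
      (bl n₁ k₁).primeFactors ⊆ (bl n₂ k₂).primeFactors) ⊆ (EV ∪ EW) ∪ EM := by
    intro n₁ hn₁
    obtain ⟨hnI, k, k₂, n₂, hK, hkX, hk, h12', h22, hP⟩ := mem_filter.1 hn₁
    by_cases hnV : n₁ ∈ EV
    · exact mem_union_left _ (mem_union_left _ hnV)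
    by_cases hnW : n₁ ∈ EW
    · exact mem_union_left _ (mem_union_right _ hnW)
    apply mem_union_right
    have hK1 : K₁ ≤ k := le_trans (le_max_left _ _) hK
    have hk1 : 1 ≤ k := le_trans (le_trans (le_max_left _ _) (le_max_right _ _)) hK
    have hK2 : ⌈2 / c⌉₊ ≤ k := le_trans (le_trans (le_max_right _ _) (le_max_right _ _)) hK
    have hkc : 2 / c ≤ k := (Nat.le_ceil _).trans (by exact_mod_cast hK2)
    have hkH : k ≤ H := Nat.le_floor hkX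
    obtain ⟨hn1, hn2⟩ := mem_Ico.1 hnI
    refine mem_filter.2 ⟨hnI, k, hK1, hkX, ?_⟩
    apply mid_core (κ := κ) V W hc0 hc1 hX1 hn1 hk h12' ?_ hP ?_ ?_ ?_ ?_ ?_
    · rw [div_le_iff₀ hc0] at hkc
      linarith
    · intro p hp
      have b1 : ((p : ℝ)) ^ 2 < 3 * n₂ * k := by exact_mod_cast hp
      have b2 : (n₂ : ℝ) ≤ 4 * X := by
        have : n₂ ≤ 4 * X := by omega
        exact_mod_cast this
      have b3 : (3 : ℝ) * n₂ * k ≤ 12 * (X * (X : ℝ) ^ (κ / 4)) := by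
        have b4 : (n₂ : ℝ) * k ≤ 4 * X * (X : ℝ) ^ (κ / 4) :=
          mul_le_mul b2 hkX (Nat.cast_nonneg _) (by positivity)
        nlinarith
      have b5 : 12 * (X * (X : ℝ) ^ (κ / 4)) ≤ ((X : ℝ) ^ (1 / 2 + κ)) ^ 2 := by
        have b6 : ((X : ℝ) ^ (1 / 2 + κ)) ^ 2
            = (X : ℝ) ^ (7 * κ / 4) * (X * (X : ℝ) ^ (κ / 4)) := by
          rw [← Real.rpow_natCast ((X : ℝ) ^ (1 / 2 + κ)) 2, ← Real.rpow_mul hX0.le]
          nth_rewrite 3 [← Real.rpow_one (X : ℝ)]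
          rw [← Real.rpow_add hX0, ← Real.rpow_add hX0]
          congr 1
          push_cast
          ring
        rw [b6]
        exact mul_le_mul_of_nonneg_right h12 (by positivity)
      have b7 : (p : ℝ) ^ 2 < ((X : ℝ) ^ (1 / 2 + κ)) ^ 2 := by linarith
      exact (lt_of_pow_lt_pow_left₀ 2 (by positivity) b7).le
    · intro i hi hiV
      obtain ⟨hi1, hi2⟩ := mem_Icc.1 hi
      by_contra hcon
      apply hiV
      refine mem_filter.2 ⟨mem_Ico.2 ⟨by omega, by omega⟩, ?_⟩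
      intro p hp hpi
      by_contra hcon2
      rw [not_or, not_le, not_lt] at hcon2
      exact hcon ⟨p, hp, hpi, hcon2.1, hcon2.2⟩
    · intro i hi hiW p hp hpi hpX
      obtain ⟨hi1, hi2⟩ := mem_Icc.1 hi
      by_contra hcon
      apply hiW
      exact mem_filter.2 ⟨mem_Ico.2 ⟨by omega, by omega⟩, p, hp, hpi, not_le.1 hcon, hpX⟩
    · by_contra hcon
      apply hnV
      refine mem_filter.2 ⟨hnI, k, hk1, hkH, ?_⟩
      rw [mid_ind']
      exact not_lt.1 hcon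
    · by_contra hcon
      apply hnW
      refine mem_filter.2 ⟨hnI, k, hk1, hkH, ?_⟩
      rw [mid_ind']
      exact not_lt.1 hcon
  have hcard := card_le_card hsub
  have hcard2 : ((EV ∪ EW) ∪ EM).card ≤ EV.card + EW.card + EM.card :=
    (card_union_le _ _).trans (Nat.add_le_add_right (card_union_le _ _) _)
  have hcard3 := (Nat.cast_le (α := ℝ)).2 (hcard.trans hcard2)
  push_cast at hcard3
  refine hcard3.trans ?_
  have hηX : 0 ≤ η * X := by positivity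
  linarith

end EB
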