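import Pool.Agent.Helper85.EB.Defs

set_option autoImplicit false

namespace EB

open Finset Filter
open scoped Classical

theorem rad_split {m : ℕ} (hm : m ≠ 0) : ∃ d : ℕ, d ^ 2 ∣ m ∧ m ≤ d ^ 3 * rd m := by
  refine ⟨∏ p ∈ m.primeFactors, p ^ (m.factorization p / 2), ?_, ?_⟩
  · have h : (∏ p ∈ m.primeFactors, p ^ (m.factorization p / 2)) ^ 2 ∣
        ∏ p ∈ m.primeFactors, p ^ (m.factorization p) := by
      rw [← Finset.prod_pow]
      apply Finset.prod_dvd_prod_of_dvd
      intro p _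
      rw [← pow_mul]
      exact pow_dvd_pow _ (by omega)
    have h2 : ∏ p ∈ m.primeFactors, p ^ (m.factorization p) = m :=
      Nat.prod_factorization_pow_eq_self hm
    rwa [h2] at h
  · have h2 : ∏ p ∈ m.primeFactors, p ^ (m.factorization p) = m :=
      Nat.prod_factorization_pow_eq_self hm
    calc m = ∏ p ∈ m.primeFactors, p ^ (m.factorization p) := h2.symm
      _ ≤ ∏ p ∈ m.primeFactors, ((p ^ (m.factorization p / 2)) ^ 3 * p) := by
        apply Finset.prod_le_prod'
        intro p hp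
        have hp1 : 1 ≤ p := (Nat.prime_of_mem_primeFactors hp).one_le
        rw [← pow_mul, ← pow_succ]
        exact Nat.pow_le_pow_right hp1 (by omega)
      _ = (∏ p ∈ m.primeFactors, p ^ (m.factorization p / 2)) ^ 3 * rd m := by
        rw [Finset.prod_mul_distrib, Finset.prod_pow, rd]

theorem radc (X D : ℕ) (hD : 1 ≤ D) :
    (((Ico 1 (3 * X)).filter (fun m => D ^ 3 * rd m < m)).card : ℝ) ≤ 3 * X / D := by
  have hD0 : (0 : ℝ) < D := by exact_mod_cast hD
  have hsub : (Ico 1 (3 * X)).filter (fun m => D ^ 3 * rd m < m) ⊆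
      (Ioc D (3 * X)).biUnion (fun d => (Ioc 0 (3 * X)).filter (fun m => d ^ 2 ∣ m)) := by
    intro m hm
    rw [mem_filter, mem_Ico] at hm
    obtain ⟨⟨h1, h2⟩, h3⟩ := hm
    obtain ⟨d, hd1, hd2⟩ := rad_split (show m ≠ 0 by omega)
    have hdD : D < d := by
      by_contra hcon
      push Not at hcon
      have : d ^ 3 * rd m ≤ D ^ 3 * rd m := Nat.mul_le_mul_right _ (Nat.pow_le_pow_left hcon 3)
      omega
    have hdm : d ≤ m := by
      have h4 : d ^ 2 ≤ m := Nat.le_of_dvd (by omega) hd1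
      nlinarith
    rw [mem_biUnion]
    exact ⟨d, mem_Ioc.2 ⟨hdD, by omega⟩, mem_filter.2 ⟨mem_Ioc.2 ⟨by omega, by omega⟩, hd1⟩⟩
  have h1 : ((((Ico 1 (3 * X)).filter (fun m => D ^ 3 * rd m < m)).card : ℕ) : ℝ) ≤
      ∑ d ∈ Ioc D (3 * X), (3 * X : ℝ) * ((d : ℝ) ^ 2)⁻¹ := by
    have h2 := (card_le_card hsub).trans card_biUnion_le
    have h3 : ((((Ico 1 (3 * X)).filter (fun m => D ^ 3 * rd m < m)).card : ℕ) : ℝ) ≤
        ∑ d ∈ Ioc D (3 * X), (((Ioc 0 (3 * X)).filter (fun m => d ^ 2 ∣ m)).card : ℝ) := by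
      exact_mod_cast h2
    refine h3.trans (Finset.sum_le_sum fun d _ => ?_)
    rw [Nat.Ioc_filter_dvd_card_eq_div]
    refine (Nat.cast_div_le).trans (le_of_eq ?_)
    push_cast
    rw [div_eq_mul_inv]
  refine h1.trans ?_
  rw [← Finset.mul_sum]
  rcases le_or_gt D (3 * X) with h | h
  · have h4 := sum_Ioc_inv_sq_le_sub (α := ℝ) (k := D) (n := 3 * X) (by omega) h
    have h5 : (0 : ℝ) ≤ ((3 * X : ℕ) : ℝ)⁻¹ := by positivity
    calc (3 * X : ℝ) * ∑ d ∈ Ioc D (3 * X), ((d : ℝ) ^ 2)⁻¹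
        ≤ (3 * X : ℝ) * (D : ℝ)⁻¹ := by
          apply mul_le_mul_of_nonneg_left _ (by positivity)
          linarith
      _ = 3 * X / D := by rw [div_eq_mul_inv]
  · rw [Ioc_eq_empty (by omega)]
    simp
    positivity

theorem radbl (n k : ℕ) :
    ∏ i ∈ Icc 1 k, rd (n + i) ≤ rd (bl n k) * k.factorial ^ k := by
  have hbl : bl n k ≠ 0 := by
    rw [bl, Finset.prod_ne_zero_iff]
    intro i hi
    rw [mem_Icc] at hi
    omega
  have h1 : ∀ i ∈ Icc 1 k, rd (n + i) =
      ∏ p ∈ (bl n k).primeFactors, if p ∣ n + i then p else 1 := by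
    intro i hi
    rw [rd, ← Finset.prod_filter]
    apply Finset.prod_congr _ (fun _ _ => rfl)
    ext p
    rw [mem_filter, Nat.mem_primeFactors, Nat.mem_primeFactors]
    constructor
    · rintro ⟨hp, hd, _⟩
      exact ⟨⟨hp, hd.trans (Finset.dvd_prod_of_mem _ hi), hbl⟩, hd⟩
    · rintro ⟨⟨hp, _, _⟩, hd⟩
      rw [mem_Icc] at hi
      exact ⟨hp, hd, by omega⟩
  rw [Finset.prod_congr rfl h1, Finset.prod_comm]
  have h2 : ∀ p ∈ (bl n k).primeFactors, (∏ i ∈ Icc 1 k, if p ∣ n + i then p else 1) ≤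
      p * (if p ≤ k then p ^ k else 1) := by
    intro p hp
    have hpp := Nat.prime_of_mem_primeFactors hp
    rw [← Finset.prod_filter, Finset.prod_const]
    by_cases hpk : p ≤ k
    · rw [if_pos hpk]
      calc p ^ ((Icc 1 k).filter (fun i => p ∣ n + i)).card ≤ p ^ k := by
            apply Nat.pow_le_pow_right hpp.one_le
            exact (card_filter_le _ _).trans (by simp)
        _ ≤ p * p ^ k := Nat.le_mul_of_pos_left _ hpp.pos
    · rw [if_neg hpk, mul_one]
      have hc : ((Icc 1 k).filter (fun i => p ∣ n + i)).card ≤ 1 := by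
        rw [card_le_one]
        intro a ha b hb
        rw [mem_filter, mem_Icc] at ha hb
        obtain ⟨⟨ha1, ha2⟩, hda⟩ := ha
        obtain ⟨⟨hb1, hb2⟩, hdb⟩ := hb
        by_contra hne
        rcases lt_or_gt_of_ne hne with hab | hab
        · have : p ∣ (n + b) - (n + a) := Nat.dvd_sub hdb hda
          have := Nat.le_of_dvd (by omega) this
          omega
        · have : p ∣ (n + a) - (n + b) := Nat.dvd_sub hda hdb
          have := Nat.le_of_dvd (by omega) this
          omega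
      calc p ^ ((Icc 1 k).filter (fun i => p ∣ n + i)).card ≤ p ^ 1 :=
            Nat.pow_le_pow_right hpp.one_le hc
        _ = p := pow_one p
  refine (Finset.prod_le_prod' h2).trans ?_
  rw [Finset.prod_mul_distrib, rd]
  apply Nat.mul_le_mul_left
  rw [← Finset.prod_filter, Finset.prod_pow]
  apply Nat.pow_le_pow_left
  rw [← Finset.prod_Ico_id_eq_factorial]
  apply Nat.le_of_dvd
  · apply Finset.prod_pos
    intro i hi
    rw [mem_Ico] at hi
    omega
  · apply Finset.prod_dvd_prod_of_subset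
    intro p hp
    rw [mem_filter] at hp
    exact mem_Ico.2 ⟨(Nat.prime_of_mem_primeFactors hp.1).one_le, Nat.lt_succ_of_le hp.2⟩

end EB
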