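import Pool.Agent.Helper85.EB.Pri
import Pool.Agent.Helper85.EB.Spl

/-! Rows VSA and VSB: integers with a large smooth part, integers `s * p` with small `s`
(MP_b6eca7_nt). -/

set_option autoImplicit false

namespace EB

open Finset Filter
open scoped Classical

/-- large `X` has large logarithm -/
theorem vs_log_ge (A : ℝ) : ∃ X₀ : ℕ, 2 ≤ X₀ ∧ ∀ X : ℕ, X₀ ≤ X → A ≤ Real.log X := by
  have h := (Real.tendsto_log_atTop.comp tendsto_natCast_atTop_atTop).eventually_ge_atTop A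
  obtain ⟨N, hN⟩ := eventually_atTop.1 h
  exact ⟨max N 2, le_max_right _ _, fun X hX => hN X (le_trans (le_max_left _ _) hX)⟩

theorem vs_card_dvd (N p : ℕ) : (((Ico 1 N).filter (fun m => p ∣ m)).card : ℝ) ≤ N / p := by
  have h1 : ((Ico 1 N).filter (fun m => p ∣ m)).card ≤ ((Ioc 0 N).filter (fun m => p ∣ m)).card := by
    apply card_le_card
    apply filter_subset_filter
    intro m hm
    rw [mem_Ico] at hm
    rw [mem_Ioc]
    omega
  rw [Nat.Ioc_filter_dvd_card_eq_div] at h1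
  calc _ ≤ ((N / p : ℕ) : ℝ) := by exact_mod_cast h1
    _ ≤ N / p := Nat.cast_div_le

/-- first moment of the mass without multiplicity -/
theorem vs_g1_sum (y N : ℕ) (hy : 1 ≤ y) :
    ∑ m ∈ Ico 1 N, g1 y m ≤ N * (Real.log y + 2) := by
  unfold g1
  rw [sum_comm]
  calc ∑ p ∈ (Icc 1 y).filter Nat.Prime, ∑ m ∈ Ico 1 N, (if p ∣ m then Real.log p else 0)
      ≤ ∑ p ∈ (Icc 1 y).filter Nat.Prime, N * (Real.log p / p) := by
        apply sum_le_sum
        intro p hp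
        rw [← sum_filter, sum_const, nsmul_eq_mul]
        have hlog : 0 ≤ Real.log p := Real.log_natCast_nonneg p
        have h := mul_le_mul_of_nonneg_right (vs_card_dvd N p) hlog
        calc _ ≤ (N : ℝ) / p * Real.log p := h
          _ = N * (Real.log p / p) := by ring
    _ = N * ∑ p ∈ (Icc 1 y).filter Nat.Prime, Real.log p / p := by rw [mul_sum]
    _ ≤ N * (Real.log y + 2) := by
        apply mul_le_mul_of_nonneg_left (mert_up y hy) (Nat.cast_nonneg _)

theorem vset_A (c : ℝ) (hc : 0 < c) (hc' : c ≤ 1 / 100) : ∃ X₀ : ℕ, ∀ X : ℕ, X₀ ≤ X →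
    (((Ico X (3 * X)).filter (fun m =>
      √c * Real.log X ≤ gg ⌊(X : ℝ) ^ c⌋₊ m)).card : ℝ) ≤ 4 * √c * X := by
  obtain ⟨C, hC, hpow⟩ := pow_part
  obtain ⟨X₀, h2, hX₀⟩ := vs_log_ge (3 * (2 + C) / c + 1)
  refine ⟨X₀, fun X hX => ?_⟩
  have hXL := hX₀ X hX
  have hX2 : 2 ≤ X := le_trans h2 hX
  have hXr : (2 : ℝ) ≤ X := by exact_mod_cast hX2
  set L := Real.log X with hL
  have hLc : 3 * (2 + C) ≤ c * L := by
    have : 3 * (2 + C) / c ≤ L := by linarith
    rw [div_le_iff₀ hc] at this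
    linarith
  have hLpos : 0 < L := by
    have : 0 < 3 * (2 + C) / c := by positivity
    linarith
  set y := ⌊(X : ℝ) ^ c⌋₊ with hy
  have hXc1 : (1 : ℝ) ≤ (X : ℝ) ^ c := Real.one_le_rpow (by linarith) hc.le
  have hy1 : 1 ≤ y := Nat.le_floor (by exact_mod_cast hXc1)
  have hlogy : Real.log y ≤ c * L := by
    have h1 : (y : ℝ) ≤ (X : ℝ) ^ c := Nat.floor_le (by positivity)
    have h2 : Real.log y ≤ Real.log ((X : ℝ) ^ c) :=
      Real.log_le_log (by exact_mod_cast hy1) h1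
    rwa [Real.log_rpow (by linarith)] at h2
  have hsum : ∑ m ∈ Ico 1 (3 * X), gg y m ≤ 4 * c * L * X := by
    have h1 := vs_g1_sum y (3 * X) hy1
    have h2 := hpow y (3 * X)
    rw [sum_sub_distrib] at h2
    push_cast at h1 h2
    have h3 : (3 * (X : ℝ)) * (Real.log y + 2) ≤ (3 * X) * (c * L + 2) := by
      apply mul_le_mul_of_nonneg_left (by linarith) (by positivity)
    have h4 : (3 * (2 + C)) * X ≤ (c * L) * X :=
      mul_le_mul_of_nonneg_right hLc (by positivity)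
    nlinarith
  have hmark : (((Ico X (3 * X)).filter (fun m => √c * L ≤ gg y m)).card : ℝ) * (√c * L)
      ≤ ∑ m ∈ Ico 1 (3 * X), gg y m := by
    calc (((Ico X (3 * X)).filter (fun m => √c * L ≤ gg y m)).card : ℝ) * (√c * L)
        = ∑ m ∈ (Ico X (3 * X)).filter (fun m => √c * L ≤ gg y m), √c * L := by
          rw [sum_const, nsmul_eq_mul]
      _ ≤ ∑ m ∈ (Ico X (3 * X)).filter (fun m => √c * L ≤ gg y m), gg y m := by
          apply sum_le_sum
          intro m hm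
          exact (mem_filter.1 hm).2
      _ ≤ ∑ m ∈ Ico 1 (3 * X), gg y m := by
          apply sum_le_sum_of_subset_of_nonneg
          · intro m hm
            have := (mem_filter.1 hm).1
            rw [mem_Ico] at this ⊢
            omega
          · intro m _ _
            exact gg_nonneg y m
  have hsc : 0 < √c := Real.sqrt_pos.2 hc
  have hscc : √c * √c = c := Real.mul_self_sqrt hc.le
  have hfin : (((Ico X (3 * X)).filter (fun m => √c * L ≤ gg y m)).card : ℝ) * (√c * L)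
      ≤ (4 * √c * X) * (√c * L) := by
    calc _ ≤ ∑ m ∈ Ico 1 (3 * X), gg y m := hmark
      _ ≤ 4 * c * L * X := hsum
      _ = 4 * (√c * √c) * L * X := by rw [hscc]
      _ = (4 * √c * X) * (√c * L) := by ring
  exact le_of_mul_le_mul_right hfin (by positivity)

/-- harmonic sum up to a real power -/
theorem vs_harm (X : ℕ) (hX : 1 ≤ X) (a : ℝ) (ha : 0 < a) :
    ∑ s ∈ Icc 1 ⌊(X : ℝ) ^ a⌋₊, (1 : ℝ) / s ≤ 1 + a * Real.log X := by
  have hXr : (1 : ℝ) ≤ X := by exact_mod_cast hX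
  have h := harmonic_floor_le_one_add_log ((X : ℝ) ^ a) (Real.one_le_rpow hXr ha.le)
  rw [Real.log_rpow (by linarith)] at h
  rw [harmonic_eq_sum_Icc] at h
  push_cast at h
  simpa [one_div] using h

theorem vset_B (c : ℝ) (hc : 0 < c) (hc' : c ≤ 1 / 100) : ∃ X₀ : ℕ, ∀ X : ℕ, X₀ ≤ X →
    (((Ico X (3 * X)).filter (fun m => ∃ s p : ℕ, 1 ≤ s ∧ (s : ℝ) ≤ (X : ℝ) ^ √c ∧ p.Prime ∧
      m = s * p)).card : ℝ) ≤ 100 * √c * X := by
  have hsc : 0 < √c := Real.sqrt_pos.2 hc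
  have hsc' : √c ≤ 1 / 10 := by
    rw [show (1 : ℝ) / 10 = √(1 / 100) by
      rw [show (1 : ℝ) / 100 = (1 / 10) ^ 2 by norm_num, Real.sqrt_sq (by norm_num)]]
    exact Real.sqrt_le_sqrt hc'
  obtain ⟨X₀, h2, hX₀⟩ := vs_log_ge (1 / √c + 1)
  refine ⟨X₀, fun X hX => ?_⟩
  have hXL := hX₀ X hX
  have hX2 : 2 ≤ X := le_trans h2 hX
  have hXr : (2 : ℝ) ≤ X := by exact_mod_cast hX2
  set L := Real.log X with hL
  have hLpos : 0 < L := by
    have : 0 < 1 / √c := by positivity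
    linarith
  have hLc : 1 ≤ √c * L := by
    have : 1 / √c ≤ L := by linarith
    rw [div_le_iff₀ hsc] at this
    linarith
  set S := ⌊(X : ℝ) ^ √c⌋₊ with hS
  -- covering
  have hcov : (Ico X (3 * X)).filter (fun m => ∃ s p : ℕ, 1 ≤ s ∧ (s : ℝ) ≤ (X : ℝ) ^ √c ∧
      p.Prime ∧ m = s * p) ⊆ (Icc 1 S).biUnion (fun s =>
        ((Icc 1 (3 * X / s)).filter Nat.Prime).image (fun p => s * p)) := by
    intro m hm
    obtain ⟨hm1, s, p, hs1, hs2, hp, rfl⟩ := mem_filter.1 hm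
    rw [mem_Ico] at hm1
    rw [mem_biUnion]
    refine ⟨s, mem_Icc.2 ⟨hs1, Nat.le_floor hs2⟩, ?_⟩
    rw [mem_image]
    refine ⟨p, mem_filter.2 ⟨mem_Icc.2 ⟨hp.one_lt.le, ?_⟩, hp⟩, rfl⟩
    rw [Nat.le_div_iff_mul_le (by omega)]
    nlinarith [hm1.2]
  have hone : ∀ s ∈ Icc 1 S, (((Icc 1 (3 * X / s)).filter Nat.Prime).card : ℝ)
      ≤ 40 * X / L * (1 / s) := by
    intro s hs
    rw [mem_Icc] at hs
    have hs1 : (1 : ℝ) ≤ s := by exact_mod_cast hs.1
    have hs2 : (s : ℝ) ≤ (X : ℝ) ^ √c := le_trans (by exact_mod_cast hs.2) (Nat.floor_le (by positivity))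
    have hs3 : (s : ℝ) ≤ (X : ℝ) ^ ((1 : ℝ) / 10) :=
      le_trans hs2 (Real.rpow_le_rpow_of_exponent_le (by linarith) hsc')
    have hspos : (0 : ℝ) < s := by linarith
    -- N = 3X/s
    have hN1 : ((3 * X / s : ℕ) : ℝ) ≤ 3 * X / s := by
      have := @Nat.cast_div_le ℝ _ _ _ (3 * X) s
      push_cast at this
      exact this
    have hpow : (X : ℝ) ^ ((1 : ℝ) / 10) * (X : ℝ) ^ ((9 : ℝ) / 10) = X := by
      rw [← Real.rpow_add (by linarith)]
      norm_num
    have h9 : (1 : ℝ) ≤ (X : ℝ) ^ ((9 : ℝ) / 10) := Real.one_le_rpow (by linarith) (by norm_num)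
    have hdiv : 3 * (X : ℝ) ^ ((9 : ℝ) / 10) ≤ 3 * X / s := by
      rw [le_div_iff₀ hspos]
      calc 3 * (X : ℝ) ^ ((9 : ℝ) / 10) * s ≤ 3 * (X : ℝ) ^ ((9 : ℝ) / 10) * (X : ℝ) ^ ((1 : ℝ) / 10) := by
            gcongr
        _ = 3 * ((X : ℝ) ^ ((1 : ℝ) / 10) * (X : ℝ) ^ ((9 : ℝ) / 10)) := by ring
        _ = 3 * X := by rw [hpow]
    have hN2 : 3 * (X : ℝ) / s - 1 < ((3 * X / s : ℕ) : ℝ) := by
      have h1 : 3 * X < (3 * X / s + 1) * s := by
        have := Nat.lt_mul_div_succ (3 * X) (show 0 < s by omega)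
        nlinarith
      have h2 : 3 * (X : ℝ) < (((3 * X / s : ℕ) : ℝ) + 1) * s := by exact_mod_cast h1
      rw [sub_lt_iff_lt_add, div_lt_iff₀ hspos]
      exact h2
    have hN3 : 2 * (X : ℝ) ^ ((9 : ℝ) / 10) ≤ ((3 * X / s : ℕ) : ℝ) := by linarith
    have hN4 : 2 ≤ 3 * X / s := by
      have : (2 : ℝ) ≤ ((3 * X / s : ℕ) : ℝ) := by linarith
      exact_mod_cast this
    have hlogN : 9 / 10 * L ≤ Real.log ((3 * X / s : ℕ) : ℝ) := by
      have h1 : Real.log ((X : ℝ) ^ ((9 : ℝ) / 10)) ≤ Real.log ((3 * X / s : ℕ) : ℝ) :=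
        Real.log_le_log (by positivity) (by linarith)
      rwa [Real.log_rpow (by linarith)] at h1
    calc _ ≤ 10 * ((3 * X / s : ℕ) : ℝ) / Real.log ((3 * X / s : ℕ) : ℝ) := pi_le _ hN4
      _ ≤ 10 * (3 * X / s) / (9 / 10 * L) := by
          gcongr
      _ = (100 / 3) * X / L * (1 / s) := by field_simp; ring
      _ ≤ 40 * X / L * (1 / s) := by
          gcongr
          norm_num
  calc (((Ico X (3 * X)).filter (fun m => ∃ s p : ℕ, 1 ≤ s ∧ (s : ℝ) ≤ (X : ℝ) ^ √c ∧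
        p.Prime ∧ m = s * p)).card : ℝ)
      ≤ (((Icc 1 S).biUnion (fun s =>
        ((Icc 1 (3 * X / s)).filter Nat.Prime).image (fun p => s * p))).card : ℝ) := by
        exact_mod_cast card_le_card hcov
    _ ≤ ∑ s ∈ Icc 1 S, (((Icc 1 (3 * X / s)).filter Nat.Prime).card : ℝ) := by
        have := card_biUnion_le (s := Icc 1 S) (t := fun s =>
          ((Icc 1 (3 * X / s)).filter Nat.Prime).image (fun p => s * p))
        calc _ ≤ ((∑ s ∈ Icc 1 S, (((Icc 1 (3 * X / s)).filter Nat.Prime).image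
              (fun p => s * p)).card : ℕ) : ℝ) := by exact_mod_cast this
          _ ≤ _ := by
            push_cast
            apply sum_le_sum
            intro s _
            exact_mod_cast card_image_le
    _ ≤ ∑ s ∈ Icc 1 S, 40 * X / L * (1 / (s : ℝ)) := sum_le_sum hone
    _ = 40 * X / L * ∑ s ∈ Icc 1 S, (1 : ℝ) / s := by rw [mul_sum]
    _ ≤ 40 * X / L * (1 + √c * L) := by
        apply mul_le_mul_of_nonneg_left _ (by positivity)
        exact vs_harm X (by omega) _ hsc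
    _ ≤ 40 * X / L * (2 * (√c * L)) := by
        apply mul_le_mul_of_nonneg_left _ (by positivity)
        linarith
    _ = 80 * √c * X := by field_simp; ring
    _ ≤ 100 * √c * X := by
        gcongr
        norm_num

end EB
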